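import Mathlib

/-!
Averages over finite types, free of instance choices.
-/

open scoped BigOperators Classical
open Finset Function

noncomputable section

namespace Pool.Agent.GT

/-- The average of a real function on a finite type. -/
def av {Ω : Type*} (f : Ω → ℝ) : ℝ := (∑ᶠ x, f x) / Nat.card Ω

/-- The indicator of a proposition. -/
def ind (P : Prop) : ℝ := if P then 1 else 0

/-- The density of a predicate on a finite type. -/
def pr {Ω : Type*} (P : Ω → Prop) : ℝ := av fun x => ind (P x)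

section ind

variable {P Q : Prop}

lemma ind_of (h : P) : ind P = 1 := if_pos h
lemma ind_of_not (h : ¬ P) : ind P = 0 := if_neg h
@[simp] lemma ind_true : ind True = 1 := ind_of trivial
@[simp] lemma ind_false : ind False = 0 := ind_of_not id
lemma ind_nonneg (P : Prop) : 0 ≤ ind P := by unfold ind; split_ifs <;> norm_num
lemma ind_le_one (P : Prop) : ind P ≤ 1 := by unfold ind; split_ifs <;> norm_num
lemma abs_ind_le_one (P : Prop) : |ind P| ≤ 1 := by
  rw [abs_of_nonneg (ind_nonneg P)]; exact ind_le_one P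
lemma ind_congr (h : P ↔ Q) : ind P = ind Q := by rw [propext h]
lemma ind_and (P Q : Prop) : ind (P ∧ Q) = ind P * ind Q := by
  by_cases hP : P <;> by_cases hQ : Q <;> simp [ind, hP, hQ]
lemma ind_not (P : Prop) : ind (¬ P) = 1 - ind P := by by_cases hP : P <;> simp [ind, hP]
lemma ind_mono (h : P → Q) : ind P ≤ ind Q := by
  by_cases hP : P
  · rw [ind_of hP, ind_of (h hP)]
  · rw [ind_of_not hP]; exact ind_nonneg Q
lemma ind_mul_self (P : Prop) : ind P * ind P = ind P := by rw [← ind_and, and_self]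
lemma ind_or_le (P Q : Prop) : ind (P ∨ Q) ≤ ind P + ind Q := by
  by_cases hP : P <;> by_cases hQ : Q <;> simp [ind, hP, hQ]
lemma ind_forall {ι : Type*} (s : Finset ι) (P : ι → Prop) :
    ind (∀ i ∈ s, P i) = ∏ i ∈ s, ind (P i) := by
  by_cases h : ∀ i ∈ s, P i
  · rw [ind_of h, eq_comm]; exact prod_eq_one fun i hi => ind_of (h i hi)
  · rw [ind_of_not h, eq_comm]
    push Not at h
    obtain ⟨i, hi, h⟩ := h
    exact prod_eq_zero hi (ind_of_not h)
lemma ind_exists_le {ι : Type*} (s : Finset ι) (P : ι → Prop) :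
    ind (∃ i ∈ s, P i) ≤ ∑ i ∈ s, ind (P i) := by
  by_cases h : ∃ i ∈ s, P i
  · rw [ind_of h]
    obtain ⟨i, hi, h⟩ := h
    rw [← ind_of h]
    exact single_le_sum (f := fun i => ind (P i)) (fun j _ => ind_nonneg _) hi
  · rw [ind_of_not h]; exact sum_nonneg fun j _ => ind_nonneg _
lemma sum_ind_eq {ι : Type*} [Fintype ι] (a : ι) (f : ι → ℝ) : ∑ i, ind (a = i) * f i = f a := by
  simp [ind]

end ind

variable {Ω Ω' : Type*}

lemma av_eq_sum [Fintype Ω] (f : Ω → ℝ) : av f = (∑ x, f x) / Fintype.card Ω := by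
  rw [av, finsum_eq_sum_of_fintype, Nat.card_eq_fintype_card]

lemma av_eq [Fintype Ω] (f : Ω → ℝ) : av f = 𝔼 x, f x := by
  rw [av_eq_sum, Fintype.expect_eq_sum_div_card]

lemma av_congr {f g : Ω → ℝ} (h : ∀ x, f x = g x) : av f = av g := by rw [funext h]

@[simp] lemma av_zero : av (fun _ : Ω => (0 : ℝ)) = 0 := by simp [av]

lemma av_of_isEmpty [IsEmpty Ω] (f : Ω → ℝ) : av f = 0 := by simp [av]

lemma av_unique [Unique Ω] (f : Ω → ℝ) : av f = f default := by simp [av_eq_sum]

lemma av_equiv (e : Ω ≃ Ω') (f : Ω' → ℝ) : av (fun x => f (e x)) = av f := by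
  rw [av, av, Nat.card_congr e, finsum_comp_equiv e]

lemma av_bij {e : Ω → Ω'} (he : Bijective e) (f : Ω' → ℝ) : av (fun x => f (e x)) = av f :=
  av_equiv (Equiv.ofBijective e he) f

variable [Finite Ω] [Finite Ω']

lemma card_pos_real (Ω : Type*) [Finite Ω] [Nonempty Ω] : (0 : ℝ) < Nat.card Ω := by
  exact_mod_cast Nat.card_pos

lemma av_add (f g : Ω → ℝ) : av (fun x => f x + g x) = av f + av g := by
  cases nonempty_fintype Ω; simp only [av_eq, expect_add_distrib]

lemma av_sub (f g : Ω → ℝ) : av (fun x => f x - g x) = av f - av g := by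
  cases nonempty_fintype Ω; simp only [av_eq, expect_sub_distrib]

lemma av_neg (f : Ω → ℝ) : av (fun x => -f x) = -av f := by
  cases nonempty_fintype Ω; simp only [av_eq, expect_neg_distrib]

lemma av_const_mul (c : ℝ) (f : Ω → ℝ) : av (fun x => c * f x) = c * av f := by
  cases nonempty_fintype Ω; simp only [av_eq, mul_expect]

lemma av_mul_const (f : Ω → ℝ) (c : ℝ) : av (fun x => f x * c) = av f * c := by
  cases nonempty_fintype Ω; simp only [av_eq, expect_mul]

lemma av_div_const (f : Ω → ℝ) (c : ℝ) : av (fun x => f x / c) = av f / c := by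
  simp only [div_eq_mul_inv, av_mul_const]

lemma av_sum {ι : Type*} (s : Finset ι) (f : ι → Ω → ℝ) :
    av (fun x => ∑ i ∈ s, f i x) = ∑ i ∈ s, av (f i) := by
  cases nonempty_fintype Ω; simp only [av_eq]; exact expect_sum_comm _ _ _

@[simp] lemma av_const [Nonempty Ω] (c : ℝ) : av (fun _ : Ω => c) = c := by
  cases nonempty_fintype Ω; rw [av_eq, Fintype.expect_const]

lemma av_mono {f g : Ω → ℝ} (h : ∀ x, f x ≤ g x) : av f ≤ av g := by
  cases nonempty_fintype Ω; rw [av_eq, av_eq]; exact expect_le_expect fun x _ => h x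

lemma av_nonneg {f : Ω → ℝ} (h : ∀ x, 0 ≤ f x) : 0 ≤ av f := by
  simpa using av_mono (f := fun _ => 0) h

lemma av_le_const [Nonempty Ω] {f : Ω → ℝ} {c : ℝ} (h : ∀ x, f x ≤ c) : av f ≤ c := by
  simpa using av_mono (g := fun _ => c) h

lemma av_le_const' {f : Ω → ℝ} {c : ℝ} (hc : 0 ≤ c) (h : ∀ x, f x ≤ c) : av f ≤ c := by
  rcases isEmpty_or_nonempty Ω with _ | _
  · rwa [av_of_isEmpty]
  · exact av_le_const h

lemma const_le_av [Nonempty Ω] {f : Ω → ℝ} {c : ℝ} (h : ∀ x, c ≤ f x) : c ≤ av f := by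
  simpa using av_mono (f := fun _ => c) h

lemma abs_av_le (f : Ω → ℝ) : |av f| ≤ av fun x => |f x| := by
  cases nonempty_fintype Ω; rw [av_eq, av_eq]; exact abs_expect_le _ _

lemma abs_av_le_const {f : Ω → ℝ} {c : ℝ} (hc : 0 ≤ c) (h : ∀ x, |f x| ≤ c) : |av f| ≤ c :=
  (abs_av_le f).trans (av_le_const' hc h)

lemma abs_av_sub_le {f g : Ω → ℝ} {c : ℝ} (hc : 0 ≤ c) (h : ∀ x, |f x - g x| ≤ c) :
    |av f - av g| ≤ c := by
  rw [← av_sub]; exact abs_av_le_const hc h

lemma exists_le_of_le_av [Nonempty Ω] {f : Ω → ℝ} {c : ℝ} (h : c ≤ av f) : ∃ x, c ≤ f x := by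
  cases nonempty_fintype Ω
  rw [av_eq] at h
  simpa using exists_le_of_le_expect univ_nonempty h

lemma exists_le_of_av_le [Nonempty Ω] {f : Ω → ℝ} {c : ℝ} (h : av f ≤ c) : ∃ x, f x ≤ c := by
  cases nonempty_fintype Ω
  rw [av_eq] at h
  simpa using exists_le_of_expect_le univ_nonempty h

lemma exists_lt_of_av_lt_av {f g : Ω → ℝ} (h : av f < av g) : ∃ x, f x < g x := by
  by_contra hc
  push Not at hc
  exact absurd (av_mono hc) (not_le.2 h)

lemma av_prod (f : Ω × Ω' → ℝ) : av f = av fun a => av fun b => f (a, b) := by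
  cases nonempty_fintype Ω; cases nonempty_fintype Ω'
  simp only [av_eq]
  rw [← univ_product_univ, expect_product]

lemma av_comm (f : Ω → Ω' → ℝ) :
    (av fun a => av fun b => f a b) = av fun b => av fun a => f a b := by
  cases nonempty_fintype Ω; cases nonempty_fintype Ω'
  simp only [av_eq]; exact expect_comm _ _ _

lemma av_prod' (f : Ω × Ω' → ℝ) : av f = av fun b => av fun a => f (a, b) := by
  rw [av_prod, av_comm]

lemma av_fst [Nonempty Ω'] (f : Ω → ℝ) : av (fun p : Ω × Ω' => f p.1) = av f := by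
  rw [av_prod]; simp

lemma av_snd [Nonempty Ω] (f : Ω' → ℝ) : av (fun p : Ω × Ω' => f p.2) = av f := by
  rw [av_prod']; simp

lemma av_mul_av (f : Ω → ℝ) (g : Ω' → ℝ) : av f * av g = av fun p : Ω × Ω' => f p.1 * g p.2 := by
  rw [av_prod]; simp only [av_const_mul, av_mul_const]

/-- Cauchy-Schwarz. -/
lemma av_cs (f g : Ω → ℝ) :
    av (fun x => f x * g x) ^ 2 ≤ av (fun x => f x ^ 2) * av fun x => g x ^ 2 := by
  cases nonempty_fintype Ω; simp only [av_eq]; exact expect_mul_sq_le_sq_mul_sq _ _ _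

/-- Weighted Cauchy-Schwarz. -/
lemma av_cs_w {b w : Ω → ℝ} (h : ∀ x, |b x| ≤ w x) (f : Ω → ℝ) :
    av (fun x => b x * f x) ^ 2 ≤ av w * av fun x => w x * f x ^ 2 := by
  have w0 : ∀ x, 0 ≤ w x := fun x => (abs_nonneg _).trans (h x)
  have h1 := av_cs (fun x => √(w x)) fun x => √(w x) * |f x|
  simp only [mul_pow, Real.sq_sqrt (w0 _), sq_abs, ← mul_assoc, Real.mul_self_sqrt (w0 _)] at h1
  refine le_trans ?_ h1
  rw [← sq_abs]
  refine pow_le_pow_left₀ (abs_nonneg _) ((abs_av_le _).trans (av_mono fun x => ?_)) 2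
  rw [abs_mul]
  exact mul_le_mul_of_nonneg_right (h x) (abs_nonneg _)

lemma sq_av_le (f : Ω → ℝ) : av f ^ 2 ≤ av fun x => f x ^ 2 := by
  have := av_cs_w (b := fun _ : Ω => (1 : ℝ)) (w := fun _ => 1) (by simp) f
  simp only [one_mul] at this
  refine this.trans (mul_le_of_le_one_left (av_nonneg fun x => sq_nonneg _) ?_)
  exact av_le_const' zero_le_one fun _ => le_rfl

lemma av_ind_eq (a : Ω) (f : Ω → ℝ) : av (fun x => ind (x = a) * f x) = f a / Nat.card Ω := by
  cases nonempty_fintype Ω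
  simp [av_eq_sum, ind]

/-- Averaging along the fibres of a map all of whose fibres have the same density. -/
lemma av_comp_of_fibre {φ : Ω → Ω'} (h : ∀ y, pr (fun x => φ x = y) = 1 / Nat.card Ω')
    (f : Ω' → ℝ) : av (fun x => f (φ x)) = av f := by
  cases nonempty_fintype Ω'
  have : ∀ x, f (φ x) = ∑ y, f y * ind (φ x = y) := fun x => by simp [ind]
  simp only [this, av_sum, av_const_mul]
  simp only [pr] at h
  simp only [h, av_eq_sum f, Nat.card_eq_fintype_card, sum_div]
  exact sum_congr rfl fun y _ => by ring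

lemma av_add_left {G : Type*} [AddGroup G] (a : G) (f : G → ℝ) : av (fun x => f (a + x)) = av f :=
  av_equiv (Equiv.addLeft a) f

lemma av_add_right {G : Type*} [AddGroup G] (a : G) (f : G → ℝ) : av (fun x => f (x + a)) = av f :=
  av_equiv (Equiv.addRight a) f

/-- A surjective homomorphism of finite groups preserves averages. -/
lemma av_hom {G H : Type*} [AddGroup G] [AddGroup H] [Finite G] (φ : G →+ H)
    (hφ : Surjective φ) (f : H → ℝ) : av (fun x => f (φ x)) = av f := by
  have : Finite H := Finite.of_surjective φ hφ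
  choose s hs using hφ
  have h1 : ∀ y, av (fun x => f (φ x)) = av fun x => f (φ x + y) := fun y => by
    rw [← av_add_right (s y)]; simp [hs]
  calc av (fun x => f (φ x)) = av fun y => av fun x => f (φ x + y) := by simp [← h1]
    _ = av fun x => av fun y => f (φ x + y) := (av_comm _).symm
    _ = av f := by simp [av_add_left]

lemma av_update {ι : Type*} [DecidableEq ι] {A : ι → Type*} [Finite ι] [∀ i, Finite (A i)] (i : ι)
    (f : (∀ i, A i) → ℝ) : av f = av fun x => av fun t : A i => f (update x i t) := by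
  rcases isEmpty_or_nonempty (A i) with _ | _
  · have : IsEmpty (∀ i, A i) := ⟨fun x => IsEmpty.false (x i)⟩
    simp [av_of_isEmpty]
  let e : (∀ i, A i) × A i ≃ (∀ i, A i) × A i :=
    ⟨fun p => (update p.1 i p.2, p.1 i), fun p => (update p.1 i p.2, p.1 i),
      fun p => by simp, fun p => by simp⟩
  rw [← av_fst (Ω' := A i) f, ← av_equiv e, av_prod]
  rfl

lemma av_sum_arrow {ι ι' A : Type*} [Finite ι] [Finite ι'] [Finite A] (f : (ι ⊕ ι' → A) → ℝ) :
    av f = av fun x : ι → A => av fun y : ι' → A => f (Sum.elim x y) := by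
  rw [← av_equiv (Equiv.sumArrowEquivProdArrow ι ι' A).symm, av_prod]
  rfl

lemma av_option_arrow {ι A : Type*} [Finite ι] [Finite A] (f : (Option ι → A) → ℝ) :
    av f = av fun a : A => av fun x : ι → A => f fun o => o.elim a x := by
  rw [← av_equiv (Equiv.piOptionEquivProd (β := fun _ => A)).symm, av_prod]
  refine av_congr fun a => av_congr fun x => congrArg f ?_
  funext o; cases o <;> rfl

lemma av_arrow_congr {ι ι' A : Type*} (e : ι ≃ ι') (f : (ι → A) → ℝ) :
    av (fun x : ι' → A => f (x ∘ e)) = av f :=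
  av_equiv (Equiv.arrowCongr e.symm (Equiv.refl A)) f

lemma av_pi_prod {ι : Type*} [Fintype ι] {A : ι → Type*} [∀ i, Finite (A i)] (f : ∀ i, A i → ℝ) :
    av (fun x : ∀ i, A i => ∏ i, f i (x i)) = ∏ i, av (f i) := by
  have := fun i => Fintype.ofFinite (A i)
  simp only [av_eq_sum, prod_div_distrib, Fintype.card_pi, Nat.cast_prod, Fintype.prod_sum]

lemma av_eval {ι : Type*} [Finite ι] {A : Type*} [Finite A] [Nonempty A] (i : ι) (f : A → ℝ) :
    av (fun x : ι → A => f (x i)) = av f := by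
  rw [av_update i]; simp

lemma pr_nonneg (P : Ω → Prop) : 0 ≤ pr P := av_nonneg fun _ => ind_nonneg _

lemma pr_le_one (P : Ω → Prop) : pr P ≤ 1 := av_le_const' zero_le_one fun _ => ind_le_one _

lemma pr_mono {P Q : Ω → Prop} (h : ∀ x, P x → Q x) : pr P ≤ pr Q :=
  av_mono fun x => ind_mono (h x)

omit [Finite Ω] in
lemma pr_congr {P Q : Ω → Prop} (h : ∀ x, P x ↔ Q x) : pr P = pr Q :=
  av_congr fun x => ind_congr (h x)

lemma pr_of_forall [Nonempty Ω] {P : Ω → Prop} (h : ∀ x, P x) : pr P = 1 := by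
  simp [pr, ind_of (h _)]

omit [Finite Ω] in
lemma pr_of_forall_not {P : Ω → Prop} (h : ∀ x, ¬ P x) : pr P = 0 := by
  simp [pr, ind_of_not (h _)]

lemma pr_not [Nonempty Ω] (P : Ω → Prop) : pr (fun x => ¬ P x) = 1 - pr P := by
  simp [pr, ind_not, av_sub]

lemma pr_and_add (P Q : Ω → Prop) : pr (fun x => P x ∧ Q x) + pr (fun x => P x ∧ ¬ Q x) = pr P := by
  rw [pr, pr, ← av_add]
  exact av_congr fun x => by rw [ind_and, ind_and, ind_not]; ring

lemma pr_or_le (P Q : Ω → Prop) : pr (fun x => P x ∨ Q x) ≤ pr P + pr Q := by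
  rw [pr, pr, pr, ← av_add]; exact av_mono fun x => ind_or_le _ _

lemma pr_exists_le {ι : Type*} (s : Finset ι) (P : ι → Ω → Prop) :
    pr (fun x => ∃ i ∈ s, P i x) ≤ ∑ i ∈ s, pr (P i) := by
  simp only [pr]; rw [← av_sum]; exact av_mono fun x => ind_exists_le _ _

lemma pr_eq_single (a : Ω) : pr (fun x => x = a) = 1 / Nat.card Ω := by
  simpa [pr] using av_ind_eq a fun _ => 1

omit [Finite Ω] in
lemma pr_eq_card [Fintype Ω] (P : Ω → Prop) [DecidablePred P] :
    pr P = (univ.filter P).card / Fintype.card Ω := by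
  rw [pr, av_eq_sum, card_filter]
  push_cast
  congr 1
  exact sum_congr rfl fun x _ => by by_cases h : P x <;> simp [ind, h]

omit [Finite Ω] in
lemma exists_of_pr_pos {P : Ω → Prop} (h : 0 < pr P) : ∃ x, P x := by
  by_contra hc
  push Not at hc
  rw [pr_of_forall_not hc] at h
  exact lt_irrefl _ h

lemma exists_and_of_lt {P Q : Ω → Prop} (h : pr (fun x => ¬ P x) < pr Q) : ∃ x, P x ∧ Q x := by
  by_contra hc
  push Not at hc
  exact absurd (pr_mono fun x hq hp => hc x hp hq) (not_le.2 h)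

lemma pr_prod (P : Ω × Ω' → Prop) : pr P = av fun a => pr fun b => P (a, b) := av_prod _

lemma pr_comm (P : Ω → Ω' → Prop) : (av fun a => pr fun b => P a b) = av fun b => pr fun a => P a b :=
  av_comm _

/-- Markov's inequality. -/
lemma markov {f : Ω → ℝ} (h0 : ∀ x, 0 ≤ f x) {c : ℝ} (hc : 0 < c) :
    pr (fun x => c ≤ f x) ≤ av f / c := by
  rw [le_div_iff₀ hc, pr, ← av_mul_const]
  refine av_mono fun x => ?_
  by_cases h : c ≤ f x
  · rwa [ind_of h, one_mul]
  · rw [ind_of_not h, zero_mul]; exact h0 x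

/-- Reverse Markov inequality for a function bounded by one. -/
lemma markov_rev {f : Ω → ℝ} (h1 : ∀ x, f x ≤ 1) {c : ℝ} (hc : 0 ≤ c) :
    av f - c ≤ pr fun x => c ≤ f x := by
  have : av f ≤ av fun x => ind (c ≤ f x) + c := av_mono fun x => by
    by_cases h : c ≤ f x
    · rw [ind_of h]; linarith [h1 x]
    · rw [ind_of_not h]; linarith
  rw [av_add] at this
  have h2 : av (fun _ : Ω => c) ≤ c := av_le_const' hc fun _ => le_rfl
  rw [pr]; linarith

/-- Pigeonhole principle. -/
lemma pigeon {ι : Type*} [Finite ι] [Nonempty ι] {P : Ω → Prop} (Q : ι → Ω → Prop)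
    (h : ∀ x, P x → ∃ i, Q i x) : ∃ i, pr P / Nat.card ι ≤ pr (Q i) := by
  cases nonempty_fintype ι
  refine exists_le_of_le_av (f := fun i => pr (Q i)) ?_
  rw [av_eq_sum, Nat.card_eq_fintype_card]
  refine div_le_div_of_nonneg_right ?_ (Nat.cast_nonneg _)
  refine le_trans (pr_mono fun x hx => ?_) (pr_exists_le univ Q)
  simpa using h x hx

/-- Averaging over the image of an injective map. -/
lemma av_range [Nonempty Ω'] {e : Ω' → Ω} (he : Injective e) (f : Ω → ℝ) :
    av (fun x => f x * ind (x ∈ Set.range e)) = pr (· ∈ Set.range e) * av fun y => f (e y) := by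
  cases nonempty_fintype Ω; cases nonempty_fintype Ω'
  have key : ∀ g : Ω → ℝ, ∑ x, g x * ind (x ∈ Set.range e) = ∑ y, g (e y) := fun g => by
    rw [← sum_image (s := univ) (g := e) (f := g) fun a _ b _ h => he h,
      ← sum_filter_add_sum_filter_not univ (· ∈ Set.range e)]
    rw [sum_eq_zero (s := univ.filter fun x => ¬ x ∈ Set.range e) fun x hx => by
      rw [ind_of_not (mem_filter.1 hx).2, mul_zero], add_zero]
    refine sum_congr (by ext x; simp) fun x hx => ?_
    rw [ind_of (by simpa using hx), mul_one]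
  have k1 := key fun _ => 1
  simp only [one_mul, sum_const, card_univ, nsmul_eq_mul, mul_one] at k1
  have : (Fintype.card Ω' : ℝ) ≠ 0 := by simp
  rw [pr, av_eq_sum, av_eq_sum, av_eq_sum, key, k1]
  field_simp

end Pool.Agent.GT
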