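import Pool.Agent.GT.Sub

/-!
A weak form of the Graham-Rothschild theorem, and finite van der Waerden.
-/

open scoped BigOperators Classical
open Finset Function Combinatorics

noncomputable section

namespace Pool.Agent.GT

/-- The word obtained from a subspace by replacing the fixed new letters by y. -/
def DCanonSub {α ι ι' : Type} (V : Subspace ι (Option α) ι') (y : Option α) (u : ι → Option α) :
    ι' → Option α := fun i => (V.idxFun i).elim (fun o => o.elim y some) u

lemma DCanonSub_none {α ι ι' : Type} (V : Subspace ι (Option α) ι') (u : ι → Option α) :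
    DCanonSub V none u = V u := by
  funext i
  simp only [DCanonSub, Subspace.coe_apply]
  rcases V.idxFun i with (_ | b) | e <;> rfl

/-- The subspace built in the induction step. -/
def DCanonStep {α μ η ι ι' : Type} (V : Subspace ι (Option α) ι') (U : Subspace (μ ⊕ η) α ι) :
    Subspace (Option μ ⊕ η) α (Option ι') where
  idxFun o := o.elim (Sum.inr (Sum.inl none)) fun i =>
    (V.idxFun i).elim (fun o => o.elim (Sum.inr (Sum.inl none)) Sum.inl)
      fun e => (U.idxFun e).map id (Sum.map some id)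
  proper e := by
    rcases e with (_ | m) | h
    · exact ⟨none, rfl⟩
    · obtain ⟨j, hj⟩ := U.proper (Sum.inl m)
      obtain ⟨i, hi⟩ := V.proper j
      exact ⟨some i, by simp [hi, hj]⟩
    · obtain ⟨j, hj⟩ := U.proper (Sum.inr h)
      obtain ⟨i, hi⟩ := V.proper j
      exact ⟨some i, by simp [hi, hj]⟩

lemma DCanonStep_apply {α μ η ι ι' : Type} (V : Subspace ι (Option α) ι')
    (U : Subspace (μ ⊕ η) α ι) (z : Option μ ⊕ η → Option α) :
    slift (DCanonStep V U) z = fun o : Option ι' => o.elim (z (Sum.inl none))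
      (DCanonSub V (z (Sum.inl none)) (slift U (z ∘ Sum.map some id))) := by
  funext o
  rcases o with _ | i
  · rfl
  · simp only [Subspace.coe_apply, slift, DCanonStep, DCanonSub, Option.elim]
    rcases V.idxFun i with (_ | b) | e
    · rfl
    · rfl
    · simp only [Sum.elim_inr, Subspace.coe_apply]
      rcases U.idxFun e with b | e' <;> rfl

theorem canon (α : Type) [Finite α] (μ : Type) [Finite μ] (η : Type) [Finite η] (κ : Type)
    [Finite κ] : ∃ (ι : Type) (_ : Finite ι), ∀ c : (ι → Option α) → κ,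
      ∃ U : Subspace (μ ⊕ η) α ι, ∀ z z' : μ ⊕ η → Option α, (∃ i, z (Sum.inl i) = none) →
        (∀ i, z (Sum.inl i) = z' (Sum.inl i)) → c (slift U z) = c (slift U z') := by
  revert κ
  refine Finite.induction_empty_option (P := fun μ : Type => ∀ (κ : Type) [Finite κ],
    ∃ (ι : Type) (_ : Finite ι), ∀ c : (ι → Option α) → κ,
      ∃ U : Subspace (μ ⊕ η) α ι, ∀ z z' : μ ⊕ η → Option α, (∃ i, z (Sum.inl i) = none) →
        (∀ i, z (Sum.inl i) = z' (Sum.inl i)) → c (slift U z) = c (slift U z')) ?_ ?_ ?_ μ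
  · intro μ μ' e ih κ _
    obtain ⟨ι, hι, h⟩ := ih κ
    refine ⟨ι, hι, fun c => ?_⟩
    obtain ⟨U, hU⟩ := h c
    have key : ∀ z : μ' ⊕ η → Option α,
        slift (U.reindex (e.sumCongr (Equiv.refl η)) (Equiv.refl α) (Equiv.refl ι)) z
          = slift U (z ∘ Sum.map e id) := fun z => by
      funext i
      simp only [Subspace.coe_apply, slift, Subspace.reindex, Equiv.refl_symm, Equiv.refl_apply]
      rcases U.idxFun i with b | e' <;> rfl
    refine ⟨U.reindex (e.sumCongr (Equiv.refl η)) (Equiv.refl α) (Equiv.refl ι), ?_⟩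
    rintro z z' ⟨i, hi⟩ hz
    rw [key, key]
    exact hU _ _ ⟨e.symm i, by simpa using hi⟩ fun i => hz (e i)
  · intro κ _
    exact ⟨PEmpty ⊕ η, inferInstance, fun c => ⟨sid _ _, fun z z' ⟨i, _⟩ => i.elim⟩⟩
  · intro μ _ ih κ _
    obtain ⟨ι₁, _, h₁⟩ := ih (α → κ)
    obtain ⟨ι₂, _, h₂⟩ := Subspace.exists_mono_in_high_dimension (Option α) κ ι₁
    refine ⟨Option ι₂, inferInstance, fun c => ?_⟩
    obtain ⟨V, k, hV⟩ := h₂ fun v => c fun o => o.elim none v
    obtain ⟨U, hU⟩ := h₁ fun u a => c fun o => o.elim (some a) (DCanonSub V (some a) u)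
    refine ⟨DCanonStep V U, ?_⟩
    rintro z z' ⟨i, hi⟩ hz
    rw [DCanonStep_apply, DCanonStep_apply, ← hz none]
    rcases h0 : z (Sum.inl none) with _ | a
    · rw [DCanonSub_none, DCanonSub_none]
      exact (hV _).trans (hV _).symm
    · rcases i with _ | i
      · rw [h0] at hi; cases hi
      · exact congrFun (hU (z ∘ Sum.map some id) (z' ∘ Sum.map some id) ⟨i, hi⟩
          fun j => hz (some j)) a

/-- Finite van der Waerden theorem. -/
theorem vdw (κ : Type) [Finite κ] (k : ℕ) : ∃ K : ℕ, ∀ c : ℕ → κ, ∃ a e : ℕ, 0 < e ∧ e ≤ K ∧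
    a + k * e ≤ K ∧ ∀ j ≤ k, c (a + j * e) = c a := by
  obtain ⟨ι, _, hι⟩ := Line.exists_mono_in_high_dimension (Fin (k + 1)) κ
  refine ⟨(k + 1) * Fintype.card ι, fun c => ?_⟩
  obtain ⟨l, col, hl⟩ := hι fun v => c (∑ i, (v i : ℕ))
  have key : ∀ j : Fin (k + 1), ∑ i, ((l j i : Fin (k + 1)) : ℕ) =
      ∑ i, (l.idxFun i).elim 0 (fun x => (x : ℕ)) + j * ∑ i, (l.idxFun i).elim 1 fun _ => 0 := by
    intro j
    rw [mul_sum, ← sum_add_distrib]
    refine sum_congr rfl fun i _ => ?_
    rw [Line.coe_apply]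
    rcases l.idxFun i with _ | x <;> simp
  refine ⟨∑ i, (l.idxFun i).elim 0 (fun x => (x : ℕ)), ∑ i, (l.idxFun i).elim 1 fun _ => 0,
    ?_, ?_, ?_, fun j hj => ?_⟩
  · obtain ⟨i, hi⟩ := l.proper
    refine lt_of_lt_of_le ?_ (single_le_sum (f := fun i => (l.idxFun i).elim 1 fun _ => 0)
      (fun _ _ => Nat.zero_le _) (mem_univ i))
    simp [hi]
  · calc _ ≤ ∑ _i : ι, (k + 1) := sum_le_sum fun i _ => by rcases l.idxFun i with _ | x <;> simp
      _ = _ := by simp [mul_comm]
  · have := key (Fin.last k)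
    rw [Fin.val_last] at this
    rw [← this]
    calc _ ≤ ∑ _i : ι, (k + 1) := sum_le_sum fun i _ => (Fin.is_lt _).le
      _ = _ := by simp [mul_comm]
  · have h1 := hl ⟨j, Nat.lt_succ_of_le hj⟩
    have h0 := hl 0
    simp only [key] at h1 h0
    rw [h1, ← h0]
    simp

/-- Words that avoid the new letter are rare. -/
theorem few_words (α : Type) [Finite α] {ε : ℝ} (hε : 0 < ε) : ∃ L : ℕ, ∀ (μ η : Type) [Finite μ]
    [Finite η], pr (fun z : μ ⊕ (Fin L ⊕ η) → Option α => ∀ i, z i ≠ none) ≤ ε := by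
  have hq : pr (fun x : Option α => x ≠ none) < 1 := by
    rw [pr_not, pr_eq_single]
    have := card_pos_real (Option α)
    have : (0 : ℝ) < 1 / Nat.card (Option α) := by positivity
    linarith
  obtain ⟨L, hL⟩ := exists_pow_lt_of_lt_one hε hq
  refine ⟨L, fun μ η _ _ => ?_⟩
  refine le_trans (pr_mono (Q := fun z => ∀ i : Fin L, z (Sum.inr (Sum.inl i)) ≠ none)
    fun z h i => h _) ?_
  rw [pr, av_sum_arrow]
  refine av_le_const' hε.le fun x => ?_
  rw [av_sum_arrow]
  simp only [Sum.elim_inr, Sum.elim_inl, av_const]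
  have : ∀ y : Fin L → Option α, ind (∀ i, y i ≠ none) = ∏ i, ind (y i ≠ none) := fun y => by
    rw [← ind_forall]; simp
  simp only [this]
  rw [av_pi_prod (fun (_ : Fin L) (x : Option α) => ind (x ≠ none))]
  simpa [pr] using hL.le

end Pool.Agent.GT
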