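import Pool.Agent.GT.DLines

/-!
Correlation with an intersection of insensitive sets.
-/

open scoped BigOperators Classical
open Finset Function Combinatorics

noncomputable section

namespace Pool.Agent.GT

lemma dCorr_ins_iff {α ι : Type} {a : α} {C : (ι → Option α) → Prop} (h : Ins a C) (p : Prop) :
    Ins a fun z => (C z ↔ p) := fun z z' e hz =>
  ⟨fun hc => hz.1 (h z' z e.symm hc), fun hp => h z z' e (hz.2 hp)⟩

/-- In a set without lines, a word all of whose replacements lie in the set has no new letter. -/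
lemma dCorr_line {α ι : Type} {B : (ι → Option α) → Prop}
    (hB : ∀ l : Line (Option α) ι, ¬ ∀ a, B (l a)) {z : ι → Option α} (h0 : B z)
    (h1 : ∀ a, B (rp a z)) (i : ι) : z i ≠ none := by
  intro hi
  let l : Line (Option α) ι := ⟨fun j => (z j).map some, i, by simp [hi]⟩
  refine hB l fun a => ?_
  cases a with
  | none =>
    have e : (l : Option α → ι → Option α) none = z := by
      funext j
      simp only [Line.coe_apply, l]
      cases z j <;> rfl
    rwa [e]
  | some a =>
    have e : (l : Option α → ι → Option α) (some a) = rp a z := by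
      funext j
      simp only [Line.coe_apply, l, rp]
      cases z j <;> rfl
    rw [e]
    exact h1 a

/-- One of the atoms generated by the sets `C a` carries a share of the correlation. -/
lemma dCorr_atoms {α Ω : Type} [Finite α] [Finite Ω] (F : Ω → ℝ) (C : α → Ω → Prop) {c : ℝ}
    (hc : 0 < c) (h : c ≤ av F - av fun z => F z * ind (∀ a, C a z)) :
    ∃ s : α → Prop, c / Nat.card (α → Prop) ≤ av fun z => F z * ind (∀ a, (C a z ↔ s a)) := by
  cases nonempty_fintype (α → Prop)
  have hN := card_pos_real (α → Prop)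
  have key : ∀ z, F z - F z * ind (∀ a, C a z) =
      ∑ s : α → Prop, ind (¬ ∀ a, s a) * (F z * ind (∀ a, (C a z ↔ s a))) := fun z => by
    have e := sum_ind_eq (fun a => C a z) fun s : α → Prop => ind (¬ ∀ a, s a) * F z
    rw [ind_not] at e
    rw [show F z - F z * ind (∀ a, C a z) = (1 - ind (∀ a, C a z)) * F z by ring, ← e]
    refine sum_congr rfl fun s _ => ?_
    have : ind ((fun a => C a z) = s) = ind (∀ a, (C a z ↔ s a)) :=
      ind_congr ⟨fun e a => by rw [← e], fun e => funext fun a => propext (e a)⟩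
    rw [this]
    ring
  rw [← av_sub, av_congr key, av_sum] at h
  simp only [av_const_mul] at h
  obtain ⟨s, hs⟩ := exists_le_of_le_av (c := c / Nat.card (α → Prop))
    (f := fun s : α → Prop => ind (¬ ∀ a, s a) * av fun z => F z * ind (∀ a, (C a z ↔ s a))) (by
      rw [av_eq_sum, ← Nat.card_eq_fintype_card]
      exact div_le_div_of_nonneg_right h hN.le)
  refine ⟨s, ?_⟩
  by_cases hs' : ∀ a, s a
  · rw [ind_of_not (not_not.2 hs'), zero_mul] at hs
    exact absurd hs (not_le.2 (div_pos hc hN))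
  · rwa [ind_of hs', one_mul] at hs

/-- Correlation with an intersection of insensitive sets. -/
theorem correlate {α : Type} [Finite α] [Nonempty α] (h : DHJ α) {δ₀ : ℝ} (hδ : 0 < δ₀) :
    ∃ γ : ℝ, 0 < γ ∧ ∀ (η : Type) [Finite η], ∃ (μ : Type) (_ : Finite μ) (L : ℕ) (ι : Type)
      (_ : Finite ι), ∀ (δ : ℝ) (A : (ι → Option α) → Prop), δ₀ ≤ δ → δ ≤ pr A →
        (∀ l : Line (Option α) ι, ¬ ∀ a, A (l a)) →
        ∃ (W : Subspace (μ ⊕ (Fin L ⊕ η)) (Option α) ι)
          (D : α → (μ ⊕ (Fin L ⊕ η) → Option α) → Prop), (∀ a, Ins a (D a)) ∧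
          γ ≤ av fun z => (ind (A (W z)) - δ) * ind (∀ a, D a z) := by
  obtain ⟨θ, hθ, μ, hμ, H⟩ := lines_or h hδ
  obtain ⟨ε, hε, e1, e2, e3, e4⟩ :
      ∃ ε : ℝ, 0 < ε ∧ ε ≤ θ / 4 ∧ ε ≤ δ₀ * θ / 4 ∧ ε ≤ 1 ∧ ε ≤ δ₀ / 2 :=
    ⟨min (min (θ / 4) (δ₀ * θ / 4)) (min 1 (δ₀ / 2)), by positivity,
      (min_le_left _ _).trans (min_le_left _ _), (min_le_left _ _).trans (min_le_right _ _),
      (min_le_right _ _).trans (min_le_left _ _), (min_le_right _ _).trans (min_le_right _ _)⟩
  obtain ⟨L, hL⟩ := few_words α hε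
  have hN := card_pos_real (α → Prop)
  refine ⟨min (ε ^ 2) (δ₀ * θ / 2 / Nat.card (α → Prop)), by positivity, fun η _ => ?_⟩
  obtain ⟨ι, hι, H'⟩ := H ε hε (by linarith) (by nlinarith) (Fin L ⊕ η)
  refine ⟨μ, hμ, L, ι, hι, fun δ A h1 h2 hl => ?_⟩
  obtain ⟨W, hW⟩ := H' δ A h1 h2
  have hav : (av fun z => ind (A (W z)) - δ) = pr (fun z => A (W z)) - δ := by
    rw [av_sub, av_const, pr]
  rcases hW with hW | ⟨hW1, hW2⟩
  · refine ⟨W, fun _ _ => True, fun _ _ _ _ _ => trivial, (min_le_left _ _).trans ?_⟩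
    simp only [implies_true, ind_true, mul_one]
    rw [hav]
    linarith
  · have hB : ∀ l : Line (Option α) (μ ⊕ (Fin L ⊕ η)), ¬ ∀ a, A (W (l a)) := fun l hA =>
      hl (sline W l) fun a => by rw [sline_apply]; exact hA a
    have k1 : pr (fun z => A (W z) ∧ ∀ a, A (W (rp a z))) ≤ ε :=
      (pr_mono fun z hz => dCorr_line (B := fun z => A (W z)) hB hz.1 hz.2).trans (hL μ η)
    have k2 : (av fun z => (ind (A (W z)) - δ) * ind (∀ a, A (W (rp a z)))) =
        pr (fun z => A (W z) ∧ ∀ a, A (W (rp a z))) - δ * pr fun z => ∀ a, A (W (rp a z)) := by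
      rw [pr, pr, ← av_const_mul, ← av_sub]
      exact av_congr fun z => by rw [ind_and]; ring
    obtain ⟨s, hs⟩ := dCorr_atoms (fun z => ind (A (W z)) - δ) (fun a z => A (W (rp a z)))
      (c := δ₀ * θ / 2) (by positivity) (by
        rw [hav, k2]
        have : δ₀ * θ ≤ δ * pr fun z => ∀ a, A (W (rp a z)) :=
          mul_le_mul h1 hW2 hθ.le (hδ.le.trans h1)
        linarith)
    exact ⟨W, fun a z => (A (W (rp a z)) ↔ s a),
      fun a => dCorr_ins_iff (ins_rp a fun z => A (W z)) (s a), (min_le_right _ _).trans hs⟩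

end Pool.Agent.GT
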