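import Pool.Agent.GT.DSec
import Pool.Agent.GT.DCanon

/-!
Either a density increment or many lines of the smaller alphabet.
-/

open scoped BigOperators Classical
open Finset Function Combinatorics

noncomputable section

namespace Pool.Agent.GT

/-- Either some value is large, or some point has an almost average value of `d` and a large
value of `c`. -/
lemma dlines_pick {Y : Type} [Finite Y] [Nonempty Y] {d c : Y → ℝ} {δ ε θ : ℝ} (hε : 0 < ε)
    (hθ : 2 * ε < θ) (hd : δ - ε ^ 2 ≤ av d) (hc : 2 * θ ≤ av c) (hc₁ : ∀ y, c y ≤ 1) :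
    ∃ y, δ + ε ^ 2 ≤ d y ∨ (δ - ε ≤ d y ∧ θ ≤ c y) := by
  by_cases hy : ∃ y, δ + ε ^ 2 ≤ d y
  · exact hy.imp fun _ => Or.inl
  push Not at hy
  have m₁ := markov (f := fun y => δ + ε ^ 2 - d y) (fun y => by linarith [hy y]) hε
  have m₂ := markov_rev hc₁ (c := θ) (by linarith)
  rw [av_sub, av_const] at m₁
  have m₃ : (δ + ε ^ 2 - av d) / ε ≤ 2 * ε := by
    rw [div_le_iff₀ hε]
    linarith
  have m₄ : pr (fun y => ¬ δ - ε ≤ d y) ≤ pr fun y => ε ≤ δ + ε ^ 2 - d y :=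
    pr_mono fun y h => by
      have := sq_nonneg ε
      linarith [not_le.1 h]
  obtain ⟨y, h₁, h₂⟩ := exists_and_of_lt (P := fun y => δ - ε ≤ d y) (Q := fun y => θ ≤ c y)
    (by linarith)
  exact ⟨y, Or.inr ⟨h₁, h₂⟩⟩

theorem lines_or {α : Type} [Finite α] [Nonempty α] (h : DHJ α) {δ₀ : ℝ} (hδ : 0 < δ₀) :
    ∃ θ : ℝ, 0 < θ ∧ ∃ (μ : Type) (_ : Finite μ), ∀ ε : ℝ, 0 < ε → 2 * ε < θ → ε ^ 2 ≤ δ₀ / 2 →
      ∀ (η : Type) [Finite η], ∃ (ι : Type) (_ : Finite ι), ∀ (δ : ℝ) (A : (ι → Option α) → Prop),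
        δ₀ ≤ δ → δ ≤ pr A → ∃ W : Subspace (μ ⊕ η) (Option α) ι,
          δ + ε ^ 2 ≤ pr (fun z => A (W z)) ∨
            (δ - ε ≤ pr (fun z => A (W z)) ∧ θ ≤ pr fun z => ∀ a, A (W (rp a z))) := by
  obtain ⟨μ, hμ, hD⟩ := h (δ₀ / 4) (by positivity)
  have hL := card_pos_real (μ → Option α)
  set L : ℝ := (Nat.card (μ → Option α) : ℝ) with hLd
  refine ⟨δ₀ / 4 / L / L / 2, by positivity, μ, hμ, fun ε hε h₂ h₃ η _ => ?_⟩
  obtain ⟨G, hG, hc⟩ := canon α μ η Prop
  obtain ⟨ι, hι, Y, hY, hY', V, hV⟩ := sections (Option α) G (ε := ε ^ 2) (by positivity)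
  refine ⟨ι, hι, fun δ A hδ' hA => ?_⟩
  obtain ⟨U, hU⟩ := hc fun v => δ₀ / 4 / L ≤ pr fun y => ∀ a, A (V y (rp a v))
  obtain ⟨a₀⟩ := ‹Nonempty α›
  let B : Y → (μ → α) → Prop := fun y x => A (V y fun i => some (U (Sum.elim x fun _ => a₀) i))
  have s₁ : δ₀ / 2 ≤ av fun y => pr fun x => B y x := by
    rw [pr_comm]
    refine const_le_av fun x => ?_
    have := hV A fun i => some (U (Sum.elim x fun _ => a₀) i)
    linarith
  have s₂ : δ₀ / 4 ≤ pr fun y => δ₀ / 4 ≤ pr fun x => B y x := by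
    have := markov_rev (f := fun y => pr fun x => B y x) (fun y => pr_le_one _) (c := δ₀ / 4)
      (by positivity)
    linarith
  obtain ⟨w, hw⟩ := pigeon (ι := μ → Option α) (P := fun y => δ₀ / 4 ≤ pr fun x => B y x)
    (fun w y => (∃ i, w i = none) ∧ ∀ a, B y fun i => (w i).getD a) fun y hy => by
      obtain ⟨l, hl⟩ := hD (B y) hy
      exact ⟨l.idxFun, l.proper, hl⟩
  replace hw := (div_le_div_of_nonneg_right s₂ hL.le).trans hw
  obtain ⟨-, hw₁, -⟩ := exists_of_pr_pos (lt_of_lt_of_le (by positivity) hw)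
  have hz : ∀ y' : η → Option α,
      δ₀ / 4 / L ≤ pr fun y => ∀ a, A (V y (rp a (slift U (Sum.elim w y')))) := fun y' => by
    rw [← hU (Sum.elim w fun _ => some a₀) (Sum.elim w y') hw₁ fun _ => rfl]
    refine hw.trans (pr_mono fun y hy a => ?_)
    have : rp a (Sum.elim w fun _ : η => some a₀) =
        fun e => some (Sum.elim (fun i => (w i).getD a) (fun _ => a₀) e) := by
      funext e
      cases e <;> rfl
    rw [← slift_rp, this, slift_some]
    exact hy.2 a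
  have hcc : 2 * (δ₀ / 4 / L / L / 2) ≤
      av fun y => pr fun z => ∀ a, A (scomp (V y) (slift U) (rp a z)) := by
    rw [pr_comm, av_sum_arrow, show 2 * (δ₀ / 4 / L / L / 2) = δ₀ / 4 / L / L by ring, hLd,
      ← av_ind_eq w fun _ => δ₀ / 4 / (Nat.card (μ → Option α) : ℝ)]
    refine av_mono fun x => ?_
    by_cases hx : x = w
    · rw [ind_of hx, one_mul, hx]
      refine const_le_av fun y' => ?_
      simpa only [scomp_apply, slift_rp] using hz y'
    · rw [ind_of_not hx, zero_mul]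
      exact av_nonneg fun _ => pr_nonneg _
  have hd : δ - ε ^ 2 ≤ av fun y => pr fun z => A (scomp (V y) (slift U) z) := by
    rw [pr_comm]
    refine const_le_av fun z => ?_
    have := hV A (slift U z)
    simp only [scomp_apply]
    linarith
  obtain ⟨y, hy⟩ := dlines_pick hε h₂ hd hcc fun _ => pr_le_one _
  exact ⟨_, hy⟩

end Pool.Agent.GT
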