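import Pool.Agent.GT.DTile

/-!
Tiling intersections of insensitive sets.
-/

open scoped BigOperators Classical
open Finset Function Combinatorics

noncomputable section

namespace Pool.Agent.GT

lemma DTile2_finset {α : Type} [Finite α] [Nonempty α] (h : DHJ α) (η : Type) [Finite η]
    (s : Finset α) : ∀ {β : ℝ}, 0 < β → ∃ (ι : Type) (_ : Finite ι),
      ∀ D : α → (ι → Option α) → Prop, (∀ a, Ins a (D a)) →
        Tiled η β fun z => ∀ a ∈ s, D a z := by
  induction s using Finset.induction_on with
  | empty =>
    intro β hβ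
    refine ⟨η, inferInstance, fun D _ F ρ _ _ hT => ?_⟩
    have := hT (sid _ _) (by simp)
    simp only [sid_apply] at this
    simp only [notMem_empty, false_implies, implies_true, ind_true, mul_one]
    linarith
  | insert a s _ ih =>
    intro β hβ
    obtain ⟨η1, _, h1⟩ := ih (half_pos hβ)
    obtain ⟨ι, _, h2⟩ := tile_one h η1 (half_pos hβ)
    refine ⟨ι, inferInstance, fun D hD F ρ hF hρ hT => ?_⟩
    have := h2 a (D a) (hD a) (fun z => F z * ind (∀ b ∈ s, D b z)) (ρ + β / 2)
      (fun z => (mul_le_of_le_one_left (ind_nonneg _) (hF z)).trans (ind_le_one _))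
      (by linarith) fun T1 hT1 =>
        h1 (fun b z => D b (T1 z)) (fun b => (hD b).sub T1) (fun z => F (T1 z)) ρ
          (fun z => hF _) hρ fun T0 hT0 => by
            simpa only [scomp_apply] using hT (scomp T1 T0) fun x => by
              rw [scomp_apply]
              exact (forall_mem_insert a s _).2 ⟨hT1 _, hT0 x⟩
    refine le_trans (le_of_eq (av_congr fun z => ?_)) (this.trans (by linarith))
    rw [ind_congr (forall_mem_insert a s _), ind_and]; ring

theorem tile_all {α : Type} [Finite α] [Nonempty α] (h : DHJ α) (η : Type) [Finite η] {β : ℝ}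
    (hβ : 0 < β) : ∃ (ι : Type) (_ : Finite ι), ∀ D : α → (ι → Option α) → Prop,
      (∀ a, Ins a (D a)) → Tiled η β fun z => ∀ a, D a z := by
  cases nonempty_fintype α
  simpa only [mem_univ, true_implies] using DTile2_finset h η univ hβ

/-- The property of the index type in `tile_all` passes to larger index types. -/
theorem tile_mono {α η ι : Type} [Finite α] [Finite η] [Finite ι] {β : ℝ}
    (h : ∀ D : α → (ι → Option α) → Prop, (∀ a, Ins a (D a)) → Tiled η β fun z => ∀ a, D a z)
    (μ : Type) [Finite μ] (D : α → (μ ⊕ ι → Option α) → Prop) (hD : ∀ a, Ins a (D a)) :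
    Tiled η β fun z => ∀ a, D a z := by
  intro F ρ hF hρ hT
  rw [av_sum_arrow]
  refine av_le_const fun x => ?_
  exact h (fun a y => D a (Sum.elim x y))
    (fun a y y' e => hD a _ _ (by rw [rp_elim, rp_elim, e])) (fun y => F (Sum.elim x y)) ρ
    (fun _ => hF _) hρ fun T hT' => by
      simpa only [sright_apply] using hT (sright x T) fun w => by
        rw [sright_apply]; exact hT' w

end Pool.Agent.GT
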