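import Pool.Agent.GT.DCorr
import Pool.Agent.GT.DTile2

/-!
The density Hales-Jewett theorem and the weighted Szemeredi theorem in finite abelian groups.
-/

open scoped BigOperators Classical
open Finset Function Combinatorics

noncomputable section

namespace Pool.Agent.GT

/-- The density Hales-Jewett property at one density. -/
def DMainGood (β : Type) (δ : ℝ) : Prop :=
  ∃ (ι : Type) (_ : Finite ι), ∀ A : (ι → β) → Prop, δ ≤ pr A → ∃ l : Line β ι, ∀ a, A (l a)

lemma dMain_mono {β : Type} {δ δ' : ℝ} (h : DMainGood β δ) (hle : δ ≤ δ') : DMainGood β δ' := by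
  obtain ⟨ι, hι, H⟩ := h
  exact ⟨ι, hι, fun A hA => H A (hle.trans hA)⟩

lemma dMain_big {β : Type} [Finite β] {δ : ℝ} (h : 1 < δ) : DMainGood β δ :=
  ⟨Unit, inferInstance, fun A hA => absurd (hA.trans (pr_le_one A)) (not_le.2 h)⟩

/-- The density increment. -/
lemma dMain_incr {α : Type} [Finite α] [Nonempty α] (h : DHJ α) {δ₀ : ℝ} (hδ : 0 < δ₀) :
    ∃ γ : ℝ, 0 < γ ∧ ∀ δ, δ₀ ≤ δ → DMainGood (Option α) (δ + γ) → DMainGood (Option α) δ := by
  obtain ⟨γ, hγ, H⟩ := correlate h hδ
  refine ⟨γ / 2, by positivity, fun δ h1 hG => ?_⟩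
  obtain ⟨η, hη, hG⟩ := hG
  obtain ⟨κ, hκ, hT⟩ := tile_all h η (β := γ / 4) (by positivity)
  obtain ⟨μ, hμ, L, ι, hι, H'⟩ := H κ
  refine ⟨ι, hι, fun A hA => ?_⟩
  by_contra hc
  obtain ⟨W, D, hD, hcor⟩ := H' δ A h1 hA fun l hl => hc ⟨l, hl⟩
  have hT' := tile_mono (tile_mono hT (Fin L)) μ D hD
  have k := hT' (fun z => ind (A (W z)) - (δ + γ / 2)) 0
    (fun z => by linarith [ind_le_one (A (W z))]) le_rfl fun T _ => by
      by_contra hlt
      rw [av_sub, av_const] at hlt
      obtain ⟨l, hl⟩ := hG (fun x => A (W (T x))) (by rw [pr]; linarith)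
      exact hc ⟨sline (scomp W T) l, fun a => by rw [sline_apply, scomp_apply]; exact hl a⟩
  have e : (av fun z => (ind (A (W z)) - (δ + γ / 2)) * ind (∀ a, D a z)) =
      (av fun z => (ind (A (W z)) - δ) * ind (∀ a, D a z)) - γ / 2 * pr fun z => ∀ a, D a z := by
    rw [pr, ← av_const_mul, ← av_sub]
    exact av_congr fun z => by ring
  have k2 : γ / 2 * (pr fun z => ∀ a, D a z) ≤ γ / 2 :=
    mul_le_of_le_one_right (by positivity) (pr_le_one _)
  rw [e] at k
  linarith

theorem dhj_step {α : Type} [Finite α] [Nonempty α] (h : DHJ α) : DHJ (Option α) := by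
  intro δ₀ hδ
  obtain ⟨γ, hγ, H⟩ := dMain_incr h hδ
  have key : ∀ j : ℕ, DMainGood (Option α) (max δ₀ (2 - j * γ)) := by
    intro j
    induction j with
    | zero => exact dMain_big (lt_max_of_lt_right (by norm_num))
    | succ j ih =>
      refine H _ (le_max_left _ _) (dMain_mono ih (max_le ?_ ?_))
      · linarith [le_max_left δ₀ (2 - ((j + 1 : ℕ) : ℝ) * γ)]
      · have := le_max_right δ₀ (2 - ((j + 1 : ℕ) : ℝ) * γ)
        push_cast at this ⊢
        linarith
  obtain ⟨j, hj⟩ := exists_nat_ge (2 / γ)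
  rw [div_le_iff₀ hγ] at hj
  exact dMain_mono (key j) (max_le le_rfl (by linarith))

lemma dMain_equiv {α β : Type} (e : α ≃ β) (h : DHJ α) : DHJ β := by
  intro δ hδ
  obtain ⟨ι, hι, H⟩ := h δ hδ
  refine ⟨ι, hι, fun A hA => ?_⟩
  have e1 : pr (fun x : ι → α => A (e ∘ x)) = pr A :=
    av_equiv (Equiv.arrowCongr (Equiv.refl ι) e) fun y => ind (A y)
  obtain ⟨l, hl⟩ := H (fun x => A (e ∘ x)) (e1 ▸ hA)
  refine ⟨l.map e, fun b => ?_⟩
  have := hl (e.symm b)
  rwa [← Line.map_apply, e.apply_symm_apply] at this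

lemma dMain_subsingleton {β : Type} [Subsingleton β] : DHJ β := by
  intro δ hδ
  refine ⟨Unit, inferInstance, fun A hA => ?_⟩
  obtain ⟨x, hx⟩ := exists_of_pr_pos (hδ.trans_le hA)
  exact ⟨Line.diagonal β Unit, fun a => by rwa [Subsingleton.elim (Line.diagonal β Unit a) x]⟩

theorem dhj (α : Type) [Finite α] : DHJ α := by
  refine Finite.induction_empty_option (P := DHJ) dMain_equiv dMain_subsingleton ?_ α
  intro β _ h
  rcases isEmpty_or_nonempty β with _ | _
  · have : Subsingleton (Option β) := ⟨fun a b => by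
      cases a with
      | some a => exact isEmptyElim a
      | none =>
        cases b with
        | some b => exact isEmptyElim b
        | none => rfl⟩
    exact dMain_subsingleton
  · exact dhj_step h

end Pool.Agent.GT
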