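import Pool.Agent.GT.DSec1

/-!
Multidimensional density Hales-Jewett, uniform sections.
-/

open scoped BigOperators Classical
open Finset Function Combinatorics

noncomputable section

namespace Pool.Agent.GT

/-- Product of a line pattern with a subspace. -/
def dsecV {α η ι₀ ι₁ : Type} (f : ι₀ → Option α) (hf : ∃ i, f i = none) (V : Subspace η α ι₁) :
    Subspace (Option η) α (ι₀ ⊕ ι₁) where
  idxFun := Sum.elim (fun i => (f i).elim (Sum.inr none) Sum.inl)
    fun j => (V.idxFun j).map id some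
  proper e := by
    cases e with
    | none =>
      obtain ⟨i, hi⟩ := hf
      exact ⟨Sum.inl i, by simp [hi]⟩
    | some e =>
      obtain ⟨j, hj⟩ := V.proper e
      exact ⟨Sum.inr j, by simp [hj]⟩

lemma dsecV_apply {α η ι₀ ι₁ : Type} (f : ι₀ → Option α) (hf : ∃ i, f i = none)
    (V : Subspace η α ι₁) (x : Option η → α) :
    dsecV f hf V x = Sum.elim (fun i => (f i).getD (x none)) (V fun e => x (some e)) := by
  funext i
  cases i with
  | inl i =>
    simp only [Subspace.coe_apply, dsecV, Sum.elim_inl]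
    cases f i <;> rfl
  | inr j =>
    simp only [Subspace.coe_apply, dsecV, Sum.elim_inr]
    cases V.idxFun j <;> rfl

/-- Multidimensional DHJ. -/
theorem mdhj {α : Type} [Finite α] (h : DHJ α) (η : Type) [Finite η] {δ : ℝ} (hδ : 0 < δ) :
    ∃ (ι : Type) (_ : Finite ι), ∀ A : (ι → α) → Prop, δ ≤ pr A →
      ∃ V : Subspace η α ι, ∀ x, A (V x) := by
  revert δ
  refine Finite.induction_empty_option (P := fun η => ∀ {δ : ℝ}, 0 < δ →
    ∃ (ι : Type) (_ : Finite ι), ∀ A : (ι → α) → Prop, δ ≤ pr A →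
      ∃ V : Subspace η α ι, ∀ x, A (V x)) ?_ ?_ ?_ η
  · intro η η' e ih δ hδ
    obtain ⟨ι, hι, H⟩ := ih hδ
    refine ⟨ι, hι, fun A hA => ?_⟩
    obtain ⟨V, hV⟩ := H A hA
    refine ⟨V.reindex e (Equiv.refl _) (Equiv.refl _), fun x => ?_⟩
    have h1 : (V.reindex e (Equiv.refl _) (Equiv.refl _) : (η' → α) → ι → α) x = V (x ∘ e) := by
      funext i
      rw [Subspace.reindex_apply]
      rfl
    rw [h1]
    exact hV _
  · intro δ hδ
    refine ⟨PEmpty, inferInstance, fun A hA => ?_⟩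
    obtain ⟨z, hz⟩ := exists_of_pr_pos (hδ.trans_le hA)
    exact ⟨⟨fun i => Sum.inl (z i), fun e => e.elim⟩, fun _ => hz⟩
  · intro η _ ih δ hδ
    obtain ⟨ι₀, h₀, H₀⟩ := h (δ / 2) (half_pos hδ)
    have hL := card_pos_real (ι₀ → Option α)
    have hδ' : 0 < δ / 2 / Nat.card (ι₀ → Option α) := div_pos (half_pos hδ) hL
    obtain ⟨ι₁, h₁, H₁⟩ := ih hδ'
    refine ⟨ι₀ ⊕ ι₁, inferInstance, fun A hA => ?_⟩
    have h1 : pr A = av fun y : ι₁ → α => pr fun x : ι₀ → α => A (Sum.elim x y) := by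
      rw [pr, av_sum_arrow, av_comm]
      rfl
    have h2 := markov_rev (f := fun y : ι₁ → α => pr fun x : ι₀ → α => A (Sum.elim x y))
      (fun _ => pr_le_one _) (half_pos hδ).le
    obtain ⟨f, hf⟩ := pigeon
      (P := fun y : ι₁ → α => δ / 2 ≤ pr fun x : ι₀ → α => A (Sum.elim x y))
      (fun (f : ι₀ → Option α) (y : ι₁ → α) =>
        (∃ i, f i = none) ∧ ∀ a, A (Sum.elim (fun i => (f i).getD a) y)) fun y hy => by
        obtain ⟨l, hl⟩ := H₀ _ hy
        exact ⟨l.idxFun, l.proper, hl⟩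
    have h3 : δ / 2 / Nat.card (ι₀ → Option α) ≤ pr fun y : ι₁ → α =>
        (∃ i, f i = none) ∧ ∀ a, A (Sum.elim (fun i => (f i).getD a) y) :=
      le_trans (div_le_div_of_nonneg_right (by linarith) hL.le) hf
    obtain ⟨_, hn, _⟩ := exists_of_pr_pos (hδ'.trans_le h3)
    obtain ⟨V, hV⟩ := H₁ _ h3
    refine ⟨dsecV f hn V, fun x => ?_⟩
    rw [dsecV_apply]
    exact (hV _).2 _

theorem mdhj_star {α : Type} [Finite α] [Nonempty α] (h : DHJ α) (η : Type) [Finite η] {δ : ℝ}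
    (hδ : 0 < δ) : ∃ (ι : Type) (_ : Finite ι), ∀ A : (ι → Option α) → Prop, δ ≤ pr A →
      ∃ V : Subspace η (Option α) ι, ∀ x : η → α, A (V fun e => some (x e)) := by
  obtain ⟨η₁, h₁, H₁⟩ := mdhj h η (half_pos hδ)
  obtain ⟨ι, hι, Y, hY, hY', V, H⟩ := sections (Option α) η₁ (half_pos hδ)
  refine ⟨ι, hι, fun A hA => ?_⟩
  have h1 : δ / 2 ≤ av fun x : η₁ → α => pr fun y => A (V y fun e => some (x e)) :=
    const_le_av fun x => le_trans (by linarith) (H A _)
  rw [pr_comm] at h1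
  obtain ⟨y, hy⟩ := exists_le_of_le_av h1
  obtain ⟨U, hU⟩ := H₁ _ hy
  refine ⟨scomp (V y) (slift U), fun x => ?_⟩
  rw [scomp_apply, slift_some]
  exact hU x

end Pool.Agent.GT
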