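import Pool.Agent.GT.Sub

/-!
Uniform sections.
-/

open scoped BigOperators Classical
open Finset Function Combinatorics

noncomputable section

namespace Pool.Agent.GT

section aux

variable {Γ : Type} [Finite Γ] [Nonempty Γ]

/-- The centred normalised indicator of a point. -/
def dsec1Z (x a : Γ) : ℝ := ind (a = x) * Nat.card Γ - 1

lemma dsec1_av_Z (x : Γ) : av (dsec1Z x) = 0 := by
  have h := card_pos_real Γ
  have h1 := av_ind_eq x fun _ => (Nat.card Γ : ℝ)
  have h2 : av (dsec1Z x) = av (fun a => ind (a = x) * (Nat.card Γ : ℝ)) - av fun _ : Γ => (1 : ℝ) :=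
    av_sub _ _
  rw [h2, h1, av_const, div_self h.ne', sub_self]

lemma dsec1_av_Z_sq (x : Γ) : av (fun a => dsec1Z x a * dsec1Z x a) ≤ Nat.card Γ := by
  have h := card_pos_real Γ
  have h1 := av_ind_eq x fun _ => ((Nat.card Γ : ℝ) * (Nat.card Γ - 2))
  have h2 : av (fun a => dsec1Z x a * dsec1Z x a) =
      av (fun a => ind (a = x) * ((Nat.card Γ : ℝ) * (Nat.card Γ - 2))) + av fun _ : Γ => (1 : ℝ) := by
    rw [← av_add]
    refine av_congr fun a => ?_
    by_cases ha : a = x
    · simp only [dsec1Z, ind_of ha]; ring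
    · simp only [dsec1Z, ind_of_not ha]; ring
  rw [h2, h1, av_const, mul_div_cancel_left₀ _ h.ne']
  linarith

variable {τ : Type} [Finite τ] [Nonempty τ]

omit [Nonempty τ] in
lemma dsec1_update (F : (τ → Γ) → ℝ) (x : Γ) (t : τ) :
    av (fun w => F (update w t x)) - av F = av fun w => F w * dsec1Z x (w t) := by
  have h := card_pos_real Γ
  have h1 : av (fun w : τ → Γ => F w * (ind (w t = x) * Nat.card Γ)) =
      av fun w => F (update w t x) := by
    rw [av_update t]
    refine av_congr fun w => ?_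
    have h2 := av_ind_eq x fun a => F (update w t a) * (Nat.card Γ : ℝ)
    rw [mul_div_cancel_right₀ _ h.ne'] at h2
    rw [← h2]
    refine av_congr fun a => ?_
    rw [update_self]; ring
  rw [← h1, ← av_sub]
  exact av_congr fun w => by simp only [dsec1Z]; ring

omit [Nonempty τ] in
lemma dsec1_corr (x : Γ) (t s : τ) :
    av (fun w : τ → Γ => dsec1Z x (w t) * dsec1Z x (w s)) ≤ ind (s = t) * Nat.card Γ := by
  by_cases h : s = t
  · rw [ind_of h, one_mul, h, av_eval t fun a => dsec1Z x a * dsec1Z x a]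
    exact dsec1_av_Z_sq x
  · rw [ind_of_not h, zero_mul, av_update t]
    refine le_of_eq ((av_congr fun w => ?_).trans av_zero)
    have h1 : ∀ a, dsec1Z x (update w t a t) * dsec1Z x (update w t a s) =
        dsec1Z x a * dsec1Z x (w s) := fun a => by rw [update_self, update_of_ne h]
    rw [av_congr h1, av_mul_const, dsec1_av_Z, zero_mul]

lemma dsec1_var (x : Γ) :
    av (fun w : τ → Γ => (av fun t => dsec1Z x (w t)) ^ 2) ≤ Nat.card Γ / Nat.card τ := by
  have h1 : ∀ w : τ → Γ, (av fun t => dsec1Z x (w t)) ^ 2 =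
      av fun t => av fun s => dsec1Z x (w t) * dsec1Z x (w s) := fun w => by
    rw [sq, av_mul_av, av_prod]
  rw [av_congr h1, av_comm]
  refine av_le_const fun t => ?_
  rw [av_comm, ← av_ind_eq t fun _ => (Nat.card Γ : ℝ)]
  exact av_mono fun s => dsec1_corr x t s

lemma dsec1_key (F : (τ → Γ) → ℝ) (hF : ∀ w, F w ^ 2 ≤ 1) (x : Γ) {ε : ℝ} (hε : 0 < ε)
    (h : (Nat.card Γ : ℝ) / Nat.card τ ≤ ε ^ 2) :
    av F - ε ≤ av fun t => av fun w => F (update w t x) := by
  have h1 : (av fun t => av fun w => F (update w t x)) - av F =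
      av fun w => F w * av fun t => dsec1Z x (w t) := by
    have h2 : ∀ w : τ → Γ, F w * (av fun t => dsec1Z x (w t)) =
        av fun t => F w * dsec1Z x (w t) := fun w => (av_const_mul _ _).symm
    rw [av_congr h2, av_comm (fun (w : τ → Γ) (t : τ) => F w * dsec1Z x (w t)),
      ← av_congr fun t => dsec1_update F x t, av_sub, av_const]
  have h2 := av_cs F fun w => av fun t => dsec1Z x (w t)
  have h3 : av (fun w => F w ^ 2) ≤ 1 := av_le_const hF
  have h4 := dsec1_var (τ := τ) x
  have h5 : 0 ≤ av fun w : τ → Γ => (av fun t => dsec1Z x (w t)) ^ 2 :=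
    av_nonneg fun _ => sq_nonneg _
  rw [← h1] at h2
  have h6 : ((av fun t => av fun w => F (update w t x)) - av F) ^ 2 ≤ ε ^ 2 :=
    h2.trans ((mul_le_of_le_one_left h5 h3).trans (h4.trans h))
  have h7 := (abs_le_of_sq_le_sq' h6 hε.le).1
  linarith

end aux

/-- The subspace with free block t and the other blocks frozen. -/
def dsec1V {β η τ : Type} (y : τ × (τ → η → β)) : Subspace η β (τ × η) where
  idxFun p := if p.1 = y.1 then Sum.inr p.2 else Sum.inl (y.2 p.1 p.2)
  proper e := ⟨(y.1, e), if_pos rfl⟩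

lemma dsec1V_apply {β η τ : Type} (t : τ) (w : τ → η → β) (x : η → β) :
    dsec1V (t, w) x = uncurry (update w t x) := by
  funext p
  by_cases h : p.1 = t
  · simp [Subspace.coe_apply, dsec1V, uncurry, h]
  · simp [Subspace.coe_apply, dsec1V, uncurry, h]

/-- A family of subspaces whose x-th point is almost uniformly distributed, for every x. -/
theorem sections (β : Type) [Finite β] [Nonempty β] (η : Type) [Finite η] {ε : ℝ} (hε : 0 < ε) :
    ∃ (ι : Type) (_ : Finite ι) (Y : Type) (_ : Finite Y) (_ : Nonempty Y)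
      (V : Y → Subspace η β ι), ∀ (A : (ι → β) → Prop) (x : η → β),
        pr A - ε ≤ pr fun y => A (V y x) := by
  obtain ⟨T, hT⟩ := exists_nat_ge ((Nat.card (η → β) : ℝ) / ε ^ 2)
  refine ⟨Fin (T + 1) × η, inferInstance, Fin (T + 1) × (Fin (T + 1) → η → β), inferInstance,
    inferInstance, dsec1V, fun A x => ?_⟩
  have h1 : (Nat.card (η → β) : ℝ) / Nat.card (Fin (T + 1)) ≤ ε ^ 2 := by
    rw [div_le_iff₀ (pow_pos hε 2)] at hT
    rw [div_le_iff₀ (card_pos_real _), Nat.card_eq_fintype_card (α := Fin (T + 1)),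
      Fintype.card_fin]
    push_cast
    nlinarith [pow_pos hε 2]
  have h2 := dsec1_key (fun w : Fin (T + 1) → η → β => ind (A (uncurry w)))
    (fun w => by rw [sq, ind_mul_self]; exact ind_le_one _) x hε h1
  have h3 : pr A = av fun w : Fin (T + 1) → η → β => ind (A (uncurry w)) :=
    (av_equiv (Equiv.curry (Fin (T + 1)) η β).symm fun z => ind (A z)).symm
  rw [h3, pr_prod]
  refine h2.trans (le_of_eq (av_congr fun t => av_congr fun w => ?_))
  simp only [dsec1V_apply]

end Pool.Agent.GT
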