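import Pool.Agent.GT.DSec

/-!
Tiling insensitive sets by subspaces.
-/

open scoped BigOperators Classical
open Finset Function Combinatorics

noncomputable section

namespace Pool.Agent.GT

/-- The points of a chosen subspace inside `S`. -/
def DTileR (η : Type) {α M : Type} (S : (M → Option α) → Prop) (z : M → Option α) : Prop :=
  ∃ h : ∃ V : Subspace η (Option α) M, ∀ w, S (V w),
    z ∈ Set.range (h.choose : (η → Option α) → M → Option α)

lemma DTileR_imp {η α M : Type} {S : (M → Option α) → Prop} {z : M → Option α}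
    (h : DTileR η S z) : S z := by
  obtain ⟨h, w, rfl⟩ := h
  exact h.choose_spec w

lemma DTileR_av {η α M : Type} [Finite η] [Finite α] [Finite M] (S : (M → Option α) → Prop)
    (F : (M → Option α) → ℝ) {ρ : ℝ}
    (hT : ∀ V : Subspace η (Option α) M, (∀ w, S (V w)) → av (fun w => F (V w)) ≤ ρ) :
    av (fun z => F z * ind (DTileR η S z)) ≤ ρ * pr (DTileR η S) := by
  by_cases h : ∃ V : Subspace η (Option α) M, ∀ w, S (V w)
  · have e : DTileR η S = fun z =>
        z ∈ Set.range (h.choose : (η → Option α) → M → Option α) := by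
      funext z; exact propext ⟨fun ⟨_, hz⟩ => hz, fun hz => ⟨h, hz⟩⟩
    rw [e, av_range (sub_injective _), mul_comm]
    exact mul_le_mul_of_nonneg_right (hT _ h.choose_spec) (pr_nonneg _)
  · have e : ∀ z, ¬ DTileR η S z := fun z ⟨h', _⟩ => h h'
    simp only [ind_of_not (e _), mul_zero, av_zero, pr_of_forall_not e, le_refl]

lemma DTileR_pr {η α M : Type} [Finite α] [Finite M] {S : (M → Option α) → Prop}
    (h : ∃ V : Subspace η (Option α) M, ∀ w, S (V w)) :
    1 / (Nat.card (M → Option α) : ℝ) ≤ pr (DTileR η S) := by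
  rw [← pr_eq_single (h.choose fun _ => none)]
  exact pr_mono fun z hz => ⟨h, _, hz.symm⟩

lemma DTile_step {α η M : Type} [Finite α] [Finite η] [Finite M] {β : ℝ} (hβ : 0 < β)
    (hM : ∀ (a : α) (S : (M → Option α) → Prop), Ins a S → β / 2 ≤ pr S →
      ∃ V : Subspace η (Option α) M, ∀ w, S (V w)) (t : ℕ) :
    ∃ (ι : Type) (_ : Finite ι), ∀ (Y : Type) [Finite Y] (a : α)
      (D : (ι → Option α) → Y → Prop), (∀ y, Ins a fun z => D z y) →
      ∀ (F : (ι → Option α) → Y → ℝ) (ρ : ℝ), (∀ z y, F z y ≤ 1) → 0 ≤ ρ →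
      (∀ y (T : Subspace η (Option α) ι), (∀ w, D (T w) y) → av (fun w => F (T w) y) ≤ ρ) →
      (av fun y => av fun z => F z y * ind (D z y)) ≤
        ρ * (av fun y => pr fun z => D z y) +
          max β ((av fun y => pr fun z => D z y) -
            t * (β / 2 * (1 / Nat.card (M → Option α)))) := by
  have triv : ∀ (ι : Type) [Finite ι] (Y : Type) [Finite Y] (D : (ι → Option α) → Y → Prop)
      (F : (ι → Option α) → Y → ℝ), (∀ z y, F z y ≤ 1) →
      (av fun y => av fun z => F z y * ind (D z y)) ≤ av fun y => pr fun z => D z y :=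
    fun ι _ Y _ D F hF => av_mono fun y => av_mono fun z =>
      mul_le_of_le_one_left (ind_nonneg _) (hF z y)
  induction t with
  | zero =>
    refine ⟨Empty, inferInstance, fun Y _ a D _ F ρ hF hρ _ => ?_⟩
    have h1 := triv Empty Y D F hF
    have h2 : 0 ≤ ρ * av fun y => pr fun z => D z y :=
      mul_nonneg hρ (av_nonneg fun y => pr_nonneg _)
    have h3 := le_max_right β ((av fun y => pr fun z => D z y) -
      ((0 : ℕ) : ℝ) * (β / 2 * (1 / Nat.card (M → Option α))))
    simp only [Nat.cast_zero, zero_mul, sub_zero] at h3 ⊢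
    linarith
  | succ t ih =>
    obtain ⟨ι, _, ih⟩ := ih
    refine ⟨ι ⊕ M, inferInstance, fun Y _ a D hD F ρ hF hρ hT => ?_⟩
    set κ : ℝ := β / 2 * (1 / Nat.card (M → Option α)) with hκ
    set P : ℝ := av fun y => pr fun z => D z y with hP
    have hP0 : 0 ≤ ρ * P := mul_nonneg hρ (av_nonneg fun y => pr_nonneg _)
    by_cases hPβ : P ≤ β
    · have h1 := triv _ Y D F hF
      have h3 := le_max_left β (P - ((t + 1 : ℕ) : ℝ) * κ)
      linarith
    let S : (ι → Option α) → Y → (M → Option α) → Prop := fun x y z => D (Sum.elim x z) y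
    have hSi : ∀ x y, Ins a (S x y) := fun x y z z' e =>
      hD y _ _ (by rw [rp_elim, rp_elim, e])
    have hSx : ∀ x x' y, rp a x = rp a x' → S x y = S x' y := fun x x' y e => by
      funext z
      exact propext ⟨hD y _ _ (by rw [rp_elim, rp_elim, e]),
        hD y _ _ (by rw [rp_elim, rp_elim, e])⟩
    have hIH := ih (Y × (M → Option α)) a
      (fun x p => S x p.1 p.2 ∧ ¬ DTileR η (S x p.1) p.2)
      (fun p x x' e h => by beta_reduce; rw [← hSx x x' p.1 e]; exact h)
      (fun x p => F (Sum.elim x p.2) p.1) ρ (fun _ _ => hF _ _) hρ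
      (fun p T hTp => by
        simpa only [sleft_apply] using hT p.1 (sleft T p.2)
          (fun w => by rw [sleft_apply]; exact (hTp w).1))
    set PR : ℝ := av fun y => av fun x => pr (DTileR η (S x y)) with hPR
    have eP : (av fun p : Y × (M → Option α) =>
        pr fun x => S x p.1 p.2 ∧ ¬ DTileR η (S x p.1) p.2) = P - PR := by
      rw [av_prod, hP, hPR, ← av_sub]
      refine av_congr fun y => ?_
      rw [pr_comm, pr, av_sum_arrow, ← av_sub]
      refine av_congr fun x => ?_
      have := pr_and_add (S x y) (DTileR η (S x y))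
      rw [pr_congr (Q := DTileR η (S x y)) fun z => ⟨fun h => h.2, fun h => ⟨DTileR_imp h, h⟩⟩]
        at this
      change _ = pr (S x y) - _
      linarith
    have eL : (av fun y => av fun z => F z y * ind (D z y)) =
        (av fun y => av fun x => av fun z => F (Sum.elim x z) y * ind (DTileR η (S x y) z)) +
        av fun p : Y × (M → Option α) => av fun x => F (Sum.elim x p.2) p.1 *
          ind (S x p.1 p.2 ∧ ¬ DTileR η (S x p.1) p.2) := by
      rw [av_prod, ← av_add]
      refine av_congr fun y => ?_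
      rw [av_sum_arrow, av_comm (fun z x => F (Sum.elim x z) y *
        ind (S x y z ∧ ¬ DTileR η (S x y) z)), ← av_add]
      refine av_congr fun x => ?_
      rw [← av_add]
      refine av_congr fun z => ?_
      by_cases h : DTileR η (S x y) z
      · rw [ind_of h, ind_of (DTileR_imp h), ind_of_not fun h' => h'.2 h]; ring
      · rw [ind_of_not h, ind_congr (and_iff_left h)]; ring
    have hA : (av fun y => av fun x => av fun z =>
        F (Sum.elim x z) y * ind (DTileR η (S x y) z)) ≤ ρ * PR := by
      rw [hPR, ← av_const_mul]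
      refine av_mono fun y => ?_
      rw [← av_const_mul]
      refine av_mono fun x => DTileR_av _ _ fun V hV => ?_
      simpa only [sright_apply] using hT y (sright x V) (fun w => by
        rw [sright_apply]; exact hV w)
    have hκR : κ ≤ PR := by
      have e1 : P = av fun p : Y × (ι → Option α) => pr (S p.2 p.1) := by
        rw [av_prod, hP]
        exact av_congr fun y => av_sum_arrow _
      have e2 : PR = av fun p : Y × (ι → Option α) => pr (DTileR η (S p.2 p.1)) := by
        rw [av_prod]
      have h1 := markov_rev (f := fun p : Y × (ι → Option α) => pr (S p.2 p.1))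
        (fun p => pr_le_one _) (half_pos hβ).le
      have hc : (0 : ℝ) ≤ 1 / Nat.card (M → Option α) := by positivity
      have h2 : pr (fun p : Y × (ι → Option α) => β / 2 ≤ pr (S p.2 p.1)) *
          (1 / Nat.card (M → Option α)) ≤ PR := by
        rw [e2, pr, ← av_mul_const]
        refine av_mono fun p => ?_
        by_cases h : β / 2 ≤ pr (S p.2 p.1)
        · rw [ind_of h, one_mul]; exact DTileR_pr (hM a _ (hSi _ _) h)
        · rw [ind_of_not h, zero_mul]; exact pr_nonneg _
      refine le_trans (mul_le_mul_of_nonneg_right ?_ hc) h2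
      rw [← e1] at h1
      linarith [not_le.1 hPβ]
    rw [eP] at hIH
    have h4 : max β (P - PR - t * κ) ≤ max β (P - ((t + 1 : ℕ) : ℝ) * κ) :=
      max_le_max le_rfl (by push_cast; linarith)
    rw [eL]
    nlinarith

theorem tile_one {α : Type} [Finite α] [Nonempty α] (h : DHJ α) (η : Type) [Finite η] {β : ℝ}
    (hβ : 0 < β) : ∃ (ι : Type) (_ : Finite ι), ∀ (a : α) (D : (ι → Option α) → Prop), Ins a D →
      Tiled η β D := by
  obtain ⟨M, _, hM⟩ := mdhj_star h η (half_pos hβ)
  have hκ : 0 < β / 2 * (1 / (Nat.card (M → Option α) : ℝ)) := by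
    have := card_pos_real (M → Option α)
    positivity
  obtain ⟨t, ht⟩ := exists_nat_ge (1 / (β / 2 * (1 / (Nat.card (M → Option α) : ℝ))))
  rw [div_le_iff₀ hκ] at ht
  obtain ⟨ι, _, hι⟩ := DTile_step (η := η) (M := M) hβ (fun a S hS hp => by
    obtain ⟨V, hV⟩ := hM S hp
    exact ⟨V, fun w => hS _ _ (rp_sub_rp V a w) (hV fun e => (w e).getD a)⟩) t
  refine ⟨ι, inferInstance, fun a D hD F ρ hF hρ hT => ?_⟩
  have := hι Unit a (fun z _ => D z) (fun _ => hD) (fun z _ => F z) ρ (fun z _ => hF z) hρ
    fun _ => hT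
  simp only [av_const] at this
  have h1 := pr_le_one D
  have h2 := max_le (le_refl β) (show pr D - t * (β / 2 * (1 / (Nat.card (M → Option α) : ℝ))) ≤ β
    by linarith)
  have h3 := mul_le_of_le_one_right hρ h1
  exact this.trans (add_le_add h3 h2)

end Pool.Agent.GT
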