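import Pool.Agent.GT.DMain

/-!
The weighted Szemeredi theorem in finite abelian groups.
-/

open scoped BigOperators Classical
open Finset Function Combinatorics

noncomputable section

namespace Pool.Agent.GT

/-- The homomorphism sending (x, d) to x + sum of c_i d_i. -/
def dvarnPt {ι G : Type} [Fintype ι] [AddCommGroup G] (c : ι → ℕ) : G × (ι → G) →+ G where
  toFun p := p.1 + ∑ i, c i • p.2 i
  map_zero' := by simp
  map_add' p q := by
    simp only [Prod.fst_add, Prod.snd_add, Pi.add_apply, smul_add, sum_add_distrib]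
    abel

lemma dvarnPt_apply {ι G : Type} [Fintype ι] [AddCommGroup G] (c : ι → ℕ) (p : G × (ι → G)) :
    dvarnPt c p = p.1 + ∑ i, c i • p.2 i := rfl

lemma dvarnPt_surj {ι G : Type} [Fintype ι] [AddCommGroup G] (c : ι → ℕ) :
    Surjective (dvarnPt (G := G) c) := fun x => ⟨(x, 0), by simp [dvarnPt_apply]⟩

/-- The homomorphism sending (x, d) to the sum of c_i d_i. -/
def dvarnDir {ι G : Type} [Fintype ι] [AddCommGroup G] (c : ι → ℕ) : G × (ι → G) →+ G where
  toFun p := ∑ i, c i • p.2 i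
  map_zero' := by simp
  map_add' p q := by
    simp only [Prod.snd_add, Pi.add_apply, smul_add, sum_add_distrib]

lemma dvarnDir_apply {ι G : Type} [Fintype ι] [AddCommGroup G] (c : ι → ℕ) (p : G × (ι → G)) :
    dvarnDir c p = ∑ i, c i • p.2 i := rfl

lemma dvarn_line {ι G : Type} [Fintype ι] [AddCommGroup G] [Finite G] {k : ℕ}
    (l : Line (Fin k) ι) : ∃ φ : G × (ι → G) →+ G × G, Surjective φ ∧
      ∀ p (a : Fin k), dvarnPt (fun i => (l a i : ℕ)) p = (φ p).1 + (a : ℕ) • (φ p).2 := by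
  refine ⟨(dvarnPt fun i => (l.idxFun i).elim 0 fun b => (b : ℕ)).prod
    (dvarnDir fun i => (l.idxFun i).elim 1 fun _ => 0), ?_, ?_⟩
  · rintro ⟨x, d⟩
    obtain ⟨i0, hi0⟩ := l.proper
    refine ⟨(x, Pi.single i0 d), ?_⟩
    simp only [AddMonoidHom.prod_apply, dvarnPt_apply, dvarnDir_apply, Prod.mk.injEq]
    constructor
    · rw [sum_eq_single i0]
      · simp [hi0]
      · intro b _ hb; simp [Pi.single_eq_of_ne hb]
      · simp
    · rw [sum_eq_single i0]
      · simp [hi0]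
      · intro b _ hb; simp [Pi.single_eq_of_ne hb]
      · simp
  · intro p a
    simp only [AddMonoidHom.prod_apply, dvarnPt_apply, dvarnDir_apply, smul_sum, add_assoc,
      ← sum_add_distrib]
    congr 1
    refine sum_congr rfl fun i _ => ?_
    rw [Line.coe_apply]
    cases l.idxFun i <;> simp

theorem varnavides (k : ℕ) {δ : ℝ} (hδ : 0 < δ) : ∃ c : ℝ, 0 < c ∧
    ∀ (G : Type) [AddCommGroup G] [Finite G] (f : G → ℝ), (∀ x, 0 ≤ f x) → (∀ x, f x ≤ 1) →
      δ ≤ av f → c ≤ av fun p : G × G => ∏ j : Fin k, f (p.1 + (j : ℕ) • p.2) := by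
  rcases Nat.eq_zero_or_pos k with rfl | hk
  · exact ⟨1, one_pos, fun G _ _ f _ _ _ => by simp⟩
  have : Nonempty (Fin k) := ⟨⟨0, hk⟩⟩
  obtain ⟨ι, _, H⟩ := dhj (Fin k) (δ / 4) (by positivity)
  cases nonempty_fintype ι
  have hN := card_pos_real (ι → Option (Fin k))
  refine ⟨(δ / 2) ^ k * (δ / 4 / Nat.card (ι → Option (Fin k))), by positivity, ?_⟩
  intro G _ _ f h0 h1 hf
  have hS : δ / 2 ≤ pr fun x => δ / 2 ≤ f x := by
    have := markov_rev h1 (c := δ / 2) (by positivity)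
    linarith
  have h2 : (av fun p : G × (ι → G) => pr fun w : ι → Fin k =>
      δ / 2 ≤ f (dvarnPt (fun i => (w i : ℕ)) p)) = pr fun x => δ / 2 ≤ f x := by
    rw [pr_comm]
    have : ∀ w : ι → Fin k, (pr fun p : G × (ι → G) => δ / 2 ≤ f (dvarnPt (fun i => (w i : ℕ)) p))
        = pr fun x => δ / 2 ≤ f x := fun w => by
      unfold pr
      exact av_hom (dvarnPt (G := G) fun i => (w i : ℕ)) (dvarnPt_surj _)
        fun x => ind (δ / 2 ≤ f x)
    simp only [this, av_const]
  have h3 := markov_rev (f := fun p : G × (ι → G) => pr fun w : ι → Fin k =>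
      δ / 2 ≤ f (dvarnPt (fun i => (w i : ℕ)) p)) (fun p => pr_le_one _) (c := δ / 4)
      (by positivity)
  rw [h2] at h3
  obtain ⟨i, hi⟩ := pigeon (P := fun p : G × (ι → G) => δ / 4 ≤ pr fun w : ι → Fin k =>
      δ / 2 ≤ f (dvarnPt (fun i => (w i : ℕ)) p))
    (fun (i : ι → Option (Fin k)) p => ∃ l : Line (Fin k) ι, l.idxFun = i ∧
      ∀ a, δ / 2 ≤ f (dvarnPt (fun i => (l a i : ℕ)) p)) fun p hp => by
    obtain ⟨l, hl⟩ := H _ hp
    exact ⟨l.idxFun, l, rfl, hl⟩
  have h4 : δ / 4 / Nat.card (ι → Option (Fin k)) ≤ _ :=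
    le_trans (div_le_div_of_nonneg_right (by linarith) hN.le) hi
  obtain ⟨p0, l, hl, -⟩ := exists_of_pr_pos (lt_of_lt_of_le (by positivity) h4)
  obtain ⟨φ, hφ, hφ'⟩ := dvarn_line (G := G) l
  rw [← av_hom φ hφ]
  refine le_trans (mul_le_mul_of_nonneg_left h4 (by positivity)) ?_
  rw [pr, ← av_const_mul]
  refine av_mono fun p => ?_
  by_cases hp : ∃ l : Line (Fin k) ι, l.idxFun = i ∧
      ∀ a, δ / 2 ≤ f (dvarnPt (fun i => (l a i : ℕ)) p)
  · rw [ind_of hp, mul_one]
    obtain ⟨l', hl', h⟩ := hp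
    have e : l' = l := by
      cases l; cases l'; simp only at hl hl'; subst hl; subst hl'; rfl
    subst e
    calc (δ / 2) ^ k = ∏ _j : Fin k, (δ / 2) := by
          rw [prod_const, card_univ, Fintype.card_fin]
      _ ≤ _ := prod_le_prod (fun _ _ => by positivity) fun j _ => by rw [← hφ']; exact h j
  · rw [ind_of_not hp, mul_zero]
    exact prod_nonneg fun j _ => h0 _

end Pool.Agent.GT
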