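import Pool.Agent.GT.Maj

/-!
Pigeonhole lemmas for upper density.
-/

open scoped BigOperators Classical
open Finset Function

noncomputable section

namespace Pool.Agent.GT

theorem UDens.pigeon {𝒬 : Set ℕ} (h : UDens 𝒬) {κ : Type} [Finite κ] (c : ℕ → κ) :
    ∃ t, UDens {q ∈ 𝒬 | c q = t} := by
  have := Fintype.ofFinite κ
  have : Nonempty κ := ⟨c 0⟩
  obtain ⟨δ, hδ, h⟩ := h
  have k0 : (0 : ℝ) < Fintype.card κ := by exact_mod_cast Fintype.card_pos
  by_contra hc
  have h2 : ∀ t, ∀ᶠ X : ℕ in Filter.atTop,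
      (({q ∈ 𝒬 | c q = t} ∩ Set.Iic X).ncard : ℝ) < δ / Fintype.card κ * X / Real.log X :=
    fun t => by
      by_contra h3
      exact hc ⟨t, δ / Fintype.card κ, by positivity,
        (Filter.not_eventually.1 h3).mono fun X hX => not_lt.1 hX⟩
  obtain ⟨X, h3, h4⟩ := (h.and_eventually (Filter.eventually_all.2 h2)).exists
  have e : 𝒬 ∩ Set.Iic X = ⋃ t, {q ∈ 𝒬 | c q = t} ∩ Set.Iic X := by
    ext q; simp
  have a := Set.ncard_iUnion_le_of_fintype fun t => {q ∈ 𝒬 | c q = t} ∩ Set.Iic X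
  rw [← e] at a
  have b := Finset.sum_lt_sum_of_nonempty univ_nonempty fun t _ => h4 t
  rw [sum_const, card_univ, nsmul_eq_mul, ← Nat.cast_sum] at b
  have d : (Fintype.card κ : ℝ) * (δ / Fintype.card κ * X / Real.log X) = δ * X / Real.log X := by
    field_simp
  have := (Nat.cast_le (α := ℝ)).2 a
  linarith

theorem UDens.remove {𝒬 : Set ℕ} (h : UDens 𝒬) (B : ℕ) : UDens {q ∈ 𝒬 | B < q} := by
  obtain ⟨δ, hδ, h⟩ := h
  refine ⟨δ / 2, by positivity, ?_⟩
  have t := ((Real.tendsto_pow_log_div_mul_add_atTop 1 0 1 one_ne_zero).comp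
    tendsto_natCast_atTop_atTop).eventually
    (gt_mem_nhds (show (0 : ℝ) < δ / 2 / (B + 1) by positivity))
  refine (h.and_eventually (t.and (Filter.eventually_ge_atTop 2))).mono fun X ⟨h1, h2, h3⟩ => ?_
  have X2 : (2 : ℝ) ≤ X := by exact_mod_cast h3
  have l0 : 0 < Real.log X := Real.log_pos (by linarith)
  simp only [comp, pow_one, one_mul, add_zero] at h2
  rw [div_lt_div_iff₀ (by linarith) (by positivity)] at h2
  have a : (B : ℝ) + 1 ≤ δ / 2 * X / Real.log X := by rw [le_div_iff₀ l0]; linarith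
  have b : (𝒬 ∩ Set.Iic X).ncard ≤ ({q ∈ 𝒬 | B < q} ∩ Set.Iic X).ncard + (B + 1) := by
    have e : (Set.Iic B).ncard = B + 1 := by
      rw [← Finset.coe_Iic, Set.ncard_coe_finset, Nat.card_Iic]
    rw [← e]
    refine le_trans (Set.ncard_le_ncard (fun q hq => ?_)
      (((Set.finite_Iic X).inter_of_right _).union (Set.finite_Iic B))) (Set.ncard_union_le _ _)
    rcases le_or_gt q B with c | c
    · exact Or.inr c
    · exact Or.inl ⟨⟨hq.1, c⟩, hq.2⟩
  have := (Nat.cast_le (α := ℝ)).2 b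
  push_cast at this
  have e : δ * X / Real.log X = 2 * (δ / 2 * X / Real.log X) := by ring
  linarith

/-- A reduced residue class that carries its share of a finite set of numbers prime to W. -/
theorem exists_class {W : ℕ} (hW : 0 < W) (s : Finset ℕ) (hs : ∀ q ∈ s, Nat.Coprime q W) :
    ∃ b < W, (#s : ℝ) ≤ W.totient * #(s.filter fun q => q % W = b) := by
  have ne : ((range W).filter fun a => W.Coprime a).Nonempty := by
    rw [← card_pos, ← Nat.totient_eq_card_coprime]; exact Nat.totient_pos.2 hW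
  obtain ⟨b, hb, hm⟩ := exists_max_image _ (fun b => #(s.filter fun q => q % W = b)) ne
  refine ⟨b, mem_range.1 (mem_filter.1 hb).1, ?_⟩
  have e := card_eq_sum_card_fiberwise (f := fun q => q % W) (s := s)
    (t := (range W).filter fun a => W.Coprime a) fun q hq => by
      simp only [coe_filter, mem_range, Set.mem_ofPred_eq]
      refine ⟨Nat.mod_lt _ hW, ?_⟩
      rw [Nat.Coprime, Nat.gcd_comm, ← Nat.gcd_rec]
      exact (hs q hq).symm
  have := sum_le_card_nsmul _ _ _ hm
  rw [← e, ← Nat.totient_eq_card_coprime, smul_eq_mul] at this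
  exact_mod_cast this

/-- A progression in Z/NZ inside the first half of the representatives is a progression. -/
theorem unwrap {N k : ℕ} [NeZero N] (a d : ZMod N) (hd : d ≠ 0) (hk : 2 ≤ k)
    (h : ∀ j < k, 2 * (a + j • d).val < N) :
    ∃ x e : ℕ, 0 < e ∧ ∀ j < k, ∃ j' < k, x + j * e = (a + j' • d).val := by
  set v : ℕ → ℕ := fun j => (a + j • d).val with hv
  have step : ∀ j, j + 2 < k → v j + v (j + 2) = 2 * v (j + 1) := fun j hj => by
    have h0 := h j (by omega)
    have h1 := h (j + 1) (by omega)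
    have h2 := h (j + 2) hj
    have e : ((v j + v (j + 2) : ℕ) : ZMod N) = ((2 * v (j + 1) : ℕ) : ZMod N) := by
      simp only [hv, Nat.cast_add, Nat.cast_mul, ZMod.natCast_val, ZMod.cast_id', id_eq,
        nsmul_eq_mul]
      push_cast; ring
    rw [ZMod.natCast_eq_natCast_iff'] at e
    rwa [Nat.mod_eq_of_lt (by simp only [hv]; omega), Nat.mod_eq_of_lt h1] at e
  have lin : ∀ j, j + 1 < k → (v j : ℤ) = v 0 + j * ((v 1 : ℤ) - v 0) ∧
      (v (j + 1) : ℤ) = v 0 + (j + 1) * ((v 1 : ℤ) - v 0) := fun j => by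
    induction j with
    | zero => intro _; simp
    | succ j ih =>
      intro hj
      obtain ⟨a1, a2⟩ := ih (by omega)
      have a3 : (v j : ℤ) + v (j + 2) = 2 * v (j + 1) := by exact_mod_cast step j hj
      push_cast
      exact ⟨a2, by linear_combination a3 + 2 * a2 - a1⟩
  have lin2 : ∀ j < k, (v j : ℤ) = v 0 + j * ((v 1 : ℤ) - v 0) := fun j hj => by
    rcases j with _ | j
    · simp
    · exact_mod_cast (lin j hj).2
  have ne : v 1 ≠ v 0 := fun e => hd (by simpa [hv] using ZMod.val_injective N e)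
  rcases lt_or_gt_of_ne ne with c | c
  · refine ⟨v (k - 1), v 0 - v 1, by omega, fun j hj => ⟨k - 1 - j, by omega, ?_⟩⟩
    have a1 := lin2 (k - 1) (by omega)
    have a2 := lin2 (k - 1 - j) (by omega)
    rw [Nat.cast_sub (by omega : j ≤ k - 1)] at a2
    zify [c.le]
    linear_combination a1 - a2
  · refine ⟨v 0, v 1 - v 0, by omega, fun j hj => ⟨j, hj, ?_⟩⟩
    have a1 := lin2 j hj
    zify [c.le]
    linear_combination -a1

end Pool.Agent.GT
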