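import Pool.Agent.GT.Maj

/-!
Lower bound for the normalising sum.
-/

open scoped BigOperators Classical
open Finset Function

noncomputable section

namespace Pool.Agent.GT

/-- The reciprocal as a monoid homomorphism. -/
def MLogInv : ℕ →* ℝ where
  toFun n := (n : ℝ)⁻¹
  map_one' := by simp
  map_mul' m n := by simp [mul_comm]

/-- A finite sum of reciprocals of numbers whose primes lie in `s`. -/
lemma MLog_sum_le (s : Finset ℕ) (hs : ∀ p ∈ s, p.Prime) (T : Finset ℕ)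
    (hT : ∀ m ∈ T, m ∈ Nat.factoredNumbers s) :
    ∑ m ∈ T, (m : ℝ)⁻¹ ≤ ∏ p ∈ s, (1 - (p : ℝ)⁻¹)⁻¹ := by
  have h := (EulerProduct.summable_and_hasSum_factoredNumbers_prod_filter_prime_geometric
    (f := MLogInv) (fun {p} hp => by
      change ‖(p : ℝ)⁻¹‖ < 1
      rw [Real.norm_of_nonneg (by positivity)]
      exact inv_lt_one_of_one_lt₀ (by exact_mod_cast hp.one_lt)) s).2
  rw [filter_true_of_mem hs] at h
  have h2 := sum_le_hasSum (T.subtype (· ∈ Nat.factoredNumbers s))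
    (fun m _ => (by positivity : (0 : ℝ) ≤ ((m : ℕ) : ℝ)⁻¹)) h
  change ∑ m ∈ T.subtype (· ∈ Nat.factoredNumbers s), ((m : ℕ) : ℝ)⁻¹ ≤ _ at h2
  rw [sum_subtype_eq_sum_filter (f := fun m : ℕ => (m : ℝ)⁻¹), filter_true_of_mem hT] at h2
  exact h2

/-- The numbers up to R with a given set of primes above w. -/
lemma MLog_fibre {w R : ℕ} (S : Finset (PP w R)) :
    ∑ n ∈ (Icc 1 R).filter (fun n => univ.filter (fun p : PP w R => (p : ℕ) ∣ n) = S),
      (n : ℝ)⁻¹ ≤ (∏ p ∈ Nat.primesLE w, (1 - (p : ℝ)⁻¹)⁻¹) *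
        ∏ p ∈ S, 1 / (((p : ℕ) : ℝ) - 1) := by
  have hp : ∀ p : PP w R, (p : ℕ).Prime := fun p => (mem_filter.1 p.2).2
  have hw : ∀ p : PP w R, w < (p : ℕ) := fun p => (mem_Ioc.1 (mem_filter.1 p.2).1).1
  set F := (Icc 1 R).filter (fun n => univ.filter (fun p : PP w R => (p : ℕ) ∣ n) = S) with hF
  set S' : Finset ℕ := S.map (Embedding.subtype _) with hS'
  set d : ℕ := ∏ p ∈ S, (p : ℕ) with hd
  have hd' : d = ∏ p ∈ S', p := by rw [hS', prod_map]; rfl
  have hS'p : ∀ p ∈ S', p.Prime := fun p h => by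
    obtain ⟨q, _, rfl⟩ := mem_map.1 h
    exact hp q
  have hd0 : 0 < d := prod_pos fun p _ => (hp p).pos
  have hdvd : ∀ n ∈ F, d ∣ n := fun n hn => by
    obtain ⟨h1, h2⟩ := mem_filter.1 hn
    have hn0 : n ≠ 0 := by have := (mem_Icc.1 h1).1; omega
    rw [hd']
    refine (prod_dvd_prod_of_subset _ _ _ fun p h => ?_).trans (Nat.prod_primeFactors_dvd n)
    obtain ⟨q, hq, rfl⟩ := mem_map.1 h
    rw [← h2] at hq
    exact Nat.mem_primeFactors.2 ⟨hp q, (mem_filter.1 hq).2, hn0⟩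
  have hdisj : Disjoint (Nat.primesLE w) S' := by
    rw [disjoint_right]
    intro p h h'
    obtain ⟨q, _, rfl⟩ := mem_map.1 h
    exact absurd (Nat.le_of_mem_primesLE h') (not_le.2 (hw q))
  have key := MLog_sum_le (Nat.primesLE w ∪ S') (fun p h => by
      rcases mem_union.1 h with h | h
      · exact Nat.prime_of_mem_primesLE h
      · exact hS'p p h) (F.image (· / d)) (fun m hm => by
      obtain ⟨n, hn, rfl⟩ := mem_image.1 hm
      obtain ⟨h1, h2⟩ := mem_filter.1 hn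
      obtain ⟨h3, h4⟩ := mem_Icc.1 h1
      have h5 : n / d ∣ n := Nat.div_dvd_of_dvd (hdvd n hn)
      rw [Nat.mem_factoredNumbers_iff_primeFactors_subset]
      refine ⟨fun h => by rw [h, zero_dvd_iff] at h5; omega, fun p h => ?_⟩
      obtain ⟨h6, h7, -⟩ := Nat.mem_primeFactors.1 h
      have h8 : p ∣ n := h7.trans h5
      rcases le_or_gt p w with h9 | h9
      · exact mem_union_left _ (Nat.mem_primesLE.2 ⟨h9, h6⟩)
      · refine mem_union_right _ (mem_map.2 ⟨⟨p, mem_filter.2 ⟨mem_Ioc.2 ⟨h9, ?_⟩, h6⟩⟩, ?_, rfl⟩)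
        · exact (Nat.le_of_dvd h3 h8).trans h4
        · rw [← h2]; exact mem_filter.2 ⟨mem_univ _, h8⟩)
  rw [sum_image (fun a ha b hb h => by
    rw [← Nat.div_mul_cancel (hdvd a ha), ← Nat.div_mul_cancel (hdvd b hb)]
    exact congrArg (· * d) h), prod_union hdisj, hS', prod_map] at key
  have hdr : (0 : ℝ) < d := by exact_mod_cast hd0
  have e1 : ∑ n ∈ F, (n : ℝ)⁻¹ = (∑ n ∈ F, ((n / d : ℕ) : ℝ)⁻¹) * (d : ℝ)⁻¹ := by
    rw [sum_mul]
    refine sum_congr rfl fun n hn => ?_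
    rw [← mul_inv, ← Nat.cast_mul, Nat.div_mul_cancel (hdvd n hn)]
  have e2 : ∏ p ∈ S, 1 / (((p : ℕ) : ℝ) - 1) =
      (∏ p ∈ S, (1 - ((p : ℕ) : ℝ)⁻¹)⁻¹) * (d : ℝ)⁻¹ := by
    rw [hd, Nat.cast_prod, ← prod_inv_distrib, ← prod_mul_distrib]
    refine prod_congr rfl fun p _ => ?_
    have : ((p : ℕ) : ℝ) ≠ 0 := by exact_mod_cast (hp p).ne_zero
    rw [← mul_inv, sub_mul, inv_mul_cancel₀ this, one_mul, one_div]
  rw [e1, e2, ← mul_assoc]
  exact mul_le_mul_of_nonneg_right key (by positivity)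

lemma MLog_harmonic {w R : ℕ} :
    ∑ n ∈ Icc 1 R, (n : ℝ)⁻¹ ≤ (∏ p ∈ Nat.primesLE w, (1 - (p : ℝ)⁻¹)⁻¹) * Gs w R := by
  have hp : ∀ p : PP w R, (p : ℕ).Prime := fun p => (mem_filter.1 p.2).2
  rw [← sum_fiberwise_of_maps_to (t := RR w R)
    (g := fun n => univ.filter fun p : PP w R => (p : ℕ) ∣ n), Gs, mul_sum]
  · exact sum_le_sum fun S _ => MLog_fibre S
  · intro n hn
    obtain ⟨h1, h2⟩ := mem_Icc.1 hn
    refine mem_filter.2 ⟨mem_univ _, (Nat.le_of_dvd h1 ?_).trans h2⟩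
    have e : ∀ S : Finset (PP w R),
        ∏ p ∈ S, (p : ℕ) = ∏ p ∈ S.map (Embedding.subtype _), p := fun S => by
      rw [prod_map]; rfl
    rw [e]
    refine (prod_dvd_prod_of_subset _ _ _ fun p h => ?_).trans (Nat.prod_primeFactors_dvd n)
    obtain ⟨q, hq, rfl⟩ := mem_map.1 h
    exact Nat.mem_primeFactors.2 ⟨hp q, (mem_filter.1 hq).2, by omega⟩

/-- The lower bound for the normalising sum. -/
theorem log_le_Gs {w R : ℕ} (hR : 1 ≤ R) :
    Real.log R * (primorial w).totient ≤ Gs w R * primorial w := by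
  have h1 : Real.log R ≤ ∑ n ∈ Icc 1 R, (n : ℝ)⁻¹ := by
    have h := log_add_one_le_harmonic R
    rw [harmonic_eq_sum_Icc] at h
    push_cast at h
    refine le_trans (Real.log_le_log (by exact_mod_cast hR) (by linarith)) h
  have h2 : ((primorial w).totient : ℝ) =
      primorial w * ∏ p ∈ Nat.primesLE w, (1 - (p : ℝ)⁻¹) := by
    have h := congrArg (fun x : ℚ => (x : ℝ)) (Nat.totient_eq_mul_prod_factors (primorial w))
    rw [primeFactors_primorial] at h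
    push_cast at h
    exact h
  have h3 : (∏ p ∈ Nat.primesLE w, (1 - (p : ℝ)⁻¹)⁻¹) * ∏ p ∈ Nat.primesLE w, (1 - (p : ℝ)⁻¹)
      = 1 := by
    rw [← prod_mul_distrib]
    refine prod_eq_one fun p h => inv_mul_cancel₀ ?_
    have : (1 : ℝ) < p := by exact_mod_cast (Nat.prime_of_mem_primesLE h).one_lt
    exact (sub_pos.2 (inv_lt_one_of_one_lt₀ this)).ne'
  calc Real.log R * (primorial w).totient
      ≤ ((∏ p ∈ Nat.primesLE w, (1 - (p : ℝ)⁻¹)⁻¹) * Gs w R) * (primorial w).totient :=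
        mul_le_mul_of_nonneg_right (h1.trans MLog_harmonic) (Nat.cast_nonneg _)
    _ = Gs w R * primorial w * ((∏ p ∈ Nat.primesLE w, (1 - (p : ℝ)⁻¹)⁻¹) *
        ∏ p ∈ Nat.primesLE w, (1 - (p : ℝ)⁻¹)) := by rw [h2]; ring
    _ = _ := by rw [h3, mul_one]

end Pool.Agent.GT
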