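import Pool.Agent.GT.MBox

/-!
The linear forms condition on Z/NZ.
-/

open scoped BigOperators Classical
open Finset Function

noncomputable section

namespace Pool.Agent.GT

/-- Few residues lie near the ends of the fundamental interval. -/
theorem MWrap_count (N D : ℕ) [NeZero N] :
    pr (fun x : ZMod N => x.val < D ∨ N ≤ x.val + D) ≤ 2 * D / N := by
  rw [pr_eq_card, ZMod.card]
  refine div_le_div_of_nonneg_right ?_ (Nat.cast_nonneg _)
  have h : #(univ.filter fun x : ZMod N => x.val < D ∨ N ≤ x.val + D) ≤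
      #(range D ∪ Ico (N - D) N) := by
    refine card_le_card_of_injOn ZMod.val (fun x hx => ?_) (ZMod.val_injective N).injOn
    have h1 := ZMod.val_lt x
    have h2 := (mem_filter.1 hx).2
    simp only [coe_union, coe_range, coe_Ico, Set.mem_union, Set.mem_Iio, Set.mem_Ico]
    omega
  have h2 := card_union_le (range D) (Ico (N - D) N)
  rw [card_range, Nat.card_Ico] at h2
  have h3 : #(univ.filter fun x : ZMod N => x.val < D ∨ N ≤ x.val + D) ≤ 2 * D := by omega
  exact_mod_cast h3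

/-- From boxes of integers to residues. -/
theorem MWrap_wrap {I T : Type} [Fintype I] [Fintype T] (c : I → T → ℤ) (K H N : ℕ) [NeZero N]
    (hH : 0 < H) (hK : ∀ i v, |c i v| ≤ K) (hs : ∀ i, ∃ v, c i v = 1 ∨ c i v = -1) (f : ℤ → ℝ)
    {M δ : ℝ} (hM : 1 ≤ M) (f0 : ∀ n, 0 ≤ f n) (fM : ∀ n, f n ≤ M)
    (hbox : ∀ b : I → ℤ,
      |av (fun h : T → Fin H => ∏ i, f (∑ v, c i v * ((h v : ℕ) : ℤ) + b i)) - 1| ≤ δ) :
    |av (fun z : T → ZMod N => ∏ i, f ((∑ v, (c i v : ZMod N) * z v).val : ℤ)) - 1| ≤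
      δ + Fintype.card I * (2 * (Fintype.card T * K * H : ℕ) / N) * M ^ Fintype.card I := by
  have : Nonempty (Fin H) := ⟨⟨0, hH⟩⟩
  set D := Fintype.card T * K * H with hD
  let l : I → (T → ZMod N) →+ ZMod N := fun i =>
    { toFun := fun z => ∑ v, (c i v : ZMod N) * z v
      map_zero' := by simp
      map_add' := fun z z' => by simp [mul_add, sum_add_distrib] }
  have hl : ∀ i z, l i z = ∑ v, (c i v : ZMod N) * z v := fun _ _ => rfl
  have hsurj : ∀ i, Surjective (l i) := by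
    intro i x
    obtain ⟨v, hv⟩ := hs i
    refine ⟨Pi.single v (c i v * x), ?_⟩
    rw [hl, sum_eq_single v (fun u _ hu => by simp [hu]) (by simp)]
    rcases hv with hv | hv <;> simp [hv]
  let Φ : (T → ZMod N) → ℝ := fun z => ∏ i, f ((l i z).val : ℤ)
  let G : (T → ZMod N) → ℝ := fun z =>
    av fun h : T → Fin H => Φ (z + fun v => ((h v : ℕ) : ZMod N))
  let Bad : (T → ZMod N) → Prop := fun z => ∃ i ∈ univ, (l i z).val < D ∨ N ≤ (l i z).val + D
  have hδ : 0 ≤ δ := (abs_nonneg _).trans (hbox 0)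
  have hMI : 1 ≤ M ^ Fintype.card I := one_le_pow₀ hM
  have h1 : av Φ = av G := by
    rw [show av G = _ from av_comm _]
    simp only [av_add_right, av_const]
  have hΦ0 : ∀ z, 0 ≤ Φ z := fun z => prod_nonneg fun i _ => f0 _
  have hΦM : ∀ z, Φ z ≤ M ^ Fintype.card I := fun z => by
    rw [← card_univ, ← prod_const]
    exact prod_le_prod (fun i _ => f0 _) fun i _ => fM _
  have h2 : ∀ z, |G z - 1| ≤ δ + ind (Bad z) * M ^ Fintype.card I := by
    intro z
    by_cases hz : Bad z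
    · have g0 : 0 ≤ G z := av_nonneg fun _ => hΦ0 _
      have g1 : G z ≤ M ^ Fintype.card I := av_le_const fun _ => hΦM _
      rw [ind_of hz, one_mul, abs_le]
      constructor <;> linarith
    rw [ind_of_not hz, zero_mul, add_zero]
    convert hbox (fun i => ((l i z).val : ℤ)) using 3
    refine av_congr fun h => prod_congr rfl fun i _ => congrArg f ?_
    have hi : D ≤ (l i z).val ∧ (l i z).val + D < N := by
      by_contra hc
      exact hz ⟨i, mem_univ _, by omega⟩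
    have hb : |∑ v, c i v * ((h v : ℕ) : ℤ)| ≤ D := by
      refine (abs_sum_le_sum_abs _ _).trans ?_
      rw [hD, mul_assoc, ← card_univ]
      push_cast
      rw [← nsmul_eq_mul]
      refine sum_le_card_nsmul _ _ _ fun v _ => ?_
      rw [abs_mul, Nat.abs_cast]
      exact mul_le_mul (hK i v) (by exact_mod_cast (h v).2.le) (Nat.cast_nonneg _)
        (Nat.cast_nonneg _)
    have he : l i (z + fun v => ((h v : ℕ) : ZMod N)) =
        ((∑ v, c i v * ((h v : ℕ) : ℤ) + ((l i z).val : ℤ) : ℤ) : ZMod N) := by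
      rw [map_add, add_comm]
      simp [hl]
    rw [he, ZMod.val_intCast]
    have hb' := abs_le.1 hb
    exact Int.emod_eq_of_lt (by omega) (by omega)
  have h3 : pr Bad ≤ Fintype.card I * (2 * D / N) := by
    refine (pr_exists_le univ fun i z => (l i z).val < D ∨ N ≤ (l i z).val + D).trans ?_
    rw [← card_univ, ← nsmul_eq_mul]
    refine sum_le_card_nsmul _ _ _ fun i _ => le_trans (le_of_eq ?_) (MWrap_count N D)
    exact av_hom (l i) (hsurj i) fun x => ind (x.val < D ∨ N ≤ x.val + D)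
  change |av Φ - 1| ≤ _
  rw [h1, ← av_const (Ω := T → ZMod N) 1, ← av_sub]
  refine (abs_av_le _).trans ((av_mono h2).trans ?_)
  rw [av_add, av_const, av_mul_const]
  exact add_le_add le_rfl (mul_le_mul_of_nonneg_right h3 (by positivity))

/-- The coefficients of the linear forms on the cube. -/
def MWrapC {k : ℕ} (q : Fin k × (Fin k → Bool)) (v : Fin k × Bool) : ℤ :=
  if v.2 = q.2 v.1 then ((q.1 : ℕ) : ℤ) - ((v.1 : ℕ) : ℤ) else 0

theorem MWrap_unit {k : ℕ} (hk : 2 ≤ k) (q : Fin k × (Fin k → Bool)) :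
    ∃ v, MWrapC q v = 1 ∨ MWrapC q v = -1 := by
  have := q.1.2
  by_cases h : (q.1 : ℕ) + 1 < k
  · exact ⟨(⟨_, h⟩, q.2 ⟨_, h⟩), Or.inr (by simp [MWrapC])⟩
  · have h' : (q.1 : ℕ) - 1 < k := by omega
    refine ⟨(⟨_, h'⟩, q.2 ⟨_, h'⟩), Or.inl ?_⟩
    simp only [MWrapC, if_true]
    omega

theorem MWrap_sep {k : ℕ} (hk : 2 ≤ k) (S : Finset (Fin k × (Fin k → Bool)))
    (hS : ∀ q ∈ S, q.2 q.1 = false) : Sep (fun q : S => MWrapC q.1) k := by
  refine ⟨fun q v => ?_, fun q => ?_, fun q q' hne => ?_⟩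
  · have := q.1.1.2
    have := v.1.2
    simp only [MWrapC]
    split_ifs
    · rw [abs_le]; constructor <;> omega
    · simp
  · obtain ⟨v, hv⟩ := MWrap_unit hk q.1
    exact ⟨v, show MWrapC q.1 v ≠ 0 by omega⟩
  · obtain ⟨⟨j, ω⟩, hq⟩ := q
    obtain ⟨⟨j', ω'⟩, hq'⟩ := q'
    by_cases h : j = j'
    · subst h
      obtain ⟨i, hi⟩ : ∃ i, ω i ≠ ω' i := Function.ne_iff.1 fun e => hne (by subst e; rfl)
      have hij : i ≠ j := by
        rintro rfl
        exact hi ((hS _ hq).trans (hS _ hq').symm)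
      refine ⟨(i, ω i), ?_, by simp [MWrapC, hi]⟩
      simp only [MWrapC, if_true]
      have := Fin.val_ne_of_ne hij
      omega
    · refine ⟨(j', ω j'), ?_, by simp [MWrapC]⟩
      simp only [MWrapC, if_true]
      have := Fin.val_ne_of_ne h
      omega

theorem lfc_nu (k : ℕ) (hk : 2 ≤ k) : ∃ A : ℕ, ∀ ε : ℝ, 0 < ε → ∃ w₀ R₀ : ℕ, ∀ w R N : ℕ,
    w₀ ≤ w → R₀ ≤ R → R ^ A ≤ N → ∀ W b : ℤ, (∀ p : ℕ, p.Prime → w < p → ¬ (p : ℤ) ∣ W) →
      LFC (fun (j : Fin k) (x : Fin k → ZMod N) => nu w R (W * ((psi j x).val : ℤ) + b)) ε := by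
  obtain ⟨m, hm⟩ : ∃ m, m = Fintype.card (Fin k × (Fin k → Bool)) := ⟨_, rfl⟩
  refine ⟨6 * m + 2, fun ε hε => ?_⟩
  obtain ⟨w₀, hw₀⟩ := box_lfc m k (half_pos hε)
  refine ⟨w₀, ⌈(4 * k + 4 * m * k ^ 2) / (ε / 2)⌉₊ + 1, fun w R N hw hR hN W b hW S hS => ?_⟩
  have hR1 : 1 ≤ R := le_trans (Nat.le_add_left _ _) hR
  have hR1' : (1 : ℝ) ≤ R := by exact_mod_cast hR1
  have hR0 : (0 : ℝ) < R := by linarith
  have hRε : (4 * k + 4 * m * k ^ 2) / R ≤ ε / 2 := by
    rw [div_le_comm₀ hR0 (half_pos hε)]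
    exact (Nat.le_ceil _).trans (by exact_mod_cast le_trans (Nat.le_succ _) hR)
  have hN0 : 0 < N := lt_of_lt_of_le (pow_pos hR1 _) hN
  have : NeZero N := ⟨hN0.ne'⟩
  have hc : Fintype.card S ≤ m := by rw [hm, Fintype.card_coe]; exact card_le_univ S
  have hsep := MWrap_sep hk S hS
  have hT : Fintype.card (Fin k × Bool) = 2 * k := by simp [mul_comm]
  have key := MWrap_wrap (fun q : S => MWrapC q.1) k (R ^ (4 * m + 1)) N (pow_pos hR1 _) hsep.1
    (fun q => MWrap_unit hk q.1) (fun n => nu w R (W * n + b)) (M := (R : ℝ) ^ 2)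
    (one_le_pow₀ hR1') (fun _ => nu_nonneg _ _ _) (fun _ => nu_le _ _ _) fun b' => by
      have := hw₀ w R (R ^ (4 * m + 1)) hw hR1 (Nat.one_le_pow _ _ hR1) S (Fin k × Bool) hc _ hsep W hW
        fun q => W * b' q + b
      simpa only [mul_add, add_assoc] using this
  let e : (Fin k × Bool → ZMod N) ≃ (Fin k → ZMod N) × (Fin k → ZMod N) :=
    { toFun := fun z => (fun i => z (i, false), fun i => z (i, true))
      invFun := fun p v => if v.2 then p.2 v.1 else p.1 v.1
      left_inv := fun z => by ext ⟨i, β⟩; cases β <;> rfl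
      right_inv := fun p => rfl }
  have hpsi : ∀ (z : Fin k × Bool → ZMod N) (q : Fin k × (Fin k → Bool)),
      psi q.1 (cube (e z) q.2) = ∑ v, (MWrapC q v : ZMod N) * z v := by
    intro z q
    rw [psi, Fintype.sum_prod_type]
    refine sum_congr rfl fun i _ => ?_
    cases h : q.2 i <;> simp [MWrapC, cube, h, e]
  rw [← av_equiv e]
  simp only [hpsi, ← prod_coe_sort S]
  refine key.trans ?_
  rw [hT]
  have hN' : (R : ℝ) ^ (6 * m + 2) ≤ N := by exact_mod_cast hN
  have e1 : 2 * ((2 * k : ℕ) : ℝ) * (R : ℝ) ^ (4 * m) / ((R ^ (4 * m + 1) : ℕ) : ℝ) = 4 * k / R := by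
    push_cast
    field_simp
    ring
  have e2 : (Fintype.card S : ℝ) * (2 * ((2 * k * k * R ^ (4 * m + 1) : ℕ) : ℝ) / N) *
      ((R : ℝ) ^ 2) ^ Fintype.card S ≤ 4 * m * k ^ 2 / R := by
    calc _ ≤ (m : ℝ) * (2 * ((2 * k * k * R ^ (4 * m + 1) : ℕ) : ℝ) / (R : ℝ) ^ (6 * m + 2)) *
          ((R : ℝ) ^ 2) ^ m := by
          gcongr
          exact one_le_pow₀ hR1'
      _ = _ := by
          push_cast
          field_simp
          ring
  rw [e1]
  rw [add_div] at hRε
  linarith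

end Pool.Agent.GT
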