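import Pool.Agent.GT.RMain
import Pool.Agent.GT.MWrap
import Pool.Agent.GT.MLog
import Pool.Agent.GT.MDens2

/-!
The Green-Tao theorem for sets of primes of positive upper relative density.
-/

open scoped BigOperators Classical
open Finset Function

noncomputable section

namespace Pool.Agent.GT

/-- Choice of the modulus N and of the sieve level R. -/
lemma greenTao_params (k : ℕ) {W A R₁ X : ℕ} (hW : 0 < W) (hA : A ≠ 0) (hR : k.factorial + 1 ≤ R₁)
    (hX : W * R₁ ^ A ≤ X) : ∃ N R : ℕ, 2 * (X / W) < N ∧ W * N ≤ 3 * X ∧ X < W * N ∧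
      (∀ i, 0 < i → i < k → Nat.Coprime i N) ∧ R₁ ≤ R ∧ R ^ A ≤ N ∧ N < (R + 1) ^ A := by
  have hf : 0 < k.factorial := k.factorial_pos
  set M := X / W with hM
  have h1 : R₁ ^ A ≤ M := (Nat.le_div_iff_mul_le hW).2 (by rwa [mul_comm])
  have h2 : R₁ ≤ R₁ ^ A := Nat.le_self_pow hA _
  have h3 : W * M ≤ X := Nat.mul_div_le X W
  have h4 : X < W * (M + 1) := Nat.lt_mul_div_succ X hW
  have h5 : 2 * M < k.factorial * (2 * M / k.factorial + 1) := Nat.lt_mul_div_succ _ hf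
  have h6 : k.factorial * (2 * M / k.factorial) ≤ 2 * M := Nat.mul_div_le _ _
  have h7 : k.factorial * (2 * M / k.factorial + 1) + 1 ≤ 3 * M := by
    rw [mul_add, mul_one]; omega
  refine ⟨k.factorial * (2 * M / k.factorial + 1) + 1,
    Nat.nthRoot A (k.factorial * (2 * M / k.factorial + 1) + 1), by omega, ?_, ?_, ?_, ?_, ?_, ?_⟩
  · calc W * (k.factorial * (2 * M / k.factorial + 1) + 1) ≤ W * (3 * M) :=
          Nat.mul_le_mul_left _ h7
      _ = 3 * (W * M) := by ring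
      _ ≤ 3 * X := by omega
  · exact h4.trans_le (Nat.mul_le_mul_left _ (by omega))
  · intro i hi hik
    obtain ⟨t, ht⟩ : i ∣ k.factorial := Nat.dvd_factorial hi hik.le
    generalize 2 * M / k.factorial + 1 = u
    rw [ht, mul_assoc, Nat.coprime_mul_left_add_right]
    exact Nat.coprime_one_right i
  · rw [Nat.le_nthRoot_iff hA]; omega
  · exact Nat.pow_nthRoot_le_iff.2 (Or.inl hA)
  · exact Nat.lt_pow_nthRoot_add_one hA _

/-- The average of the weighted indicator of a residue class. -/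
lemma greenTao_av {N W b : ℕ} [NeZero N] (s : Finset ℕ) (hs : ∀ q ∈ s, q / W < N) {G : ℝ}
    (hG : 0 ≤ G) :
    G * #(s.filter fun q => q % W = b) / N ≤ av fun x : ZMod N => G * ind (W * x.val + b ∈ s) := by
  rw [av_const_mul, mul_div_assoc]
  refine mul_le_mul_of_nonneg_left ?_ hG
  have := pr_eq_card fun x : ZMod N => W * x.val + b ∈ s
  rw [pr] at this
  rw [this, ZMod.card]
  refine div_le_div_of_nonneg_right ?_ (Nat.cast_nonneg _)
  have key : ∀ q ∈ s.filter fun q => q % W = b, W * ((q / W : ℕ) : ZMod N).val + b = q := by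
    intro q hq
    obtain ⟨h1, h2⟩ := mem_filter.1 hq
    rw [ZMod.val_cast_of_lt (hs q h1), ← h2]
    exact Nat.div_add_mod q W
  norm_cast
  refine card_le_card_of_injOn (fun q => ((q / W : ℕ) : ZMod N)) ?_ ?_
  · intro q hq
    have hq' : q ∈ s.filter fun q => q % W = b := hq
    simp only [coe_filter, mem_univ, true_and, Set.mem_ofPred_eq]
    rw [key q hq']
    exact (mem_filter.1 hq').1
  · intro q hq q' hq' e
    have e' : ((q / W : ℕ) : ZMod N) = ((q' / W : ℕ) : ZMod N) := e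
    rw [← key q hq, ← key q' hq', e']

/-- The trivial progressions contribute little. -/
lemma greenTao_nontrivial {N k : ℕ} [NeZero N] (f : ZMod N → ℝ) {G c : ℝ} (h0 : ∀ x, 0 ≤ f x)
    (h1 : ∀ x, f x ≤ G) (hc : G ^ k / N < c)
    (h : c ≤ av fun p : ZMod N × ZMod N => ∏ j : Fin k, f (p.1 + (j : ℕ) • p.2)) :
    ∃ a d : ZMod N, d ≠ 0 ∧ ∀ j < k, f (a + j • d) ≠ 0 := by
  have e : av (fun p : ZMod N × ZMod N => G ^ k * ind (p.2 = 0)) = G ^ k / N := by
    rw [av_snd fun d : ZMod N => G ^ k * ind (d = 0), av_const_mul]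
    have := pr_eq_single (0 : ZMod N)
    rw [pr] at this
    rw [this, Nat.card_zmod]
    ring
  obtain ⟨p, hp⟩ := exists_lt_of_av_lt_av ((e.trans_lt hc).trans_le h)
  have hd : p.2 ≠ 0 := by
    intro hd
    rw [ind_of hd, mul_one] at hp
    refine absurd hp (not_lt.2 ?_)
    calc ∏ j : Fin k, f (p.1 + (j : ℕ) • p.2) ≤ ∏ _j : Fin k, G :=
          prod_le_prod (fun j _ => h0 _) fun j _ => h1 _
      _ = G ^ k := by simp
  refine ⟨p.1, p.2, hd, fun j hj hz => ?_⟩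
  rw [ind_of_not hd, mul_zero, prod_eq_zero (mem_univ (⟨j, hj⟩ : Fin k)) hz] at hp
  exact lt_irrefl _ hp

/-- The elements of the set in (R, X]. -/
lemma greenTao_card (𝒬 : Set ℕ) (R X : ℕ) :
    (𝒬 ∩ Set.Iic X).ncard ≤ #((Ioc R X).filter (· ∈ 𝒬)) + (R + 1) := by
  have : 𝒬 ∩ Set.Iic X ⊆ ↑((Ioc R X).filter (· ∈ 𝒬) ∪ range (R + 1)) := by
    rintro q ⟨h1, h2⟩
    have h2' : q ≤ X := h2
    simp only [coe_union, coe_filter, mem_Ioc, coe_range, Set.mem_union, Set.mem_ofPred_eq,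
      Set.mem_Iio]
    by_cases h : R < q
    · exact Or.inl ⟨⟨h, h2'⟩, h1⟩
    · exact Or.inr (by omega)
  refine (Set.ncard_le_ncard this (finite_toSet _)).trans ?_
  rw [Set.ncard_coe_finset]
  simpa using card_union_le ((Ioc R X).filter (· ∈ 𝒬)) (range (R + 1))

/-- The numerical inequalities. -/
lemma greenTao_num {δ A R X N W φ G s t : ℝ} (hδ : 0 < δ) (hA : 0 < A) (hR : 2 ≤ R)
    (hN : 0 < N) (hW : 1 ≤ W) (ht : 0 ≤ t) (hX : 1 < X)
    (hWN : W * N ≤ 3 * X) (hRN : R ^ 4 ≤ N) (hlog : Real.log X ≤ 4 * A * Real.log R)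
    (hRδ : 72 * A ≤ δ * R) (hs : δ * X / Real.log X ≤ s + (R + 1)) (hst : s ≤ φ * t)
    (hG : Real.log R * φ ≤ G * W) : δ / (24 * A) ≤ G * t / N := by
  have hlX : 0 < Real.log X := Real.log_pos hX
  have hlR : 0 < Real.log R := Real.log_pos (by linarith)
  have hlR' : Real.log R ≤ R := (Real.log_le_sub_one_of_pos (by linarith)).trans (by linarith)
  have h1 : R ^ 4 ≤ 3 * X := by nlinarith
  have h2 : Real.log X ≤ 4 * A * R := hlog.trans (by nlinarith)
  have h3 : 2 * (R + 1) ≤ δ * X / Real.log X := by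
    rw [le_div_iff₀ hlX]
    have a1 : 2 * (R + 1) * Real.log X ≤ 3 * R * (4 * A * R) :=
      mul_le_mul (by linarith) h2 hlX.le (by linarith)
    have a2 : 72 * A * R ^ 3 ≤ δ * R * R ^ 3 := mul_le_mul_of_nonneg_right hRδ (by positivity)
    have a3 : δ * R ^ 4 ≤ δ * (3 * X) := mul_le_mul_of_nonneg_left h1 hδ.le
    have a4 : A * R ^ 2 * 1 ≤ A * R ^ 2 * R :=
      mul_le_mul_of_nonneg_left (by linarith) (by positivity)
    have a5 : 0 ≤ A * R ^ 3 := by positivity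
    nlinarith
  have h4 : δ * X / Real.log X ≤ 2 * s := by linarith
  rw [div_le_iff₀ hlX] at h4
  have hs0 : 0 ≤ s := by
    have : 0 < δ * X / Real.log X := by positivity
    linarith
  have h5 : δ * X ≤ 2 * s * (4 * A * Real.log R) :=
    h4.trans (mul_le_mul_of_nonneg_left hlog (by positivity))
  have h6 : s * Real.log R ≤ G * W * t := by
    calc s * Real.log R ≤ φ * t * Real.log R := mul_le_mul_of_nonneg_right hst hlR.le
      _ = Real.log R * φ * t := by ring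
      _ ≤ G * W * t := mul_le_mul_of_nonneg_right hG ht
  have h7 : δ * (W * N) ≤ δ * (3 * X) := mul_le_mul_of_nonneg_left hWN hδ.le
  have h8 : A * (s * Real.log R) ≤ A * (G * W * t) := mul_le_mul_of_nonneg_left h6 hA.le
  rw [div_le_div_iff₀ (by positivity) hN]
  have h9 : W * (δ * N) ≤ W * (G * t * (24 * A)) := by nlinarith
  exact le_of_mul_le_mul_left h9 (by linarith)

lemma greenTao_two {𝒬 : Set ℕ} (hp : ∀ q ∈ 𝒬, q.Prime) (h : UDens 𝒬) (k : ℕ) (hk : 2 ≤ k) :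
    ∃ a d : ℕ, 0 < d ∧ ∀ j < k, a + j * d ∈ 𝒬 := by
  obtain ⟨δ, hδ, hfr⟩ := h
  obtain ⟨A₀, hA₀⟩ := lfc_nu k hk
  obtain ⟨A, hA⟩ : ∃ A, A = A₀ + k + 2 := ⟨_, rfl⟩
  have hA0 : A ≠ 0 := by omega
  have hApos : (0 : ℝ) < A := by exact_mod_cast Nat.pos_of_ne_zero hA0
  obtain ⟨c, ε, hc, hε, hsz⟩ := rel_sz k hk (δ := δ / (24 * A)) (by positivity)
  obtain ⟨w, R₀, hl⟩ := hA₀ ε hε
  obtain ⟨W, hWdef⟩ : ∃ W, W = primorial w := ⟨_, rfl⟩
  have hW : 0 < W := hWdef ▸ primorial_pos w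
  obtain ⟨n₁, hn₁⟩ := exists_nat_gt (1 / c)
  obtain ⟨n₂, hn₂⟩ := exists_nat_ge (72 * A / δ)
  obtain ⟨X, hX1, hX2⟩ := (hfr.and_eventually
    (Filter.eventually_ge_atTop (W * (k.factorial + 1 + R₀ + W + n₁ + n₂) ^ A))).exists
  obtain ⟨N, R, hN1, hN2, hN3, hN4, hR1, hR2, hR3⟩ := greenTao_params k hW hA0 (by omega) hX2
  have hf : 0 < k.factorial := k.factorial_pos
  have hR : 2 ≤ R := by omega
  have hN0 : 0 < N := by omega
  have : NeZero N := ⟨hN0.ne'⟩
  have hpow : ∀ m ≤ A, R ^ m ≤ N := fun m hm => (Nat.pow_le_pow_right (by omega) hm).trans hR2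
  have hRN : R ≤ N := by simpa using hpow 1 (by omega)
  have hRr : (2 : ℝ) ≤ R := by exact_mod_cast hR
  have hNr : (0 : ℝ) < N := by exact_mod_cast hN0
  have h4 : R ^ 4 ≤ N := hpow 4 (by omega)
  have hX16 : 1 < X := by
    have a1 : 2 ^ 4 ≤ R ^ 4 := Nat.pow_le_pow_left hR 4
    have a2 : N ≤ W * N := Nat.le_mul_of_pos_left N hW
    omega
  have hXR : X ≤ R ^ (4 * A) := by
    have a1 : R + 1 ≤ R ^ 2 := by nlinarith
    have a2 : N ≤ (R ^ 2) ^ A := hR3.le.trans (Nat.pow_le_pow_left a1 A)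
    calc X ≤ W * N := hN3.le
      _ ≤ N * N := Nat.mul_le_mul_right _ (by omega)
      _ ≤ (R ^ 2) ^ A * (R ^ 2) ^ A := Nat.mul_le_mul a2 a2
      _ = R ^ (4 * A) := by ring
  have hlog : Real.log X ≤ 4 * A * Real.log R := by
    have a1 : (X : ℝ) ≤ (R : ℝ) ^ (4 * A) := by exact_mod_cast hXR
    have a2 := Real.log_le_log (by exact_mod_cast (by omega : 0 < X)) a1
    rw [Real.log_pow] at a2
    exact_mod_cast a2
  set s := (Ioc R X).filter (· ∈ 𝒬) with hsdef
  have hs : ∀ q ∈ s, R < q ∧ q ≤ X ∧ q ∈ 𝒬 := fun q hq => by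
    obtain ⟨a1, a2⟩ := mem_filter.1 hq
    exact ⟨(mem_Ioc.1 a1).1, (mem_Ioc.1 a1).2, a2⟩
  obtain ⟨b, -, hb⟩ := exists_class hW s fun q hq =>
    Nat.coprime_of_lt_prime hW.ne' (by have := (hs q hq).1; omega) (hp q (hs q hq).2.2)
  have hG1 : 1 ≤ Gs w R := one_le_Gs (by omega)
  have hG0 : 0 ≤ Gs w R := by linarith
  have hav : δ / (24 * A) ≤ av fun x : ZMod N => Gs w R * ind (W * x.val + b ∈ s) := by
    refine le_trans ?_ (greenTao_av s (fun q hq => ?_) hG0)
    · refine greenTao_num (R := R) (X := X) (W := W) (φ := W.totient) (s := #s) hδ hApos hRr hNr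
        (by exact_mod_cast hW) (Nat.cast_nonneg _) (by exact_mod_cast hX16)
        (by exact_mod_cast hN2) (by exact_mod_cast h4) hlog ?_ ?_ hb ?_
      · rw [div_le_iff₀ hδ] at hn₂
        have : (n₂ : ℝ) ≤ R := by exact_mod_cast (by omega : n₂ ≤ R)
        nlinarith
      · refine hX1.trans ?_
        exact_mod_cast greenTao_card 𝒬 R X
      · rw [hWdef]; exact log_le_Gs (by omega)
    · have := Nat.div_le_div_right (c := W) (hs q hq).2.1
      omega
  have hf0 : ∀ x : ZMod N, 0 ≤ Gs w R * ind (W * x.val + b ∈ s) := fun x =>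
    mul_nonneg hG0 (ind_nonneg _)
  have hmain := hsz (ZMod N) (fun i hi hik => (ZMod.isUnit_iff_coprime i N).2 (hN4 i hi hik))
    (fun x => nu w R (W * (x.val : ℤ) + b)) (fun x => Gs w R * ind (W * x.val + b ∈ s)) hf0
    (fun x => by
      by_cases hx : W * x.val + b ∈ s
      · rw [ind_of hx, mul_one, ← nu_prime (hp _ (hs _ hx).2.2) (hs _ hx).1]
        push_cast
        exact le_rfl
      · rw [ind_of_not hx, mul_zero]; exact nu_nonneg _ _ _)
    (hl w R N le_rfl (by omega) (hpow A₀ (by omega)) W b fun p hpp hwp hd => by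
      rw [hWdef, Int.natCast_dvd_natCast, hpp.dvd_primorial_iff] at hd
      omega)
    hav
  obtain ⟨a, d, hd, had⟩ := greenTao_nontrivial (G := R) (fun x : ZMod N =>
    Gs w R * ind (W * x.val + b ∈ s)) hf0
    (fun x => (mul_le_of_le_one_right hG0 (ind_le_one _)).trans (Gs_le w R)) (by
      have a1 : ((R : ℝ)) ^ (k + 1) ≤ N := by exact_mod_cast hpow (k + 1) (by omega)
      have a2 : (n₁ : ℝ) ≤ R := by exact_mod_cast (by omega : n₁ ≤ R)
      have a3 : 1 < R * c := by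
        rw [div_lt_iff₀ hc] at hn₁
        nlinarith
      have a4 : (0 : ℝ) < (R : ℝ) ^ k := by positivity
      rw [div_lt_iff₀ hNr]
      calc (R : ℝ) ^ k = (R : ℝ) ^ k * 1 := (mul_one _).symm
        _ < (R : ℝ) ^ k * (R * c) := mul_lt_mul_of_pos_left a3 a4
        _ = c * (R : ℝ) ^ (k + 1) := by ring
        _ ≤ c * N := mul_le_mul_of_nonneg_left a1 hc.le) hmain
  have hmem : ∀ j < k, W * (a + j • d).val + b ∈ s := fun j hj => by
    by_contra hx
    exact had j hj (by rw [ind_of_not hx, mul_zero])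
  obtain ⟨x, e, he, hxe⟩ := unwrap a d hd hk fun j hj => by
    have a1 := (hs _ (hmem j hj)).2.1
    have a2 : (a + j • d).val ≤ X / W :=
      (Nat.le_div_iff_mul_le hW).2 (by rw [mul_comm]; omega)
    omega
  refine ⟨W * x + b, W * e, Nat.mul_pos hW he, fun j hj => ?_⟩
  obtain ⟨j', hj', e'⟩ := hxe j hj
  have := (hs _ (hmem j' hj')).2.2
  rw [← e'] at this
  convert this using 1
  ring

theorem green_tao {𝒬 : Set ℕ} (hp : ∀ q ∈ 𝒬, q.Prime) (h : UDens 𝒬) (k : ℕ) :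
    ∃ a d : ℕ, 0 < d ∧ ∀ j < k, a + j * d ∈ 𝒬 := by
  obtain ⟨a, d, hd, H⟩ := greenTao_two hp h (k + 2) (by omega)
  exact ⟨a, d, hd, fun j hj => H j (by omega)⟩

end Pool.Agent.GT
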