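import Pool.Agent.GT.Basic

/-!
Weighted hypergraphs: linear forms condition and cut norm.
-/

open scoped BigOperators Classical
open Finset Function

noncomputable section

namespace Pool.Agent.GT

variable {V X : Type} [DecidableEq V]

/-- The function does not depend on the coordinate j. -/
def NoDep (j : V) (f : (V → X) → ℝ) : Prop := ∀ x t, f (update x j t) = f x

/-- The vertex ω of the cube spanned by the two points of p. -/
def cube (p : (V → X) × (V → X)) (ω : V → Bool) : V → X := fun i => if ω i then p.2 i else p.1 i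

/-- The linear forms condition with error ε. -/
def LFC (ν : V → (V → X) → ℝ) (ε : ℝ) : Prop :=
  ∀ S : Finset (V × (V → Bool)), (∀ q ∈ S, q.2 q.1 = false) →
    |av (fun p : (V → X) × (V → X) => ∏ q ∈ S, ν q.1 (cube p q.2)) - 1| ≤ ε

/-- The cut norm of h, a function on the edge that omits j, is at most ε. -/
def Cut [Fintype V] (j : V) (h : (V → X) → ℝ) (ε : ℝ) : Prop :=
  ∀ u : V → (V → X) → ℝ, (∀ i, NoDep i (u i)) → (∀ i x, 0 ≤ u i x) → (∀ i x, u i x ≤ 1) →
    |av fun x => h x * ∏ i ∈ univ.erase j, u i x| ≤ ε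

omit [DecidableEq V] in
lemma LFC.mono {ν : V → (V → X) → ℝ} {ε ε' : ℝ} (h : LFC ν ε) (hε : ε ≤ ε') : LFC ν ε' :=
  fun S hS => (h S hS).trans hε

lemma Cut.mono [Fintype V] {j : V} {h : (V → X) → ℝ} {ε ε' : ℝ} (H : Cut j h ε) (hε : ε ≤ ε') :
    Cut j h ε' :=
  fun u a b c => (H u a b c).trans hε

/-- Replacing some of the weights by one preserves the linear forms condition. -/
lemma LFC.update_one {ν : V → (V → X) → ℝ} {ε : ℝ} (h : LFC ν ε) (c : V) :
    LFC (update ν c fun _ => 1) ε := by
  intro S hS
  have := h (S.filter fun q => q.1 ≠ c) fun q hq => hS q (mem_filter.1 hq).1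
  convert this using 4
  funext p
  rw [prod_filter]
  refine prod_congr rfl fun q _ => ?_
  by_cases e : q.1 = c
  · simp [e]
  · simp [e]

/-- The linear form number j, with value a + j d on the progression with a = - sum i x_i and
d = sum x_i. -/
def psi {R : Type} [CommRing R] {k : ℕ} (j : Fin k) (x : Fin k → R) : R :=
  ∑ i : Fin k, (((j : ℕ) : R) - ((i : ℕ) : R)) * x i

end Pool.Agent.GT
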