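import Pool.Agent.GT.Maj

/-!
Elementary properties of the majorant.
-/

open scoped BigOperators Classical
open Finset Function

noncomputable section

namespace Pool.Agent.GT

variable {w R : ℕ}

lemma MBasic_prime (p : PP w R) : (p : ℕ).Prime := (mem_filter.1 p.2).2

lemma MBasic_lt (p : PP w R) : w < (p : ℕ) := (mem_Ioc.1 (mem_filter.1 p.2).1).1

lemma MBasic_le (p : PP w R) : (p : ℕ) ≤ R := (mem_Ioc.1 (mem_filter.1 p.2).1).2

lemma MBasic_two_le (p : PP w R) : (2 : ℝ) ≤ ((p : ℕ) : ℝ) := by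
  exact_mod_cast (MBasic_prime p).two_le

lemma MBasic_mem_RR {S : Finset (PP w R)} : S ∈ RR w R ↔ ∏ p ∈ S, (p : ℕ) ≤ R := by
  simp [RR]

lemma MBasic_prod_pos (S : Finset (PP w R)) : 0 < ∏ p ∈ S, (p : ℕ) :=
  prod_pos fun p _ => (MBasic_prime p).pos

lemma MBasic_primeFactors (S : Finset (PP w R)) :
    (∏ p ∈ S, (p : ℕ)).primeFactors = S.map (Embedding.subtype _) := by
  rw [← Nat.primeFactors_prod (s := S.map (Embedding.subtype _)), prod_map]
  · rfl
  · intro p hp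
    obtain ⟨q, _, rfl⟩ := mem_map.1 hp
    exact MBasic_prime q

lemma MBasic_prod_inj : Injective fun S : Finset (PP w R) => ∏ p ∈ S, (p : ℕ) := by
  intro S T h
  have h1 := MBasic_primeFactors S
  have h2 := MBasic_primeFactors T
  simp only at h
  rw [h, h2] at h1
  exact (map_injective _ h1).symm

theorem card_RR_le (w R : ℕ) : #(RR w R) ≤ R := by
  have h : #(RR w R) ≤ #(Icc 1 R) :=
    card_le_card_of_injOn (fun S => ∏ p ∈ S, (p : ℕ))
      (fun S hS => by
        simp only [coe_Icc, Set.mem_Icc]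
        exact ⟨MBasic_prod_pos S, MBasic_mem_RR.1 hS⟩)
      fun S _ T _ h => MBasic_prod_inj h
  simpa using h

theorem empty_mem_RR (hR : 1 ≤ R) : ∅ ∈ RR w R := by
  rw [MBasic_mem_RR]; simpa using hR

theorem RR_down {S T : Finset (PP w R)} (hS : S ∈ RR w R) (h : T ⊆ S) : T ∈ RR w R := by
  rw [MBasic_mem_RR] at hS ⊢
  exact (Nat.le_of_dvd (MBasic_prod_pos S) (prod_dvd_prod_of_subset _ _ _ h)).trans hS

theorem abs_hh_le {q : ℝ} (hq : 2 ≤ q) (b : Prop) : |hh q b| ≤ 1 := by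
  unfold hh
  split_ifs
  · simp
  · rw [abs_of_nonneg (div_nonneg zero_le_one (by linarith)), div_le_one (by linarith)]
    linarith

lemma MBasic_term_nonneg (S : Finset (PP w R)) : 0 ≤ ∏ p ∈ S, 1 / (((p : ℕ) : ℝ) - 1) :=
  prod_nonneg fun p _ => div_nonneg zero_le_one (by linarith [MBasic_two_le p])

lemma MBasic_Gs_nonneg (w R : ℕ) : 0 ≤ Gs w R := sum_nonneg fun S _ => MBasic_term_nonneg S

theorem one_le_Gs (hR : 1 ≤ R) : 1 ≤ Gs w R := by
  have := single_le_sum (f := fun S : Finset (PP w R) => ∏ p ∈ S, 1 / (((p : ℕ) : ℝ) - 1))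
    (fun S _ => MBasic_term_nonneg S) (empty_mem_RR hR)
  simpa [Gs] using this

theorem Gs_le (w R : ℕ) : Gs w R ≤ R := by
  have h : Gs w R ≤ #(RR w R) • (1 : ℝ) := by
    refine sum_le_card_nsmul _ _ _ fun S _ => ?_
    refine prod_le_one (fun p _ => div_nonneg zero_le_one (by linarith [MBasic_two_le p]))
      fun p _ => ?_
    rw [div_le_one (by linarith [MBasic_two_le p])]
    linarith [MBasic_two_le p]
  rw [nsmul_eq_mul, mul_one] at h
  exact h.trans (by exact_mod_cast card_RR_le w R)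

theorem nu_nonneg (w R : ℕ) (n : ℤ) : 0 ≤ nu w R n :=
  div_nonneg (sq_nonneg _) (MBasic_Gs_nonneg w R)

lemma MBasic_abs_Lam_le (w R : ℕ) (n : ℤ) : |Lam w R n| ≤ R := by
  have h : ∑ S ∈ RR w R, |∏ p ∈ S, hh (p : ℕ) (((p : ℕ) : ℤ) ∣ n)| ≤ #(RR w R) • (1 : ℝ) := by
    refine sum_le_card_nsmul _ _ _ fun S _ => ?_
    rw [abs_prod]
    exact prod_le_one (fun p _ => abs_nonneg _) fun p _ => abs_hh_le (MBasic_two_le p) _
  rw [nsmul_eq_mul, mul_one] at h
  exact (abs_sum_le_sum_abs _ _).trans (h.trans (by exact_mod_cast card_RR_le w R))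

theorem nu_le (w R : ℕ) (n : ℤ) : nu w R n ≤ (R : ℝ) ^ 2 := by
  have h : Lam w R n ^ 2 ≤ (R : ℝ) ^ 2 := by
    rw [← sq_abs]
    exact pow_le_pow_left₀ (abs_nonneg _) (MBasic_abs_Lam_le w R n) 2
  rcases Nat.eq_zero_or_pos R with h0 | h0
  · subst h0
    have : Lam w 0 n ^ 2 = 0 := le_antisymm (by simpa using h) (sq_nonneg _)
    simp [nu, this]
  · exact (div_le_self (sq_nonneg _) (one_le_Gs h0)).trans h

theorem nu_prime {q : ℕ} (hq : q.Prime) (h : R < q) : nu w R q = Gs w R := by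
  have hL : Lam w R q = Gs w R := by
    refine sum_congr rfl fun S _ => prod_congr rfl fun p _ => ?_
    have : ¬ ((p : ℕ) : ℤ) ∣ (q : ℤ) := by
      rw [Int.natCast_dvd_natCast, Nat.prime_dvd_prime_iff_eq (MBasic_prime p) hq]
      intro e
      have := MBasic_le p
      omega
    simp [hh, this]
  rw [nu, hL, sq, mul_self_div_self]

end Pool.Agent.GT
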