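import Pool.Agent.GT.Maj

/-!
The linear forms estimate in the product model.
-/

open scoped BigOperators Classical
open Finset Function

noncomputable section

namespace Pool.Agent.GT

/-- The local weights: uniform on S and the sieve weights off S. -/
def MCore_lam {P : Type} (q : P → ℝ) (S : Finset P) (p : P) (b : Bool) : ℝ :=
  if p ∈ S then 1 / 2 else if b then 1 / q p else 1 - 1 / q p

/-- The local factor of the second moment. -/
def MCore_loc {P : Type} (q : P → ℝ) (S S₁ S₂ : Finset P) (p : P) : ℝ :=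
  ∑ b : Bool, MCore_lam q S p b * ((if p ∈ S₁ then hh (q p) (b = true) else 1) *
    (if p ∈ S₂ then hh (q p) (b = true) else 1))

lemma MCore_factor {I P : Type} [Fintype I] [DecidableEq I] [Fintype P] [DecidableEq P]
    (lam : P → Bool → ℝ) (f : (P → Bool) → ℝ) :
    ∑ ω : P → I → Bool, (∏ p, ∏ i, lam p (ω p i)) * ∏ i, f (fun p => ω p i) =
      (∑ b : P → Bool, (∏ p, lam p (b p)) * f b) ^ Fintype.card I := by
  have h1 : (∑ b : P → Bool, (∏ p, lam p (b p)) * f b) ^ Fintype.card I =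
      ∏ _i : I, ∑ b : P → Bool, (∏ p, lam p (b p)) * f b := by simp
  rw [h1, Fintype.prod_sum]
  refine Fintype.sum_equiv (Equiv.piComm fun _ _ => Bool) _ _ fun ω => ?_
  rw [prod_comm, ← prod_mul_distrib]
  rfl

lemma MCore_hh_abs {q : ℝ} (hq : 2 ≤ q) (b : Prop) : |hh q b| ≤ 1 := by
  unfold hh
  split_ifs
  · simp
  · have : 0 < q - 1 := by linarith
    rw [abs_of_pos (by positivity), div_le_one this]; linarith

lemma MCore_E {P : Type} [Fintype P] [DecidableEq P] (q : P → ℝ) (𝓡 : Finset (Finset P))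
    (S : Finset P) :
    ∑ b : P → Bool, (∏ p, MCore_lam q S p (b p)) *
        (∑ T ∈ 𝓡, ∏ p ∈ T, hh (q p) (b p = true)) ^ 2 =
      ∑ S₁ ∈ 𝓡, ∑ S₂ ∈ 𝓡, ∏ p, MCore_loc q S S₁ S₂ p := by
  have h : ∀ (T : Finset P) (b : P → Bool), ∏ p ∈ T, hh (q p) (b p = true) =
      ∏ p, if p ∈ T then hh (q p) (b p = true) else 1 := fun T b => by
    rw [prod_ite_mem, univ_inter]
  simp only [sq, sum_mul_sum]
  simp only [mul_sum]
  rw [sum_comm]
  refine sum_congr rfl fun S₁ _ => ?_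
  rw [sum_comm]
  refine sum_congr rfl fun S₂ _ => ?_
  simp only [MCore_loc]
  rw [Fintype.prod_sum]
  refine sum_congr rfl fun b _ => ?_
  rw [h S₁, h S₂, ← prod_mul_distrib, ← prod_mul_distrib]
  refine prod_congr rfl fun p _ => ?_
  congr

lemma MCore_loc_on {P : Type} {q : P → ℝ} (hq : ∀ p, 2 ≤ q p) {S : Finset P} (S₁ S₂ : Finset P)
    {p : P} (hp : p ∈ S) : |MCore_loc q S S₁ S₂ p| ≤ 1 := by
  have h : ∀ (T : Finset P) (b : Bool), |if p ∈ T then hh (q p) (b = true) else 1| ≤ 1 :=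
    fun T b => by
      split_ifs
      · exact MCore_hh_abs (hq p) _
      · simp
  unfold MCore_loc
  refine (abs_sum_le_sum_abs _ _).trans ?_
  calc _ ≤ ∑ _b : Bool, (1 / 2 : ℝ) := sum_le_sum fun b _ => by
        rw [MCore_lam, if_pos hp, abs_mul, abs_mul, abs_of_pos (by norm_num : (0 : ℝ) < 1 / 2)]
        exact mul_le_of_le_one_right (by norm_num)
          (mul_le_one₀ (h S₁ b) (abs_nonneg _) (h S₂ b))
    _ = 1 := by simp

lemma MCore_loc_off {P : Type} {q : P → ℝ} (hq : ∀ p, 2 ≤ q p) {S : Finset P} (S₁ S₂ : Finset P)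
    {p : P} (hp : p ∉ S) : MCore_loc q S S₁ S₂ p =
      if (p ∈ S₁ ↔ p ∈ S₂) then (if p ∈ S₁ then 1 / (q p - 1) else 1) else 0 := by
  have h1 : q p ≠ 0 := by linarith [hq p]
  have h2 : q p - 1 ≠ 0 := by linarith [hq p]
  by_cases a : p ∈ S₁ <;> by_cases b : p ∈ S₂ <;> simp [MCore_loc, MCore_lam, hh, hp, a, b]
  · field_simp; ring
  · field_simp; ring
  · field_simp; ring

lemma MCore_prod_off {P : Type} [Fintype P] [DecidableEq P] {q : P → ℝ} (hq : ∀ p, 2 ≤ q p)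
    (S S₁ S₂ : Finset P) : ∏ p ∈ univ \ S, MCore_loc q S S₁ S₂ p =
      if S₂ \ S = S₁ \ S then ∏ p ∈ S₁ \ S, 1 / (q p - 1) else 0 := by
  rw [prod_congr rfl fun p hp => MCore_loc_off hq S₁ S₂ (mem_sdiff.1 hp).2]
  split_ifs with h
  · have h' : ∀ p ∈ univ \ S, (p ∈ S₁ ↔ p ∈ S₂) := fun p hp => by
      have := (Finset.ext_iff.1 h) p
      simp only [mem_sdiff, (mem_sdiff.1 hp).2, not_false_eq_true, and_true] at this
      exact this.symm
    have : S₁ \ S = (univ \ S).filter (· ∈ S₁) := by ext p; simp [and_comm]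
    rw [this, prod_filter]
    refine prod_congr rfl fun p hp => ?_
    rw [if_pos (h' p hp)]
    congr
  · have : ∃ p ∈ univ \ S, ¬ (p ∈ S₁ ↔ p ∈ S₂) := by
      by_contra hc
      refine h (Finset.ext fun p => ?_)
      by_cases hp : p ∈ S
      · simp [hp]
      · have : p ∈ S₁ ↔ p ∈ S₂ := by
          by_contra h2
          exact hc ⟨p, by simp [hp], h2⟩
        simp [this]
    obtain ⟨p, hp, h2⟩ := this
    exact prod_eq_zero hp (if_neg h2)

lemma MCore_card {P : Type} [DecidableEq P] (𝓡 : Finset (Finset P)) (S T : Finset P) :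
    ((𝓡.filter fun U => U \ S = T).card : ℝ) ≤ 2 ^ S.card := by
  have : (𝓡.filter fun U => U \ S = T).card ≤ S.powerset.card := by
    refine card_le_card_of_injOn (fun U => U ∩ S) (fun U _ => by simp) fun U hU V hV h => ?_
    have hU' := (mem_filter.1 hU).2
    have hV' := (mem_filter.1 hV).2
    have h' : U ∩ S = V ∩ S := h
    rw [← sdiff_union_inter U S, ← sdiff_union_inter V S, hU', hV', h']
  rw [card_powerset] at this
  exact_mod_cast this

lemma MCore_E_le {P : Type} [Fintype P] [DecidableEq P] {q : P → ℝ} (hq : ∀ p, 2 ≤ q p)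
    {𝓡 : Finset (Finset P)} (hd : ∀ S ∈ 𝓡, ∀ T ⊆ S, T ∈ 𝓡) (S : Finset P) :
    ∑ S₁ ∈ 𝓡, ∑ S₂ ∈ 𝓡, ∏ p, MCore_loc q S S₁ S₂ p ≤
      4 ^ S.card * ∑ T ∈ 𝓡, ∏ p ∈ T, 1 / (q p - 1) := by
  have w0 : ∀ T : Finset P, 0 ≤ ∏ p ∈ T, 1 / (q p - 1) := fun T =>
    prod_nonneg fun p _ => by have := hq p; apply div_nonneg <;> linarith
  have h1 : ∀ S₁ S₂ : Finset P, ∏ p, MCore_loc q S S₁ S₂ p ≤
      if S₂ \ S = S₁ \ S then ∏ p ∈ S₁ \ S, 1 / (q p - 1) else 0 := fun S₁ S₂ => by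
    rw [← prod_sdiff (subset_univ S), MCore_prod_off hq]
    refine mul_le_of_le_one_right (by split_ifs; exacts [w0 _, le_rfl]) ?_
    refine (le_abs_self _).trans ?_
    rw [abs_prod]
    exact prod_le_one (fun _ _ => abs_nonneg _) fun p hp => MCore_loc_on hq S₁ S₂ hp
  have h2 : ∀ S₁ : Finset P, ∑ S₂ ∈ 𝓡, ∏ p, MCore_loc q S S₁ S₂ p ≤
      2 ^ S.card * ∏ p ∈ S₁ \ S, 1 / (q p - 1) := fun S₁ => by
    refine (sum_le_sum fun S₂ _ => h1 S₁ S₂).trans ?_
    rw [← sum_filter, sum_const, nsmul_eq_mul]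
    exact mul_le_mul_of_nonneg_right (MCore_card _ _ _) (w0 _)
  refine (sum_le_sum fun S₁ _ => h2 S₁).trans ?_
  rw [← mul_sum, ← sum_fiberwise_of_maps_to (s := 𝓡) (t := 𝓡) (g := fun U => U \ S)
    fun U hU => hd U hU _ sdiff_subset]
  have h4 : (4 : ℝ) ^ S.card = 2 ^ S.card * 2 ^ S.card := by rw [← mul_pow]; norm_num
  rw [h4, mul_assoc]
  refine mul_le_mul_of_nonneg_left ?_ (by positivity)
  rw [mul_sum]
  refine sum_le_sum fun T _ => ?_
  rw [sum_congr rfl (g := fun _ => ∏ p ∈ T, 1 / (q p - 1)) fun U hU => by rw [(mem_filter.1 hU).2],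
    sum_const, nsmul_eq_mul]
  exact mul_le_mul_of_nonneg_right (MCore_card _ _ _) (w0 _)

lemma MCore_E_empty {P : Type} [Fintype P] [DecidableEq P] {q : P → ℝ} (hq : ∀ p, 2 ≤ q p)
    (𝓡 : Finset (Finset P)) :
    ∑ S₁ ∈ 𝓡, ∑ S₂ ∈ 𝓡, ∏ p, MCore_loc q ∅ S₁ S₂ p = ∑ T ∈ 𝓡, ∏ p ∈ T, 1 / (q p - 1) := by
  refine sum_congr rfl fun S₁ h₁ => ?_
  have h : ∀ S₂ : Finset P, ∏ p, MCore_loc q ∅ S₁ S₂ p =
      if S₂ = S₁ then ∏ p ∈ S₁, 1 / (q p - 1) else 0 := fun S₂ => by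
    simpa using MCore_prod_off hq ∅ S₁ S₂
  simp only [h]
  rw [sum_ite_eq', if_pos h₁]

theorem core {I P : Type} [Fintype I] [DecidableEq I] [Fintype P] [DecidableEq P] (q : P → ℝ)
    (hq : ∀ p, 2 ≤ q p) (𝓡 : Finset (Finset P)) (h0 : ∅ ∈ 𝓡) (hd : ∀ S ∈ 𝓡, ∀ T ⊆ S, T ∈ 𝓡)
    (μ : P → (I → Bool) → ℝ) (Δ : P → ℝ)
    (hμ : ∀ p T, |μ p T - ∏ i, (if T i then 1 / q p else 1 - 1 / q p)| ≤ Δ p) :
    |∑ ω : P → I → Bool, (∏ p, μ p (ω p)) *
        ∏ i, ((∑ S ∈ 𝓡, ∏ p ∈ S, hh (q p) (ω p i = true)) ^ 2 / ∑ S ∈ 𝓡, ∏ p ∈ S, 1 / (q p - 1)) -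
      1| ≤ ∏ p, (1 + 8 ^ Fintype.card I * Δ p) - 1 := by
  set G : ℝ := ∑ S ∈ 𝓡, ∏ p ∈ S, 1 / (q p - 1) with hG
  set m := Fintype.card I with hm
  have w0 : ∀ T : Finset P, 0 ≤ ∏ p ∈ T, 1 / (q p - 1) := fun T =>
    prod_nonneg fun p _ => by have := hq p; apply div_nonneg <;> linarith
  have G0 : 0 < G := by
    have := single_le_sum (f := fun T : Finset P => ∏ p ∈ T, 1 / (q p - 1)) (fun T _ => w0 T) h0
    simp only [prod_empty] at this
    linarith
  let f : (P → Bool) → ℝ := fun b => (∑ S ∈ 𝓡, ∏ p ∈ S, hh (q p) (b p = true)) ^ 2 / G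
  have f0 : ∀ b, 0 ≤ f b := fun b => div_nonneg (sq_nonneg _) G0.le
  let n : P → (I → Bool) → ℝ := fun p T => ∏ i, (if T i then 1 / q p else 1 - 1 / q p)
  have n0 : ∀ p T, 0 ≤ n p T := fun p T => prod_nonneg fun i _ => by
    have := hq p
    have h1 : 0 < q p := by linarith
    split_ifs
    · positivity
    · rw [sub_nonneg, div_le_one h1]; linarith
  have Δ0 : ∀ p, 0 ≤ Δ p := fun p => (abs_nonneg _).trans (hμ p fun _ => true)
  have key : ∀ S : Finset P, ∑ ω : P → I → Bool, (∏ p, ∏ i, MCore_lam q S p (ω p i)) *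
      ∏ i, f (fun p => ω p i) = ((∑ S₁ ∈ 𝓡, ∑ S₂ ∈ 𝓡, ∏ p, MCore_loc q S S₁ S₂ p) / G) ^ m :=
    fun S => by
      rw [MCore_factor, ← MCore_E, sum_div]
      simp only [f, mul_div_assoc, hm]
  let t : Finset P → ℝ := fun S => ∑ ω : P → I → Bool,
    ((∏ p ∈ S, (μ p (ω p) - n p (ω p))) * ∏ p ∈ univ \ S, n p (ω p)) * ∏ i, f (fun p => ω p i)
  have e1 : ∑ ω : P → I → Bool, (∏ p, μ p (ω p)) * ∏ i, f (fun p => ω p i) =
      ∑ S ∈ (univ : Finset P).powerset, t S := by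
    simp only [t]
    rw [sum_comm]
    refine sum_congr rfl fun ω _ => ?_
    rw [← sum_mul, ← prod_add]
    simp
  have e2 : t ∅ = 1 := by
    have := key ∅
    rw [MCore_E_empty hq, ← hG, div_self G0.ne', one_pow] at this
    rw [← this]
    simp [t, n, MCore_lam]
  have e3 : ∀ S : Finset P, |t S| ≤ ∏ p ∈ S, (8 ^ m * Δ p) := fun S => by
    have a1 : ∀ ω : P → I → Bool,
        |((∏ p ∈ S, (μ p (ω p) - n p (ω p))) * ∏ p ∈ univ \ S, n p (ω p)) *
          ∏ i, f (fun p => ω p i)| ≤ (∏ p ∈ S, (2 ^ m * Δ p)) *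
            ((∏ p, ∏ i, MCore_lam q S p (ω p i)) * ∏ i, f (fun p => ω p i)) := fun ω => by
      have F0 : 0 ≤ ∏ i, f (fun p => ω p i) := prod_nonneg fun i _ => f0 _
      have N0 : 0 ≤ ∏ p ∈ univ \ S, n p (ω p) := prod_nonneg fun p _ => n0 _ _
      rw [abs_mul, abs_mul, abs_of_nonneg F0, abs_of_nonneg N0, ← mul_assoc,
        ← prod_sdiff (subset_univ S)]
      refine mul_le_mul_of_nonneg_right ?_ F0
      have b1 : ∏ p ∈ univ \ S, ∏ i, MCore_lam q S p (ω p i) = ∏ p ∈ univ \ S, n p (ω p) :=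
        prod_congr rfl fun p hp => by simp only [MCore_lam, if_neg (mem_sdiff.1 hp).2, n]
      have b2 : (∏ p ∈ S, (2 ^ m * Δ p)) * ∏ p ∈ S, ∏ i, MCore_lam q S p (ω p i) =
          ∏ p ∈ S, Δ p := by
        rw [← prod_mul_distrib]
        refine prod_congr rfl fun p hp => ?_
        simp only [MCore_lam, if_pos hp, prod_const, card_univ, ← hm]
        rw [mul_right_comm, ← mul_pow]; norm_num
      rw [b1, mul_comm (∏ p ∈ univ \ S, n p (ω p)), ← mul_assoc, b2]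
      refine mul_le_mul_of_nonneg_right ?_ N0
      rw [abs_prod]
      exact prod_le_prod (fun _ _ => abs_nonneg _) fun p _ => hμ p _
    refine (abs_sum_le_sum_abs _ _).trans ((sum_le_sum fun ω _ => a1 ω).trans ?_)
    rw [← mul_sum, key]
    have c0 : 0 ≤ (∑ S₁ ∈ 𝓡, ∑ S₂ ∈ 𝓡, ∏ p, MCore_loc q S S₁ S₂ p) / G := by
      refine div_nonneg ?_ G0.le
      rw [← MCore_E]
      refine sum_nonneg fun b _ => mul_nonneg (prod_nonneg fun p _ => ?_) (sq_nonneg _)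
      have := hq p
      have h1 : 0 < q p := by linarith
      unfold MCore_lam
      split_ifs
      · norm_num
      · positivity
      · rw [sub_nonneg, div_le_one h1]; linarith
    have c1 : (∑ S₁ ∈ 𝓡, ∑ S₂ ∈ 𝓡, ∏ p, MCore_loc q S S₁ S₂ p) / G ≤ 4 ^ S.card := by
      rw [div_le_iff₀ G0]; exact MCore_E_le hq hd S
    refine (mul_le_mul_of_nonneg_left (pow_le_pow_left₀ c0 c1 m)
      (prod_nonneg fun p _ => mul_nonneg (by positivity) (Δ0 p))).trans (le_of_eq ?_)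
    rw [← pow_mul, mul_comm S.card, pow_mul, ← prod_const, ← prod_mul_distrib]
    refine prod_congr rfl fun p _ => ?_
    rw [mul_right_comm, ← mul_pow]; norm_num
  have e0 : (∅ : Finset P) ∈ (univ : Finset P).powerset := by simp
  change |∑ ω : P → I → Bool, (∏ p, μ p (ω p)) * ∏ i, f (fun p => ω p i) - 1| ≤ _
  rw [e1, prod_one_add, ← add_sum_erase _ _ e0, ← add_sum_erase _ _ e0, e2, prod_empty,
    add_sub_cancel_left, add_sub_cancel_left]
  exact (abs_sum_le_sum_abs _ _).trans (sum_le_sum fun S _ => e3 S)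

end Pool.Agent.GT
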