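import Pool.Agent.GT.Maj

/-!
Local densities of patterns of linear forms.
-/

open scoped BigOperators Classical
open Finset Function

noncomputable section

namespace Pool.Agent.GT

lemma MLocal_pow_le {x : ℝ} (h0 : 0 ≤ x) (h1 : x ≤ 1) (m : ℕ) :
    (1 - x) ^ m ≤ 1 - m * x + (m : ℝ) ^ 2 * x ^ 2 := by
  induction m with
  | zero => simp
  | succ m ih =>
    rw [pow_succ]
    have h2 := mul_le_mul_of_nonneg_right ih (sub_nonneg.2 h1)
    have h3 : (0 : ℝ) ≤ m := Nat.cast_nonneg m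
    have h4 : 0 ≤ (m : ℝ) ^ 2 * x ^ 3 := by positivity
    have h5 : 0 ≤ ((m : ℝ) + 1) * x ^ 2 := by positivity
    push_cast
    nlinarith

lemma MLocal_le_pow {x : ℝ} (h1 : x ≤ 1) (m : ℕ) : 1 - m * x ≤ (1 - x) ^ m := by
  have := one_add_mul_le_pow (a := -x) (by linarith) m
  simpa [sub_eq_add_neg] using this

theorem pattern_close {Ω I : Type} [Finite Ω] [Nonempty Ω] [Fintype I] (A : I → Ω → Prop) {q : ℝ}
    (hq : 2 ≤ q) (h1 : ∀ i, pr (A i) = 1 / q)
    (h2 : ∀ i j, i ≠ j → pr (fun x => A i x ∧ A j x) ≤ 1 / q ^ 2) (T : I → Bool) :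
    |pr (fun x => ∀ i, (A i x ↔ T i = true)) - ∏ i, (if T i then 1 / q else 1 - 1 / q)| ≤
      4 ^ Fintype.card I / q ^ 2 := by
  set m := Fintype.card I with hm
  set y : ℝ := 1 / q with hy
  have y0 : 0 ≤ y := by positivity
  have y1 : y ≤ 1 := by rw [hy, div_le_one (by linarith)]; linarith
  have hy2 : 1 / q ^ 2 = y ^ 2 := by rw [hy]; field_simp
  have hm2 : (m : ℝ) ≤ 2 ^ m := by exact_mod_cast (Nat.lt_two_pow_self (n := m)).le
  have hm1 : (1 : ℝ) ≤ 2 ^ m := one_le_pow₀ (by norm_num)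
  have h4 : (4 : ℝ) ^ m = 2 ^ m * 2 ^ m := by rw [← mul_pow]; norm_num
  have m0 : (0 : ℝ) ≤ m := Nat.cast_nonneg m
  have b1 : (1 : ℝ) ≤ 4 ^ m := by nlinarith
  have b2 : (m : ℝ) ≤ 4 ^ m := by nlinarith
  have b3 : (m : ℝ) ^ 2 ≤ 4 ^ m := by nlinarith
  have yy : 0 ≤ y ^ 2 := sq_nonneg y
  rw [div_eq_mul_one_div, hy2]
  rw [hy2] at h2
  have p0 := pr_nonneg (fun x => ∀ i, (A i x ↔ T i = true))
  by_cases hT : ∃ i, T i = true
  · obtain ⟨i, hi⟩ := hT
    rw [← mul_prod_erase _ _ (mem_univ i), if_pos hi]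
    have f0 : ∀ j, 0 ≤ (if T j then y else 1 - y) := fun j => by split_ifs <;> linarith
    have f1 : ∀ j, (if T j then y else 1 - y) ≤ 1 := fun j => by split_ifs <;> linarith
    by_cases hT2 : ∃ j, j ≠ i ∧ T j = true
    · obtain ⟨j, hji, hj⟩ := hT2
      rw [← mul_prod_erase _ _ (mem_erase.2 ⟨hji, mem_univ j⟩), if_pos hj]
      have g0 : 0 ≤ ∏ k ∈ (univ.erase i).erase j, (if T k then y else 1 - y) :=
        prod_nonneg fun k _ => f0 k
      have g1 : ∏ k ∈ (univ.erase i).erase j, (if T k then y else 1 - y) ≤ 1 :=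
        prod_le_one (fun k _ => f0 k) fun k _ => f1 k
      have p1 : pr (fun x => ∀ i, (A i x ↔ T i = true)) ≤ y ^ 2 :=
        (pr_mono fun x hx => ⟨(hx i).2 hi, (hx j).2 hj⟩).trans (h2 i j hji.symm)
      rw [abs_le]
      constructor <;> nlinarith
    · push Not at hT2
      rw [prod_congr rfl (g := fun _ => 1 - y) fun j hj => if_neg (hT2 j (mem_erase.1 hj).1),
        prod_const]
      have c1 : ((univ.erase i).card : ℝ) ≤ m := by exact_mod_cast card_le_univ _
      have g1 := MLocal_le_pow y1 (univ.erase i).card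
      have g2 : (1 - y) ^ (univ.erase i).card ≤ 1 := pow_le_one₀ (by linarith) (by linarith)
      have p1 : pr (fun x => ∀ i, (A i x ↔ T i = true)) ≤ y :=
        (pr_mono fun x hx => (hx i).2 hi).trans (h1 i).le
      have p2 : y ≤ pr (fun x => ∀ i, (A i x ↔ T i = true)) + (univ.erase i).card * y ^ 2 := by
        refine (h1 i).symm.le.trans <| le_trans (pr_mono (Q := fun x => (∀ i, (A i x ↔ T i = true)) ∨
          ∃ j ∈ univ.erase i, A i x ∧ A j x) fun x hx => ?_) ((pr_or_le _ _).trans ?_)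
        · by_cases h : ∃ j ∈ univ.erase i, A i x ∧ A j x
          · exact Or.inr h
          · refine Or.inl fun j => ?_
            by_cases hj : j = i
            · rw [hj]; exact ⟨fun _ => hi, fun _ => hx⟩
            · exact ⟨fun h' => absurd ⟨j, mem_erase.2 ⟨hj, mem_univ j⟩, hx, h'⟩ h,
                fun h' => absurd h' (hT2 j hj)⟩
        · gcongr
          refine (pr_exists_le _ _).trans ?_
          rw [← nsmul_eq_mul]
          exact sum_le_card_nsmul _ _ _ fun j hj => h2 i j (mem_erase.1 hj).1.symm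
      have e1 := mul_le_mul_of_nonneg_left g1 y0
      have e2 := mul_le_mul_of_nonneg_left g2 y0
      have e3 := mul_le_mul_of_nonneg_right (c1.trans b2) yy
      rw [abs_le]
      constructor <;> nlinarith
  · push Not at hT
    rw [prod_congr rfl (g := fun _ => 1 - y) fun j _ => if_neg (hT j), prod_const, card_univ, ← hm]
    have g1 := MLocal_le_pow y1 m
    have g2 := MLocal_pow_le y0 y1 m
    have hP : ∀ x, (∀ i, (A i x ↔ T i = true)) ↔ ¬ ∃ i ∈ (univ : Finset I), A i x := fun x => by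
      simp [hT]
    rw [pr_congr hP]
    have p1 : 1 - m * y ≤ pr fun x => ¬ ∃ i ∈ (univ : Finset I), A i x := by
      rw [pr_not]
      have := pr_exists_le univ A
      simp only [h1, sum_const, card_univ, nsmul_eq_mul] at this
      linarith
    have p2 : (pr fun x => ¬ ∃ i ∈ (univ : Finset I), A i x) ≤ 1 - m * y + (m : ℝ) ^ 2 * y ^ 2 := by
      have h5 : (pr fun x => ¬ ∃ i ∈ (univ : Finset I), A i x) ≤ av fun x =>
          1 - ∑ i, ind (A i x) + ∑ i, ∑ j ∈ univ.erase i, ind (A i x ∧ A j x) := by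
        refine av_mono fun x => ?_
        have e : ∑ i, ∑ j ∈ univ.erase i, ind (A i x ∧ A j x) =
            (∑ i, ind (A i x)) ^ 2 - ∑ i, ind (A i x) := by
          rw [sq, sum_mul_sum, ← sum_sub_distrib]
          refine sum_congr rfl fun i _ => ?_
          rw [← add_sum_erase _ _ (mem_univ i), ind_mul_self]
          simp [ind_and]
        rw [e]
        by_cases h : ∃ i ∈ (univ : Finset I), A i x
        · rw [ind_of_not (not_not.2 h)]
          nlinarith [sq_nonneg (∑ i, ind (A i x) - 1)]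
        · rw [ind_of h, sum_eq_zero fun i hi => ind_of_not fun h' => h ⟨i, hi, h'⟩]
          simp
      refine h5.trans ?_
      simp only [av_add, av_sub, av_sum, av_const]
      have e1 : ∑ i, av (fun x => ind (A i x)) = m * y := by
        refine (sum_congr rfl fun i _ => h1 i).trans ?_
        simp [hm]
      have e2 : ∑ i, ∑ j ∈ univ.erase i, av (fun x => ind (A i x ∧ A j x)) ≤
          (m : ℝ) ^ 2 * y ^ 2 := by
        refine (sum_le_card_nsmul _ _ (m * y ^ 2) fun i _ => ?_).trans (le_of_eq ?_)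
        · refine (sum_le_card_nsmul _ _ (y ^ 2) fun j hj => h2 i j (mem_erase.1 hj).1.symm).trans ?_
          rw [nsmul_eq_mul]
          exact mul_le_mul_of_nonneg_right (by exact_mod_cast card_le_univ _) yy
        · rw [nsmul_eq_mul, card_univ, ← hm]; ring
      linarith
    have e3 := mul_le_mul_of_nonneg_right b3 yy
    rw [abs_le]
    constructor <;> linarith

lemma MLocal_one {T : Type} [Fintype T] {p : ℕ} [Fact p.Prime] (c : T → ZMod p) (W b : ZMod p)
    (hW : W ≠ 0) (v : T) (hv : c v ≠ 0) (x : T → ZMod p) :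
    pr (fun t : ZMod p => W * ∑ u, c u * update x v t u + b = 0) = 1 / (p : ℝ) := by
  have e : ∀ t, ∑ u, c u * update x v t u = c v * t + ∑ u ∈ univ.erase v, c u * x u := fun t => by
    rw [← add_sum_erase _ _ (mem_univ v), update_self]
    congr 1
    exact sum_congr rfl fun u hu => by rw [update_of_ne (mem_erase.1 hu).1]
  rw [pr_congr (Q := fun t => t = -(W * ∑ u ∈ univ.erase v, c u * x u + b) / (W * c v)) fun t => by
    rw [e, eq_div_iff (mul_ne_zero hW hv)]
    constructor <;> intro h <;> linear_combination h, pr_eq_single, Nat.card_zmod]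

theorem forms_close {I T : Type} [Fintype I] [Fintype T] {c : I → T → ℤ} {K : ℕ} (hc : Sep c K)
    {p : ℕ} (hp : p.Prime) (hK : K < p) {W : ℤ} (hW : ¬ (p : ℤ) ∣ W) (b : I → ℤ) (s : I → Bool) :
    |pr (fun x : T → ZMod p => ∀ i,
        ((W : ZMod p) * ∑ v, (c i v : ZMod p) * x v + (b i : ZMod p) = 0 ↔ s i = true)) -
      ∏ i, (if s i then 1 / (p : ℝ) else 1 - 1 / (p : ℝ))| ≤ 4 ^ Fintype.card I / (p : ℝ) ^ 2 := by
  have := Fact.mk hp
  have hW' : (W : ZMod p) ≠ 0 := fun h => hW ((ZMod.intCast_zmod_eq_zero_iff_dvd W p).1 h)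
  have hcv : ∀ i v, c i v ≠ 0 → (c i v : ZMod p) ≠ 0 := fun i v h h' => by
    have h1 := Int.le_of_dvd (abs_pos.2 h)
      ((dvd_abs _ _).2 ((ZMod.intCast_zmod_eq_zero_iff_dvd _ p).1 h'))
    have h2 := hc.1 i v
    omega
  have h1 : ∀ i, pr (fun x : T → ZMod p =>
      (W : ZMod p) * ∑ v, (c i v : ZMod p) * x v + (b i : ZMod p) = 0) = 1 / (p : ℝ) := fun i => by
    obtain ⟨v, hv⟩ := hc.2.1 i
    rw [pr, av_update v]
    exact (av_congr fun x =>
      MLocal_one (fun u => (c i u : ZMod p)) W (b i) hW' v (hcv i v hv) x).trans (av_const _)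
  refine pattern_close (fun i (x : T → ZMod p) =>
    (W : ZMod p) * ∑ v, (c i v : ZMod p) * x v + (b i : ZMod p) = 0) (by exact_mod_cast hp.two_le)
    h1 (fun i j hij => le_of_eq ?_) s
  obtain ⟨v, hv, hv'⟩ := hc.2.2 i j hij
  rw [pr, av_update v]
  have e : ∀ (x : T → ZMod p) t, ∑ u, (c j u : ZMod p) * update x v t u =
      ∑ u, (c j u : ZMod p) * x u := fun x t => sum_congr rfl fun u _ => by
    by_cases h : u = v
    · simp [h, hv']
    · rw [update_of_ne h]
  simp only [ind_and, e, av_mul_const]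
  have h3 := fun x => MLocal_one (fun u => (c i u : ZMod p)) W (b i) hW' v (hcv i v hv) x
  have h4 := h1 j
  simp only [pr] at h3 h4
  simp only [h3, av_const_mul, h4]
  ring

theorem tail_small (C : ℝ) {ε : ℝ} (hε : 0 < ε) : ∃ w₀ : ℕ, ∀ w R : ℕ, w₀ ≤ w →
    ∏ p : PP w R, (1 + C / ((p : ℕ) : ℝ) ^ 2) - 1 ≤ ε := by
  have hl : 0 < Real.log (1 + ε) := Real.log_pos (by linarith)
  obtain ⟨w₀, hw₀⟩ := exists_nat_gt (|C| / Real.log (1 + ε))
  refine ⟨w₀ + 1, fun w R hw => ?_⟩
  have w1 : (w₀ : ℝ) + 1 ≤ w := by exact_mod_cast hw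
  have w0 : (0 : ℝ) < w := by linarith [Nat.cast_nonneg (α := ℝ) w₀]
  have h1 : ∏ p : PP w R, (1 + C / ((p : ℕ) : ℝ) ^ 2) ≤
      Real.exp (∑ p : PP w R, |C| * (((p : ℕ) : ℝ) ^ 2)⁻¹) := by
    rw [Real.exp_sum]
    refine (le_abs_self _).trans ?_
    rw [abs_prod]
    refine prod_le_prod (fun p _ => abs_nonneg _) fun p _ => ?_
    refine (abs_add_le _ _).trans ?_
    rw [abs_one, abs_div, abs_of_nonneg (sq_nonneg ((p : ℕ) : ℝ)), div_eq_mul_inv, add_comm]
    exact Real.add_one_le_exp _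
  have h2 : ∑ p : PP w R, (((p : ℕ) : ℝ) ^ 2)⁻¹ ≤ (w : ℝ)⁻¹ := by
    rw [sum_coe_sort (PP w R) fun p => ((p : ℝ) ^ 2)⁻¹]
    refine (sum_le_sum_of_subset_of_nonneg (filter_subset _ _) fun _ _ _ => by positivity).trans ?_
    rcases le_or_gt w R with h | h
    · refine (sum_Ioc_inv_sq_le_sub (by omega) h).trans ?_
      have : (0 : ℝ) ≤ (R : ℝ)⁻¹ := by positivity
      linarith
    · rw [Ioc_eq_empty (by omega), sum_empty]
      positivity
  have h3 : ∑ p : PP w R, |C| * (((p : ℕ) : ℝ) ^ 2)⁻¹ ≤ Real.log (1 + ε) := by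
    rw [← mul_sum]
    refine (mul_le_mul_of_nonneg_left h2 (abs_nonneg C)).trans ?_
    rw [div_lt_iff₀ hl] at hw₀
    rw [← div_eq_mul_inv, div_le_iff₀ w0]
    nlinarith
  have h4 := Real.exp_le_exp.2 h3
  rw [Real.exp_log (by linarith)] at h4
  linarith

end Pool.Agent.GT
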