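import Pool.Agent.GT.Basic

/-!
Averages of periodic functions over boxes, and the Chinese remainder theorem.
-/

open scoped BigOperators Classical
open Finset Function

noncomputable section

namespace Pool.Agent.GT

lemma MPer_av_fin (g : ℕ → ℝ) (H : ℕ) :
    av (fun h : Fin H => g h) = (∑ i ∈ range H, g i) / H := by
  rw [av_eq_sum, Fin.sum_univ_eq_sum_range, Fintype.card_fin]

lemma MPer_sum {g : ℕ → ℝ} {d : ℕ} (hg : ∀ n, g (d + n) = g n) (a r : ℕ) :
    ∑ i ∈ range (d * a + r), g i = a * ∑ i ∈ range d, g i + ∑ i ∈ range r, g i := by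
  induction a with
  | zero => simp
  | succ a ih =>
    rw [show d * (a + 1) + r = d + (d * a + r) by ring, sum_range_add]
    simp only [hg, ih]
    push_cast
    ring

lemma MPer_abs_sum {g : ℕ → ℝ} (h1 : ∀ n, |g n| ≤ 1) (r : ℕ) : |∑ i ∈ range r, g i| ≤ r := by
  refine (abs_sum_le_sum_abs _ _).trans ?_
  refine (sum_le_card_nsmul _ _ 1 fun i _ => h1 i).trans ?_
  simp

lemma MPer_one {g : ℕ → ℝ} {d D H : ℕ} (hD : 0 < D) (hd : d ∣ D) (hH : 0 < H)
    (h1 : ∀ n, |g n| ≤ 1) (hg : ∀ n, g (d + n) = g n) :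
    |av (fun h : Fin H => g h) - av fun h : Fin D => g h| ≤ 2 * d / H := by
  obtain ⟨b, rfl⟩ := hd
  have hd0 : 0 < d := Nat.pos_of_mul_pos_right hD
  have hb0 : 0 < b := Nat.pos_of_mul_pos_left hD
  have hdR : (0 : ℝ) < d := by exact_mod_cast hd0
  have hbR : (0 : ℝ) < b := by exact_mod_cast hb0
  have hHR : (0 : ℝ) < H := by exact_mod_cast hH
  rw [MPer_av_fin, MPer_av_fin]
  have e1 := MPer_sum hg b 0
  have e2 := MPer_sum hg (H / d) (H % d)
  rw [Nat.div_add_mod] at e2
  simp only [add_zero, range_zero, sum_empty] at e1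
  have hHe : (H : ℝ) = d * (H / d : ℕ) + (H % d : ℕ) := by
    exact_mod_cast (Nat.div_add_mod H d).symm
  have hr : ((H % d : ℕ) : ℝ) ≤ d := by exact_mod_cast (Nat.mod_lt H hd0).le
  have hr0 : (0 : ℝ) ≤ (H % d : ℕ) := Nat.cast_nonneg _
  have a1 := abs_le.1 (MPer_abs_sum h1 d)
  have a2 := abs_le.1 (MPer_abs_sum h1 (H % d))
  rw [e1, e2]
  set S := ∑ i ∈ range d, g i
  set R := ∑ i ∈ range (H % d), g i
  set a : ℝ := ((H / d : ℕ) : ℝ)
  set r : ℝ := ((H % d : ℕ) : ℝ)
  have e3 : (a * S + R) / H - b * S / ((d * b : ℕ) : ℝ) = (R - r * (S / d)) / H := by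
    push_cast
    field_simp
    rw [hHe]
    ring
  rw [e3, abs_div, abs_of_pos hHR]
  refine div_le_div_of_nonneg_right ?_ hHR.le
  have b1 : S / d ≤ 1 := by rw [div_le_one hdR]; exact a1.2
  have b2 : -1 ≤ S / d := by rw [le_div_iff₀ hdR]; linarith [a1.1]
  rw [abs_le]
  constructor <;> nlinarith

lemma MPer_box {d D H : ℕ} (hD : 0 < D) (hd : d ∣ D) (hH : 0 < H) (T : Type) [Finite T] :
    ∀ f : (T → ℤ) → ℝ, (∀ x, |f x| ≤ 1) →
      (∀ x y : T → ℤ, (∀ v, (d : ℤ) ∣ x v - y v) → f x = f y) →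
      |av (fun h : T → Fin H => f fun v => ((h v : ℕ) : ℤ)) -
        av fun h : T → Fin D => f fun v => ((h v : ℕ) : ℤ)| ≤ 2 * Nat.card T * d / H := by
  induction T using Finite.induction_empty_option with
  | @of_equiv α β e ih =>
    intro f h1 hf
    have := ih (fun x => f (x ∘ e.symm)) (fun x => h1 _)
      (fun x y h => hf _ _ fun v => h _)
    rw [← Nat.card_congr e, ← av_arrow_congr e.symm, ← av_arrow_congr (A := Fin D) e.symm]
    exact this
  | h_empty =>
    intro f _ _
    rw [av_unique, av_unique]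
    have : (fun v : PEmpty => (((default : PEmpty → Fin H) v : ℕ) : ℤ)) =
        fun v : PEmpty => (((default : PEmpty → Fin D) v : ℕ) : ℤ) := Subsingleton.elim _ _
    rw [this]
    simp
  | @h_option α _ ih =>
    intro f h1 hf
    have hHR : (0 : ℝ) < H := by exact_mod_cast hH
    rw [av_option_arrow, av_option_arrow]
    set G : ℕ → (α → ℤ) → ℝ := fun a x => f fun o => o.elim (a : ℤ) x with hG
    have eH : ∀ (K : ℕ) (a : Fin K) (x : α → Fin K),
        (f fun v => (((Option.elim v a x : Fin K) : ℕ) : ℤ)) =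
          G a fun v => ((x v : ℕ) : ℤ) := by
      intro K a x
      refine congrArg f ?_
      funext o
      cases o <;> rfl
    simp only [eH]
    have s1 : |(av fun a : Fin H => av fun x : α → Fin H => G a fun v => ((x v : ℕ) : ℤ)) -
        av fun a : Fin H => av fun x : α → Fin D => G a fun v => ((x v : ℕ) : ℤ)| ≤
        2 * Nat.card α * d / H := by
      refine abs_av_sub_le (by positivity) fun a => ih (G a) (fun x => h1 _) fun x y h => ?_
      refine hf _ _ fun o => ?_
      cases o with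
      | none => simp
      | some v => exact h v
    have s2 := MPer_one (g := fun a => av fun x : α → Fin D => G a fun v => ((x v : ℕ) : ℤ))
      hD hd hH (fun n => abs_av_le_const zero_le_one fun x => h1 _) (fun n => av_congr fun x => by
        refine hf _ _ fun o => ?_
        cases o with
        | none => simp
        | some v => simp)
    have hc : (Nat.card (Option α) : ℝ) = Nat.card α + 1 := by simp
    rw [hc]
    refine (abs_sub_le _ _ _).trans ((add_le_add s1 s2).trans (le_of_eq ?_))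
    ring

theorem box_periodic {T : Type} [Fintype T] (f : (T → ℤ) → ℝ) {d D H : ℕ} (hD : 0 < D)
    (hd : d ∣ D) (hH : 0 < H) (h1 : ∀ x, |f x| ≤ 1)
    (hf : ∀ x y : T → ℤ, (∀ v, (d : ℤ) ∣ x v - y v) → f x = f y) :
    |av (fun h : T → Fin H => f fun v => ((h v : ℕ) : ℤ)) -
      av fun h : T → Fin D => f fun v => ((h v : ℕ) : ℤ)| ≤ 2 * Fintype.card T * d / H := by
  rw [← Nat.card_eq_fintype_card]
  exact MPer_box hD hd hH T f h1 hf

theorem crt_av {T P : Type} [Finite T] [Fintype P] (q : P → ℕ) (hq : ∀ p, 0 < q p)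
    (hc : Pairwise fun p p' => Nat.Coprime (q p) (q p')) (F : (∀ p, T → ZMod (q p)) → ℝ) :
    av (fun x : T → Fin (∏ p, q p) => F fun p v => ((x v : ℕ) : ZMod (q p))) = av F := by
  have : ∀ p, NeZero (q p) := fun p => ⟨(hq p).ne'⟩
  cases nonempty_fintype T
  refine av_bij (e := fun (x : T → Fin (∏ p, q p)) p v => ((x v : ℕ) : ZMod (q p))) ?_ F
  rw [Fintype.bijective_iff_injective_and_card]
  constructor
  · intro x y h
    funext v
    have h2 : ∀ p, (q p : ℤ) ∣ ((y v : ℕ) : ℤ) - ((x v : ℕ) : ℤ) := fun p =>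
      (Nat.modEq_iff_dvd).1 ((ZMod.natCast_eq_natCast_iff _ _ _).1 (congrFun (congrFun h p) v))
    have h3 : (∏ p, (q p : ℤ)) ∣ ((y v : ℕ) : ℤ) - ((x v : ℕ) : ℤ) :=
      Fintype.prod_dvd_of_coprime (fun p p' hne => Nat.isCoprime_iff_coprime.2 (hc hne)) h2
    rw [← Nat.cast_prod] at h3
    exact Fin.ext (Nat.ModEq.eq_of_lt_of_lt (Nat.modEq_iff_dvd.2 h3) (x v).2 (y v).2)
  · simp [Fintype.card_pi, ZMod.card, prod_pow]

/-- The average of a function of independent finite-valued statistics. -/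
theorem av_patterns {P B : Type} [Fintype P] [DecidableEq P] [Fintype B] {A : P → Type}
    [∀ p, Finite (A p)] (s : ∀ p, A p → B) (F : (P → B) → ℝ) :
    av (fun z : ∀ p, A p => F fun p => s p (z p)) =
      ∑ ω : P → B, (∏ p, pr fun a => s p a = ω p) * F ω := by
  have e : ∀ z : ∀ p, A p, (F fun p => s p (z p)) =
      ∑ ω : P → B, (∏ p, ind (s p (z p) = ω p)) * F ω := by
    intro z
    rw [← sum_ind_eq (fun p => s p (z p)) F]
    refine sum_congr rfl fun ω _ => ?_
    rw [← ind_forall]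
    congr 1
    exact ind_congr (by simp [funext_iff])
  simp only [e]
  rw [av_sum]
  refine sum_congr rfl fun ω _ => ?_
  rw [av_mul_const, av_pi_prod (f := fun p a => ind (s p a = ω p))]
  rfl

end Pool.Agent.GT
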