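import Pool.Agent.GT.MBasic
import Pool.Agent.GT.MCore
import Pool.Agent.GT.MLocal
import Pool.Agent.GT.MPer

/-!
The linear forms estimate over a box.
-/

open scoped BigOperators Classical
open Finset Function

noncomputable section

namespace Pool.Agent.GT

lemma MBox_prime {w R : ℕ} (p : PP w R) : (p : ℕ).Prime := (mem_filter.1 p.2).2

lemma MBox_lt {w R : ℕ} (p : PP w R) : w < (p : ℕ) := (mem_Ioc.1 (mem_filter.1 p.2).1).1

lemma MBox_two {w R : ℕ} (p : PP w R) : (2 : ℝ) ≤ (p : ℕ) := by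
  exact_mod_cast (MBox_prime p).two_le

lemma MBox_union_le {α : Type} [DecidableEq α] (f : α → ℕ) (hf : ∀ a, 1 ≤ f a) (A B : Finset α) :
    ∏ a ∈ A ∪ B, f a ≤ (∏ a ∈ A, f a) * ∏ a ∈ B, f a := by
  rw [← prod_union_inter]
  exact Nat.le_mul_of_pos_right _ (prod_pos fun a _ => hf a)

lemma MBox_biUnion_le {α ι : Type} [DecidableEq α] (f : α → ℕ) (hf : ∀ a, 1 ≤ f a) (s : Finset ι)
    (A : ι → Finset α) : ∏ a ∈ s.biUnion A, f a ≤ ∏ i ∈ s, ∏ a ∈ A i, f a := by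
  induction s using Finset.induction_on with
  | empty => simp
  | insert i s hi ih =>
    rw [biUnion_insert, prod_insert hi]
    exact (MBox_union_le f hf _ _).trans (Nat.mul_le_mul_left _ ih)

/-- One term of the expansion of a product of majorants. -/
def MBox_term {w R : ℕ} {I : Type} [Fintype I] (σ : I → Finset (PP w R) × Finset (PP w R))
    (n : I → ℤ) : ℝ :=
  ∏ i, (∏ p ∈ (σ i).1, hh (p : ℕ) (((p : ℕ) : ℤ) ∣ n i)) *
    ∏ p ∈ (σ i).2, hh (p : ℕ) (((p : ℕ) : ℤ) ∣ n i)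

lemma MBox_expand (w R : ℕ) {I : Type} [Fintype I] (n : I → ℤ) :
    ∏ i, nu w R (n i) = (Gs w R ^ Fintype.card I)⁻¹ *
      ∑ σ ∈ Fintype.piFinset (fun _ : I => RR w R ×ˢ RR w R), MBox_term σ n := by
  simp only [nu]
  rw [prod_div_distrib, prod_const, card_univ, div_eq_inv_mul]
  congr 1
  simp only [MBox_term]
  rw [← prod_univ_sum (fun _ : I => RR w R ×ˢ RR w R)
    (fun i (s : Finset (PP w R) × Finset (PP w R)) =>
      (∏ p ∈ s.1, hh (p : ℕ) (((p : ℕ) : ℤ) ∣ n i)) *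
        ∏ p ∈ s.2, hh (p : ℕ) (((p : ℕ) : ℤ) ∣ n i))]
  refine prod_congr rfl fun i _ => ?_
  rw [Lam, sq, sum_mul_sum, sum_product]

lemma MBox_abs_prod {w R : ℕ} (S : Finset (PP w R)) (n : ℤ) :
    |∏ p ∈ S, hh (p : ℕ) (((p : ℕ) : ℤ) ∣ n)| ≤ 1 := by
  rw [abs_prod]
  exact prod_le_one (fun _ _ => abs_nonneg _) fun p _ => abs_hh_le (MBox_two p) _

lemma MBox_abs_term {w R : ℕ} {I : Type} [Fintype I] (σ : I → Finset (PP w R) × Finset (PP w R))
    (n : I → ℤ) : |MBox_term σ n| ≤ 1 := by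
  rw [MBox_term, abs_prod]
  refine prod_le_one (fun _ _ => abs_nonneg _) fun i _ => ?_
  rw [abs_mul]
  exact mul_le_one₀ (MBox_abs_prod _ _) (abs_nonneg _) (MBox_abs_prod _ _)

lemma MBox_term_congr {w R : ℕ} {I : Type} [Fintype I]
    (σ : I → Finset (PP w R) × Finset (PP w R)) {n n' : I → ℤ}
    (h : ∀ i, ∀ p ∈ (σ i).1 ∪ (σ i).2, ((p : ℕ) : ℤ) ∣ n i - n' i) :
    MBox_term σ n = MBox_term σ n' := by
  refine prod_congr rfl fun i _ => ?_
  congr 1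
  · exact prod_congr rfl fun p hp => by
      rw [dvd_iff_dvd_of_dvd_sub (h i p (mem_union_left _ hp))]
  · exact prod_congr rfl fun p hp => by
      rw [dvd_iff_dvd_of_dvd_sub (h i p (mem_union_right _ hp))]

lemma MBox_one {w R H : ℕ} (hH : 1 ≤ H) {I T : Type} [Fintype I] [Fintype T] (c : I → T → ℤ)
    (W : ℤ) (b : I → ℤ) {σ : I → Finset (PP w R) × Finset (PP w R)}
    (hσ : σ ∈ Fintype.piFinset fun _ : I => RR w R ×ˢ RR w R) :
    |av (fun h : T → Fin H => MBox_term σ fun i => W * ∑ v, c i v * ((h v : ℕ) : ℤ) + b i) -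
      av fun h : T → Fin (∏ p : PP w R, (p : ℕ)) =>
        MBox_term σ fun i => W * ∑ v, c i v * ((h v : ℕ) : ℤ) + b i| ≤
      2 * Fintype.card T * (R : ℝ) ^ (2 * Fintype.card I) / H := by
  set U : Finset (PP w R) := univ.biUnion fun i => (σ i).1 ∪ (σ i).2 with hU
  have one : ∀ p : PP w R, 1 ≤ (p : ℕ) := fun p => (MBox_prime p).one_le
  have hd : ∏ p ∈ U, (p : ℕ) ≤ R ^ (2 * Fintype.card I) := by
    refine (MBox_biUnion_le _ one _ _).trans ?_
    rw [pow_mul, ← card_univ, ← prod_const]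
    refine prod_le_prod' fun i _ => (MBox_union_le _ one _ _).trans ?_
    have := mem_product.1 (Fintype.mem_piFinset.1 hσ i)
    rw [sq]
    exact Nat.mul_le_mul (mem_filter.1 this.1).2 (mem_filter.1 this.2).2
  have key := box_periodic (T := T)
    (fun x => MBox_term σ fun i => W * ∑ v, c i v * x v + b i)
    (d := ∏ p ∈ U, (p : ℕ)) (D := ∏ p : PP w R, (p : ℕ)) (H := H)
    (prod_pos fun p _ => one p) (prod_dvd_prod_of_subset _ _ _ (subset_univ U)) hH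
    (fun x => MBox_abs_term _ _) (fun x y hxy => MBox_term_congr σ fun i p hp => by
      have hpU : p ∈ U := mem_biUnion.2 ⟨i, mem_univ _, hp⟩
      have h1 : ((p : ℕ) : ℤ) ∣ ((∏ p ∈ U, (p : ℕ) : ℕ) : ℤ) :=
        Int.natCast_dvd_natCast.2 (dvd_prod_of_mem (fun p : PP w R => (p : ℕ)) hpU)
      have e : W * ∑ v, c i v * x v + b i - (W * ∑ v, c i v * y v + b i) =
          W * ∑ v, c i v * (x v - y v) := by
        simp only [mul_sub, sum_sub_distrib]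
        ring
      rw [e]
      exact Dvd.dvd.mul_left (dvd_sum fun v _ => Dvd.dvd.mul_left (h1.trans (hxy v)) _) _)
  refine key.trans ?_
  have : ((∏ p ∈ U, (p : ℕ) : ℕ) : ℝ) ≤ (R : ℝ) ^ (2 * Fintype.card I) := by exact_mod_cast hd
  gcongr

lemma MBox_step1 {w R H m : ℕ} (hR : 1 ≤ R) (hH : 1 ≤ H) {I T : Type} [Fintype I] [Fintype T]
    (hm : Fintype.card I ≤ m) (c : I → T → ℤ) (W : ℤ) (b : I → ℤ) :
    |av (fun h : T → Fin H => ∏ i, nu w R (W * ∑ v, c i v * ((h v : ℕ) : ℤ) + b i)) -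
      av fun h : T → Fin (∏ p : PP w R, (p : ℕ)) =>
        ∏ i, nu w R (W * ∑ v, c i v * ((h v : ℕ) : ℤ) + b i)| ≤
      2 * Fintype.card T * (R : ℝ) ^ (4 * m) / H := by
  simp only [MBox_expand, av_const_mul, av_sum]
  rw [← mul_sub, ← sum_sub_distrib, abs_mul]
  have hG := one_le_Gs (w := w) hR
  have h1 : |(Gs w R ^ Fintype.card I)⁻¹| ≤ 1 := by
    rw [abs_of_nonneg (by positivity)]
    exact inv_le_one_of_one_le₀ (one_le_pow₀ hG)
  refine (mul_le_of_le_one_left (abs_nonneg _) h1).trans ((abs_sum_le_sum_abs _ _).trans ?_)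
  refine (sum_le_card_nsmul _ _ _ fun σ hσ => MBox_one hH c W b hσ).trans ?_
  rw [nsmul_eq_mul, Fintype.card_piFinset, prod_const, card_univ, card_product]
  have h2 : (((#(RR w R) * #(RR w R)) ^ Fintype.card I : ℕ) : ℝ) ≤
      (R : ℝ) ^ (2 * Fintype.card I) := by
    have : (#(RR w R) * #(RR w R)) ^ Fintype.card I ≤ R ^ (2 * Fintype.card I) := by
      rw [pow_mul, sq]
      exact Nat.pow_le_pow_left (Nat.mul_le_mul (card_RR_le w R) (card_RR_le w R)) _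
    exact_mod_cast this
  have hR' : (1 : ℝ) ≤ R := by exact_mod_cast hR
  have h3 : (R : ℝ) ^ (2 * Fintype.card I) * (R : ℝ) ^ (2 * Fintype.card I) ≤ (R : ℝ) ^ (4 * m) := by
    rw [← pow_add]
    exact pow_le_pow_right₀ hR' (by omega)
  calc _ ≤ (R : ℝ) ^ (2 * Fintype.card I) *
        (2 * Fintype.card T * (R : ℝ) ^ (2 * Fintype.card I) / H) := by gcongr
    _ = 2 * Fintype.card T * ((R : ℝ) ^ (2 * Fintype.card I) * (R : ℝ) ^ (2 * Fintype.card I)) / H := by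
      ring
    _ ≤ _ := by gcongr

/-- The pattern of vanishing of the forms modulo q. -/
def MBox_pat {I T : Type} [Fintype T] (c : I → T → ℤ) (W : ℤ) (b : I → ℤ) (q : ℕ)
    (z : T → ZMod q) : I → Bool :=
  fun i => decide ((W : ZMod q) * ∑ v, (c i v : ZMod q) * z v + (b i : ZMod q) = 0)

lemma MBox_pat_iff {I T : Type} [Fintype T] (c : I → T → ℤ) (W : ℤ) (b : I → ℤ) (q : ℕ)
    (x : T → ℕ) (i : I) : ((q : ℤ) ∣ W * ∑ v, c i v * (x v : ℤ) + b i) ↔
      MBox_pat c W b q (fun v => (x v : ZMod q)) i = true := by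
  rw [MBox_pat, decide_eq_true_iff, ← ZMod.intCast_zmod_eq_zero_iff_dvd]
  push_cast
  rfl

lemma MBox_step2 {w R K : ℕ} (hR : 1 ≤ R) (hK : K ≤ w) {I T : Type} [Fintype I] [Fintype T]
    {c : I → T → ℤ} (hc : Sep c K) {W : ℤ} (hW : ∀ p : ℕ, p.Prime → w < p → ¬ (p : ℤ) ∣ W)
    (b : I → ℤ) :
    |av (fun h : T → Fin (∏ p : PP w R, (p : ℕ)) =>
        ∏ i, nu w R (W * ∑ v, c i v * ((h v : ℕ) : ℤ) + b i)) - 1| ≤
      ∏ p : PP w R, (1 + 8 ^ Fintype.card I * (4 ^ Fintype.card I / ((p : ℕ) : ℝ) ^ 2)) - 1 := by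
  have : ∀ p : PP w R, NeZero (p : ℕ) := fun p => ⟨(MBox_prime p).ne_zero⟩
  let G : (PP w R → I → Bool) → ℝ := fun ω =>
    ∏ i, ((∑ S ∈ RR w R, ∏ p ∈ S, hh ((p : ℕ) : ℝ) (ω p i = true)) ^ 2 /
      ∑ S ∈ RR w R, ∏ p ∈ S, 1 / (((p : ℕ) : ℝ) - 1))
  have e1 : av (fun h : T → Fin (∏ p : PP w R, (p : ℕ)) =>
      ∏ i, nu w R (W * ∑ v, c i v * ((h v : ℕ) : ℤ) + b i)) =
      av fun z : ∀ p : PP w R, T → ZMod (p : ℕ) => G fun p => MBox_pat c W b p (z p) := by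
    rw [← crt_av (fun p : PP w R => (p : ℕ)) (fun p => (MBox_prime p).pos)
      (fun p p' h => (Nat.coprime_primes (MBox_prime p) (MBox_prime p')).2
        fun e => h (Subtype.ext e))]
    refine av_congr fun h => prod_congr rfl fun i _ => ?_
    simp only [nu, Lam, Gs]
    congr 2
    refine sum_congr rfl fun S _ => prod_congr rfl fun p _ => ?_
    rw [MBox_pat_iff c W b p (fun v => (h v : ℕ)) i]
  rw [e1, av_patterns (fun p : PP w R => MBox_pat c W b p) G]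
  refine core (fun p : PP w R => ((p : ℕ) : ℝ)) MBox_two (RR w R) (empty_mem_RR hR)
    (fun S hS T hT => RR_down hS hT) (fun p s => pr fun a => MBox_pat c W b p a = s)
    (fun p => 4 ^ Fintype.card I / ((p : ℕ) : ℝ) ^ 2) fun p s => ?_
  have := forms_close hc (MBox_prime p) (lt_of_le_of_lt hK (MBox_lt p))
    (hW p (MBox_prime p) (MBox_lt p)) b s
  rw [pr_congr (Q := fun x : T → ZMod (p : ℕ) => ∀ i,
    ((W : ZMod (p : ℕ)) * ∑ v, (c i v : ZMod (p : ℕ)) * x v + (b i : ZMod (p : ℕ)) = 0 ↔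
      s i = true)) fun x => ?_]
  · exact this
  · rw [funext_iff]
    refine forall_congr' fun i => ?_
    rw [MBox_pat, Bool.eq_iff_iff, decide_eq_true_iff]

theorem box_lfc (m K : ℕ) {ε : ℝ} (hε : 0 < ε) : ∃ w₀ : ℕ, ∀ w R H : ℕ, w₀ ≤ w → 1 ≤ R → 1 ≤ H →
    ∀ (I T : Type) [Fintype I] [Fintype T], Fintype.card I ≤ m → ∀ c : I → T → ℤ, Sep c K →
      ∀ W : ℤ, (∀ p : ℕ, p.Prime → w < p → ¬ (p : ℤ) ∣ W) → ∀ b : I → ℤ,
      |av (fun h : T → Fin H => ∏ i, nu w R (W * ∑ v, c i v * ((h v : ℕ) : ℤ) + b i)) - 1| ≤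
        ε + 2 * Fintype.card T * (R : ℝ) ^ (4 * m) / H := by
  obtain ⟨w₁, hw₁⟩ := tail_small ((32 : ℝ) ^ m) hε
  refine ⟨max K w₁, fun w R H hw hR hH I T _ _ hm c hc W hW b => ?_⟩
  have h1 := MBox_step1 (w := w) hR hH hm c W b
  have h2 := MBox_step2 hR (le_trans (le_max_left _ _) hw) hc hW b
  have h3 := hw₁ w R (le_trans (le_max_right _ _) hw)
  have h4 : ∏ p : PP w R, (1 + 8 ^ Fintype.card I * (4 ^ Fintype.card I / ((p : ℕ) : ℝ) ^ 2)) ≤
      ∏ p : PP w R, (1 + (32 : ℝ) ^ m / ((p : ℕ) : ℝ) ^ 2) := by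
    refine prod_le_prod (fun p _ => by positivity) fun p _ => ?_
    rw [← mul_div_assoc, ← mul_pow]
    have : ((8 : ℝ) * 4) ^ Fintype.card I ≤ 32 ^ m := by
      rw [show (8 : ℝ) * 4 = 32 by norm_num]
      exact pow_le_pow_right₀ (by norm_num) hm
    gcongr
  have h5 := abs_sub_le
    (av fun h : T → Fin H => ∏ i, nu w R (W * ∑ v, c i v * ((h v : ℕ) : ℤ) + b i))
    (av fun h : T → Fin (∏ p : PP w R, (p : ℕ)) =>
      ∏ i, nu w R (W * ∑ v, c i v * ((h v : ℕ) : ℤ) + b i)) 1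
  linarith

end Pool.Agent.GT
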