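import Pool.Agent.GT.Maj
import Pool.Agent.MP_14ad9d_nt.Defs

/-!
Upper density.
-/

open scoped BigOperators Classical
open Finset Function

noncomputable section

namespace Pool.Agent.GT

theorem MDens_block (𝒬 : Set ℕ) {s : ℝ} (hs : 0 < s) (J : ℕ) :
    ∑ n ∈ Ico (2 ^ J) (2 ^ (J + 1)), 𝒬.indicator (fun n => (n : ℝ) ^ (-s)) n ≤
      (𝒬 ∩ Set.Iic (2 ^ (J + 1))).ncard * ((2 : ℝ) ^ J) ^ (-s) := by
  have a := sum_le_card_nsmul ((Ico (2 ^ J) (2 ^ (J + 1))).filter (· ∈ 𝒬))
    (fun n : ℕ => (n : ℝ) ^ (-s)) (((2 : ℝ) ^ J) ^ (-s)) fun n hn =>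
      Real.rpow_le_rpow_of_nonpos (by positivity)
        (by exact_mod_cast (mem_Ico.1 (mem_filter.1 hn).1).1) (by linarith)
  have b : #((Ico (2 ^ J) (2 ^ (J + 1))).filter (· ∈ 𝒬)) ≤ (𝒬 ∩ Set.Iic (2 ^ (J + 1))).ncard := by
    rw [← Set.ncard_coe_finset]
    refine Set.ncard_le_ncard (fun n hn => ?_) ((Set.finite_Iic _).inter_of_right _)
    have hn := mem_filter.1 (mem_coe.1 hn)
    exact ⟨hn.2, (mem_Ico.1 hn.1).2.le⟩
  simp only [Set.indicator_apply, ← sum_filter]
  rw [nsmul_eq_mul] at a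
  refine a.trans ?_
  gcongr

theorem MDens_sum (𝒬 : Set ℕ) {t : ℝ} (ht : 0 < t) {j0 : ℕ}
    (h : ∀ X : ℕ, j0 ≤ X → ((𝒬 ∩ Set.Iic X).ncard : ℝ) < t * X / Real.log X)
    {s : ℝ} (h1 : 1 < s) (h2 : s ≤ 2) :
    ∑' n : ℕ, 𝒬.indicator (fun n => (n : ℝ) ^ (-s)) n ≤
      2 ^ j0 + 8 * t * (Real.log (1 / (s - 1)) + Real.log 4) := by
  have f0 : ∀ n, 0 ≤ 𝒬.indicator (fun n => (n : ℝ) ^ (-s)) n := fun n =>
    Set.indicator_nonneg (fun n _ => by positivity) n
  have f1 : ∀ n, 𝒬.indicator (fun n => (n : ℝ) ^ (-s)) n ≤ 1 := fun n =>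
    Set.indicator_le' (fun n _ => by
      rcases n with _ | n
      · simp [Real.zero_rpow (by linarith : -s ≠ 0)]
      · exact Real.rpow_le_one_of_one_le_of_nonpos (by simp) (by linarith))
      (fun _ _ => zero_le_one) n
  have l1 := Real.log_two_gt_d9
  have l2 := Real.log_two_lt_d9
  set u : ℝ := 2 ^ (1 - s) with hu
  have u1 : 1 / 2 ≤ u := by
    have := Real.rpow_le_rpow_of_exponent_le (x := 2) (by norm_num) (by linarith : -1 ≤ 1 - s)
    rwa [Real.rpow_neg_one, ← one_div] at this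
  have u2 : (s - 1) / 4 ≤ 1 - u := by
    have a := Real.add_one_le_exp (Real.log 2 * (s - 1))
    have b : u * Real.exp (Real.log 2 * (s - 1)) = 1 := by
      rw [hu, Real.rpow_def_of_pos two_pos, ← Real.exp_add, ← Real.exp_zero]; congr 1; ring
    have c : 1 / 2 * (s - 1) ≤ Real.log 2 * (s - 1) := by gcongr; linarith
    nlinarith [mul_le_mul_of_nonneg_left a (by linarith : 0 ≤ u),
      mul_le_mul u1 c (by linarith) (by linarith)]
  have key : ∀ J : ℕ, ∑ n ∈ range (2 ^ J), 𝒬.indicator (fun n => (n : ℝ) ^ (-s)) n ≤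
      2 ^ j0 + 8 * t * ∑ j ∈ range J, u ^ (j + 1) / (j + 1) := fun J => by
    have small : ∀ J ≤ j0, ∑ n ∈ range (2 ^ J), 𝒬.indicator (fun n => (n : ℝ) ^ (-s)) n ≤
        2 ^ j0 + 8 * t * ∑ j ∈ range J, u ^ (j + 1) / (j + 1) := fun J hJ => by
      have a := sum_le_card_nsmul (range (2 ^ J)) _ 1 fun n _ => f1 n
      rw [card_range, nsmul_eq_mul, mul_one, Nat.cast_pow, Nat.cast_ofNat] at a
      have b : (2 : ℝ) ^ J ≤ 2 ^ j0 := pow_le_pow_right₀ one_le_two hJ
      have : 0 ≤ 8 * t * ∑ j ∈ range J, u ^ (j + 1) / (j + 1) := by positivity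
      linarith
    induction J with
    | zero => exact small 0 (Nat.zero_le _)
    | succ J ih =>
      rcases le_or_gt (J + 1) j0 with c | c
      · exact small _ c
      rw [← sum_range_add_sum_Ico _ (Nat.pow_le_pow_right two_pos (Nat.le_succ J)), sum_range_succ]
      have a := MDens_block 𝒬 (by linarith : 0 < s) J
      have b := h (2 ^ (J + 1)) (c.le.trans Nat.lt_two_pow_self.le)
      have e : ((2 : ℝ) ^ J) ^ (-s) * 2 ^ J = u ^ J := by
        rw [hu, ← Real.rpow_add_one (by positivity), ← Real.rpow_natCast_mul (by norm_num),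
          ← Real.rpow_mul_natCast (by norm_num)]
        congr 1; ring
      rw [Nat.cast_pow, Nat.cast_ofNat, Real.log_pow] at b
      push_cast at b
      have d : t * 2 ^ (J + 1) / ((J + 1) * Real.log 2) * ((2 : ℝ) ^ J) ^ (-s) ≤
          8 * t * (u ^ (J + 1) / (J + 1)) :=
        calc _ = 2 * t * ((((2 : ℝ) ^ J) ^ (-s) * 2 ^ J) / (J + 1)) / Real.log 2 := by
              field_simp; ring
          _ ≤ 2 * t * (u ^ J * (2 * u) / (J + 1)) / (1 / 2) := by
              rw [e]; gcongr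
              · exact le_mul_of_one_le_right (by positivity) (by linarith)
              · linarith
          _ = _ := by ring
      have := mul_le_mul_of_nonneg_right b.le (by positivity : 0 ≤ ((2 : ℝ) ^ J) ^ (-s))
      linarith
  refine Real.tsum_le_of_sum_range_le f0 fun n => ?_
  refine (sum_le_sum_of_subset_of_nonneg (range_mono Nat.lt_two_pow_self.le)
    fun i _ _ => f0 i).trans ((key n).trans ?_)
  have a := sum_le_hasSum (range n) (fun i _ => by positivity)
    (Real.hasSum_pow_div_log_of_abs_lt_one (x := u) (by rw [abs_lt]; constructor <;> linarith))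
  have b := Real.log_le_log (by linarith) u2
  rw [Real.log_div (by linarith) (by norm_num)] at b
  rw [one_div, Real.log_inv]
  gcongr
  linarith

theorem udens_of_posDens {𝒬 : Set ℕ} (h : MP_14ad9d_nt.PosDens 𝒬) : UDens 𝒬 := by
  obtain ⟨δ, C, hδ, h⟩ := h
  refine ⟨δ / 16, by positivity, ?_⟩
  by_contra hc
  obtain ⟨j0, hj⟩ := Filter.eventually_atTop.1 (Filter.not_frequently.1 hc)
  have h2 : Filter.Tendsto (fun s : ℝ => Real.log (s - 1)) (nhdsWithin 1 (Set.Ioi 1))
      Filter.atBot := by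
    refine Real.tendsto_log_nhdsGT_zero.comp (tendsto_nhdsWithin_iff.2 ⟨?_, ?_⟩)
    · have : Filter.Tendsto (fun s : ℝ => s - 1) (nhds 1) (nhds (1 - 1)) :=
        Filter.tendsto_id.sub_const 1
      simpa using this.mono_left nhdsWithin_le_nhds
    · filter_upwards [self_mem_nhdsWithin] with s hs
      exact sub_pos.2 (show 1 < s from hs)
  obtain ⟨s, ⟨h3, h4⟩, h5⟩ := ((h.and (h2.eventually (Filter.eventually_lt_atBot
    (-(C + 2 ^ j0 + δ / 2 * Real.log 4) / (δ / 2))))).and (Ioc_mem_nhdsGT one_lt_two)).exists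
  have a := MDens_sum 𝒬 (t := δ / 16) (by positivity) (fun X hX => not_le.1 (hj X hX)) h5.1 h5.2
  rw [one_div, Real.log_inv] at h3 a
  rw [lt_div_iff₀ (by positivity)] at h4
  linarith

end Pool.Agent.GT
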