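import Pool.Agent.GT.Hyp

/-!
The majorant built from Selberg sieve weights.
-/

open scoped BigOperators Classical
open Finset Function

noncomputable section

namespace Pool.Agent.GT

/-- The primes in (w, R]. -/
def PP (w R : ℕ) : Finset ℕ := (Ioc w R).filter Nat.Prime

/-- The sets of primes in (w, R] with product at most R. -/
def RR (w R : ℕ) : Finset (Finset (PP w R)) := univ.filter fun S => ∏ p ∈ S, (p : ℕ) ≤ R

/-- The local factor: -1 if b holds and 1/(q-1) otherwise. -/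
def hh (q : ℝ) (b : Prop) : ℝ := if b then -1 else 1 / (q - 1)

/-- The normalising sum. -/
def Gs (w R : ℕ) : ℝ := ∑ S ∈ RR w R, ∏ p ∈ S, 1 / (((p : ℕ) : ℝ) - 1)

/-- The Selberg divisor sum. -/
def Lam (w R : ℕ) (n : ℤ) : ℝ := ∑ S ∈ RR w R, ∏ p ∈ S, hh (p : ℕ) (((p : ℕ) : ℤ) ∣ n)

/-- The majorant. -/
def nu (w R : ℕ) (n : ℤ) : ℝ := Lam w R n ^ 2 / Gs w R

/-- A system of linear forms with coefficients bounded by K, in which each form has a variable
missing from each other form. -/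
def Sep {I T : Type} (c : I → T → ℤ) (K : ℕ) : Prop :=
  (∀ i v, |c i v| ≤ K) ∧ (∀ i, ∃ v, c i v ≠ 0) ∧ ∀ i j, i ≠ j → ∃ v, c i v ≠ 0 ∧ c j v = 0

/-- A set of natural numbers with at least δ X / log X elements up to X, for arbitrarily
large X. -/
def UDens (𝒬 : Set ℕ) : Prop :=
  ∃ δ : ℝ, 0 < δ ∧ ∃ᶠ X : ℕ in Filter.atTop, δ * X / Real.log X ≤ (𝒬 ∩ Set.Iic X).ncard

end Pool.Agent.GT
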