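import Pool.Agent.GT.Basic

/-!
The abstract dense model theorem.
-/

open scoped BigOperators Classical
open Finset Function

noncomputable section

namespace Pool.Agent.GT

/-- The pairing with a fixed function, as a linear map. -/
def RDenseL {Y : Type} [Finite Y] (g : Y → ℝ) : (Y → ℝ) →ₗ[ℝ] ℝ where
  toFun φ := av fun y => g y * φ y
  map_add' φ ψ := by
    rw [← av_add]
    exact av_congr fun y => by simp [mul_add]
  map_smul' c φ := by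
    simp only [RingHom.id_apply, smul_eq_mul]
    rw [← av_const_mul]
    exact av_congr fun y => by simp; ring

lemma RDenseL_apply {Y : Type} [Finite Y] (g φ : Y → ℝ) :
    RDenseL g φ = av fun y => g y * φ y := rfl

lemma RDenseL_cont {Y : Type} [Finite Y] (g : Y → ℝ) : Continuous (RDenseL g) :=
  LinearMap.continuous_of_finiteDimensional _

/-- The symmetric convex hull of a family of test functions. -/
def RDenseB {Y : Type} (𝓕 : Set (Y → ℝ)) : Set (Y → ℝ) := convexHull ℝ (𝓕 ∪ -𝓕)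

section hull

variable {Y : Type} {𝓕 : Set (Y → ℝ)}

lemma RDenseB_convex : Convex ℝ (RDenseB 𝓕) := convex_convexHull _ _

lemma RDenseB_of_mem {φ : Y → ℝ} (h : φ ∈ 𝓕) : φ ∈ RDenseB 𝓕 :=
  subset_convexHull ℝ _ (Or.inl h)

lemma RDenseB_of_neg {φ : Y → ℝ} (h : φ ∈ 𝓕) : -φ ∈ RDenseB 𝓕 :=
  subset_convexHull ℝ _ (Or.inr (by simpa using h))

lemma RDenseB_ind {S : Set (Y → ℝ)} (hS : Convex ℝ S) (h1 : ∀ φ ∈ 𝓕, φ ∈ S)
    (h2 : ∀ φ ∈ 𝓕, -φ ∈ S) : RDenseB 𝓕 ⊆ S := by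
  refine convexHull_min ?_ hS
  rintro φ (h | h)
  · exact h1 φ h
  · simpa using h2 (-φ) h

lemma RDenseB_neg {φ : Y → ℝ} (h : φ ∈ RDenseB 𝓕) : -φ ∈ RDenseB 𝓕 := by
  have hc : Convex ℝ ((-LinearMap.id : (Y → ℝ) →ₗ[ℝ] (Y → ℝ)) ⁻¹' RDenseB 𝓕) :=
    RDenseB_convex.linear_preimage _
  exact RDenseB_ind hc (fun ψ hψ => RDenseB_of_neg hψ)
    (fun ψ hψ => by simpa using RDenseB_of_mem hψ) h

lemma RDenseB_bound (hb : ∀ φ ∈ 𝓕, ∀ y, |φ y| ≤ 1) {φ : Y → ℝ} (h : φ ∈ RDenseB 𝓕) (y : Y) :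
    |φ y| ≤ 1 := by
  have hc : Convex ℝ ((LinearMap.proj y : (Y → ℝ) →ₗ[ℝ] ℝ) ⁻¹' Set.Icc (-1) 1) :=
    (convex_Icc _ _).linear_preimage _
  have := RDenseB_ind hc (fun ψ hψ => by simpa [abs_le] using hb ψ hψ y)
    (fun ψ hψ => by
      have := abs_le.1 (hb ψ hψ y)
      simp only [Set.mem_preimage, LinearMap.coe_proj, Function.eval, Pi.neg_apply, Set.mem_Icc]
      constructor <;> linarith [this.1, this.2]) h
  simpa [abs_le] using this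

lemma RDenseB_test [Finite Y] {g : Y → ℝ} {ε : ℝ}
    (hg : ∀ φ ∈ 𝓕, |av fun y => g y * φ y| ≤ ε) {φ : Y → ℝ} (h : φ ∈ RDenseB 𝓕) :
    |av fun y => g y * φ y| ≤ ε := by
  have hc : Convex ℝ (RDenseL g ⁻¹' Set.Icc (-ε) ε) := (convex_Icc _ _).linear_preimage _
  have := RDenseB_ind hc (fun ψ hψ => abs_le.1 (hg ψ hψ))
    (fun ψ hψ => by
      have := abs_le.1 (hg ψ hψ)
      simp only [Set.mem_preimage, map_neg, RDenseL_apply, Set.mem_Icc]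
      constructor <;> linarith [this.1, this.2]) h
  exact abs_le.2 this

lemma RDenseB_mul (hm : ∀ φ ∈ 𝓕, ∀ ψ ∈ 𝓕, φ * ψ ∈ convexHull ℝ 𝓕) {φ ψ : Y → ℝ}
    (hφ : φ ∈ RDenseB 𝓕) (hψ : ψ ∈ RDenseB 𝓕) : φ * ψ ∈ RDenseB 𝓕 := by
  have h1 : ∀ a ∈ 𝓕, ∀ b ∈ RDenseB 𝓕, a * b ∈ RDenseB 𝓕 := by
    intro a ha b hb
    have hc : Convex ℝ (LinearMap.mulLeft ℝ a ⁻¹' RDenseB 𝓕) := RDenseB_convex.linear_preimage _
    have h0 : ∀ c ∈ 𝓕, a * c ∈ RDenseB 𝓕 := fun c hc =>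
      convexHull_mono Set.subset_union_left (hm a ha c hc)
    exact RDenseB_ind hc h0 (fun c hc => by simpa using RDenseB_neg (h0 c hc)) hb
  have hc : Convex ℝ (LinearMap.mulRight ℝ ψ ⁻¹' RDenseB 𝓕) := RDenseB_convex.linear_preimage _
  exact RDenseB_ind hc (fun a ha => h1 a ha ψ hψ)
    (fun a ha => by simpa using RDenseB_neg (h1 a ha ψ hψ)) hφ

lemma RDenseB_pow (h1 : (fun _ => 1) ∈ 𝓕) (hm : ∀ φ ∈ 𝓕, ∀ ψ ∈ 𝓕, φ * ψ ∈ convexHull ℝ 𝓕)
    {φ : Y → ℝ} (hφ : φ ∈ RDenseB 𝓕) (k : ℕ) : φ ^ k ∈ RDenseB 𝓕 := by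
  induction k with
  | zero => rw [pow_zero]; exact RDenseB_of_mem h1
  | succ k ih => rw [pow_succ]; exact RDenseB_mul hm ih hφ

end hull

/-- The positive part of a test function is almost orthogonal to the measure minus one. -/
lemma RDense_pos {t : ℝ} (ht : 0 < t) : ∃ ε : ℝ, 0 < ε ∧
    ∀ (Y : Type) [Finite Y] [Nonempty Y] (𝓕 : Set (Y → ℝ)), (fun _ => 1) ∈ 𝓕 →
      (∀ φ ∈ 𝓕, ∀ y, |φ y| ≤ 1) → (∀ φ ∈ 𝓕, ∀ ψ ∈ 𝓕, φ * ψ ∈ convexHull ℝ 𝓕) →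
      ∀ ν : Y → ℝ, (∀ y, 0 ≤ ν y) → (∀ φ ∈ 𝓕, |av fun y => (ν y - 1) * φ y| ≤ ε) →
      ∀ φ ∈ RDenseB 𝓕, (av fun y => (ν y - 1) * max (φ y) 0) ≤ 4 * t := by
  obtain ⟨P, hP⟩ := exists_polynomial_near_of_continuousOn (-1) 1 (fun x => max x 0)
    (by fun_prop) t ht
  set C : ℝ := ∑ i ∈ range (P.natDegree + 1), |P.coeff i| with hC
  have hC0 : 0 ≤ C := sum_nonneg fun i _ => abs_nonneg _
  refine ⟨min 1 (t / (1 + C)), lt_min one_pos (by positivity), ?_⟩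
  intro Y _ _ 𝓕 h1 hb hm ν hν hε φ hφ
  set ε := min 1 (t / (1 + C)) with hεdef
  have hε1 : ε ≤ 1 := min_le_left _ _
  have hε0 : 0 ≤ ε := le_min zero_le_one (by positivity)
  have hεC : C * ε ≤ t := by
    have h2 : ε ≤ t / (1 + C) := min_le_right _ _
    rw [le_div_iff₀ (by positivity)] at h2
    nlinarith
  have hav : av ν ≤ 2 := by
    have := (abs_le.1 (hε _ h1)).2
    simp only [mul_one] at this
    rw [av_sub, av_const] at this
    linarith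
  have hpoly : (av fun y => (ν y - 1) * P.eval (φ y)) ≤ t := by
    have e : (fun y => (ν y - 1) * P.eval (φ y)) =
        fun y => ∑ i ∈ range (P.natDegree + 1), P.coeff i * ((ν y - 1) * (φ ^ i) y) := by
      funext y
      rw [Polynomial.eval_eq_sum_range, mul_sum]
      exact sum_congr rfl fun i _ => by simp only [Pi.pow_apply]; ring
    rw [e, av_sum]
    refine le_trans ?_ hεC
    rw [hC, sum_mul]
    refine sum_le_sum fun i _ => ?_
    rw [av_const_mul]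
    refine (le_abs_self _).trans ?_
    rw [abs_mul]
    exact mul_le_mul_of_nonneg_left (RDenseB_test hε (RDenseB_pow h1 hm hφ i)) (abs_nonneg _)
  have hpt : ∀ y, (ν y - 1) * max (φ y) 0 ≤ (ν y - 1) * P.eval (φ y) + (ν y + 1) * t := by
    intro y
    have h2 := abs_lt.1 (hP (φ y) (abs_le.1 (RDenseB_bound hb hφ y)))
    have h3 := hν y
    nlinarith [h2.1, h2.2]
  refine (av_mono hpt).trans ?_
  rw [av_add, av_mul_const, av_add, av_const]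
  nlinarith

theorem dense_model {τ : ℝ} (hτ : 0 < τ) : ∃ ε : ℝ, 0 < ε ∧
    ∀ (Y : Type) [Finite Y] [Nonempty Y] (𝓕 : Set (Y → ℝ)), (fun _ => 1) ∈ 𝓕 →
      (∀ φ ∈ 𝓕, ∀ y, |φ y| ≤ 1) → (∀ φ ∈ 𝓕, ∀ ψ ∈ 𝓕, φ * ψ ∈ convexHull ℝ 𝓕) →
      ∀ ν f : Y → ℝ, (∀ y, 0 ≤ f y) → (∀ y, f y ≤ ν y) →
      (∀ φ ∈ 𝓕, |av fun y => (ν y - 1) * φ y| ≤ ε) →
      ∃ f' : Y → ℝ, (∀ y, 0 ≤ f' y) ∧ (∀ y, f' y ≤ 1) ∧
        ∀ φ ∈ 𝓕, |av fun y => (f y - f' y) * φ y| ≤ τ := by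
  obtain ⟨ε, hε0, hε⟩ := RDense_pos (t := τ / 4) (by positivity)
  refine ⟨ε, hε0, ?_⟩
  intro Y _ _ 𝓕 h1 hb hm ν f hf0 hfν hν
  have key := hε Y 𝓕 h1 hb hm ν (fun y => (hf0 y).trans (hfν y)) hν
  by_contra hcon
  let X : Set (Y → ℝ) := Set.Icc 0 1
  let G : (Y → ℝ) → (Y → ℝ) → ℝ := fun x φ => av fun y => (f y - x y) * φ y
  have G1 : ∀ x φ, G x φ = RDenseL f φ - RDenseL φ x := fun x φ => by
    rw [RDenseL_apply, RDenseL_apply, ← av_sub]
    exact av_congr fun y => by ring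
  have G2 : ∀ x φ, G x φ = RDenseL (f - x) φ := fun x φ => rfl
  have Gc : ∀ φ, Continuous fun x => G x φ := fun φ => by
    simp only [G1]
    exact continuous_const.sub (RDenseL_cont φ)
  have hcov : ∀ x ∈ X, ∃ φ ∈ RDenseB 𝓕, τ < G x φ := by
    intro x hx
    by_contra hno
    push Not at hno
    refine hcon ⟨x, hx.1, hx.2, fun φ hφ => abs_le.2 ⟨?_, hno φ (RDenseB_of_mem hφ)⟩⟩
    have := hno _ (RDenseB_of_neg hφ)
    rw [G2, map_neg] at this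
    change -τ ≤ RDenseL (f - x) φ
    linarith
  have kX : IsCompact X := isCompact_Icc
  obtain ⟨s, hsB, hs, hsX⟩ := kX.elim_finite_subcover_image (b := RDenseB 𝓕)
    (c := fun φ => {x | τ < G x φ}) (fun φ _ => isOpen_lt continuous_const (Gc φ))
    (fun x hx => by simpa using hcov x hx)
  obtain ⟨φ, hφ, hall⟩ := Sion.exists_lt_iInf_of_lt_iInf_of_finite (X := X) (Y := RDenseB 𝓕)
    (f := G) ⟨0, le_rfl, zero_le_one⟩ kX
    (fun φ _ => (Gc φ).continuousOn.lowerSemicontinuousOn)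
    (fun φ _ => by
      simp only [G1]
      exact ((convexOn_const _ (convex_Icc _ _)).sub
        ((RDenseL φ).concaveOn (convex_Icc _ _))).quasiconvexOn)
    RDenseB_convex
    (fun x _ => (RDenseL_cont (f - x)).continuousOn.upperSemicontinuousOn)
    (fun x _ => ((RDenseL (f - x)).concaveOn RDenseB_convex).quasiconcaveOn)
    (convex_Icc _ _) hs hsB (t := τ) (fun x hx => by simpa using hsX hx)
  have h2 := hall (fun y => ind (0 < φ y)) ⟨fun y => ind_nonneg _, fun y => ind_le_one _⟩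
  have h3 : G (fun y => ind (0 < φ y)) φ ≤ av fun y => (ν y - 1) * max (φ y) 0 := by
    refine av_mono fun y => ?_
    beta_reduce
    by_cases h : 0 < φ y
    · rw [ind_of h, max_eq_left h.le]
      nlinarith [hfν y]
    · rw [ind_of_not h, max_eq_right (not_lt.1 h)]
      nlinarith [hf0 y, not_lt.1 h]
  linarith [key φ hφ]

end Pool.Agent.GT
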