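import Pool.Agent.GT.Hyp
import Pool.Agent.GT.RDense

/-!
The dense model theorem for the arithmetic cut norm.
-/

open scoped BigOperators Classical
open Finset Function

noncomputable section

namespace Pool.Agent.GT

section fibre

variable {A G : Type} [AddCommGroup A] [AddCommGroup G] [Finite A] [Finite G]

/-- The average of a function over a fibre of a homomorphism. -/
def RArith_fib (s : A →+ G) (P : A → ℝ) (y : G) : ℝ :=
  (Nat.card G : ℝ) * av fun x => ind (s x = y) * P x

lemma RArith_pr (s : A →+ G) (hs : Surjective s) (y : G) :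
    av (fun x => ind (s x = y)) = 1 / Nat.card G := by
  rw [av_hom s hs fun z => ind (z = y)]
  exact pr_eq_single y

lemma RArith_dual (s : A →+ G) (h : G → ℝ) (P : A → ℝ) :
    av (fun y => h y * RArith_fib s P y) = av fun x => h (s x) * P x := by
  have hc : (Nat.card G : ℝ) ≠ 0 := (card_pos_real G).ne'
  have h1 : ∀ y, h y * RArith_fib s P y =
      av fun x => (Nat.card G : ℝ) * (ind (y = s x) * (h y * P x)) := fun y => by
    rw [RArith_fib, ← av_const_mul, ← av_const_mul]
    exact av_congr fun x => by rw [ind_congr (eq_comm (a := y))]; ring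
  simp only [h1]
  rw [av_comm]
  refine av_congr fun x => ?_
  rw [av_const_mul, av_ind_eq (s x) fun y => h y * P x]
  field_simp

lemma RArith_one (s : A →+ G) (hs : Surjective s) : RArith_fib s (fun _ => 1) = fun _ => 1 := by
  have hc : (Nat.card G : ℝ) ≠ 0 := (card_pos_real G).ne'
  funext y
  simp only [RArith_fib, mul_one, RArith_pr s hs]
  field_simp

lemma RArith_abs_le (s : A →+ G) (hs : Surjective s) {P : A → ℝ} (h0 : ∀ x, 0 ≤ P x)
    (h1 : ∀ x, P x ≤ 1) (y : G) : |RArith_fib s P y| ≤ 1 := by
  have hc : (0 : ℝ) < Nat.card G := card_pos_real G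
  have hn : 0 ≤ RArith_fib s P y :=
    mul_nonneg hc.le (av_nonneg fun x => mul_nonneg (ind_nonneg _) (h0 x))
  rw [abs_of_nonneg hn, ← congrFun (RArith_one s hs) y]
  exact mul_le_mul_of_nonneg_left
    (av_mono fun x => mul_le_mul_of_nonneg_left (h1 x) (ind_nonneg _)) hc.le

omit [Finite G] in
lemma RArith_mul (s : A →+ G) (P Q : A → ℝ) (y : G) :
    RArith_fib s P y * RArith_fib s Q y =
      av fun z => (Nat.card G : ℝ) * ind (s z = 0) * RArith_fib s (fun x => P x * Q (x + z)) y := by
  have h1 : ∀ x, ind (s x = y) * P x * (av fun w => ind (s w = y) * Q w) =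
      av fun z => ind (s z = 0) * (ind (s x = y) * (P x * Q (x + z))) := fun x => by
    rw [← av_add_left x fun w => ind (s w = y) * Q w, ← av_const_mul]
    refine av_congr fun z => ?_
    by_cases hx : s x = y
    · have : ind (s (x + z) = y) = ind (s z = 0) :=
        ind_congr (by rw [map_add, hx, add_eq_left])
      rw [this]; ring
    · rw [ind_of_not hx]; ring
  have h2 : (av fun x => ind (s x = y) * P x) * (av fun w => ind (s w = y) * Q w) =
      av fun z => ind (s z = 0) * av fun x => ind (s x = y) * (P x * Q (x + z)) := by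
    rw [← av_mul_const]
    simp only [h1]
    rw [av_comm]
    simp only [av_const_mul]
  calc RArith_fib s P y * RArith_fib s Q y
      = (Nat.card G : ℝ) * (Nat.card G : ℝ) *
        ((av fun x => ind (s x = y) * P x) * av fun w => ind (s w = y) * Q w) := by
        simp only [RArith_fib]; ring
    _ = _ := by
        rw [h2, ← av_const_mul]
        exact av_congr fun z => by simp only [RArith_fib]; ring

lemma RArith_mul_mem (s : A →+ G) (hs : Surjective s) (P Q : A → ℝ) {C : Set (G → ℝ)}
    (hC : Convex ℝ C) (h : ∀ z, RArith_fib s (fun x => P x * Q (x + z)) ∈ C) :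
    RArith_fib s P * RArith_fib s Q ∈ C := by
  cases nonempty_fintype A
  have hc : (0 : ℝ) < Nat.card G := card_pos_real G
  have key := hC.sum_mem (t := (univ : Finset A))
    (w := fun z => (Nat.card G : ℝ) * ind (s z = 0) / Fintype.card A)
    (z := fun z => RArith_fib s fun x => P x * Q (x + z))
    (fun z _ => div_nonneg (mul_nonneg hc.le (ind_nonneg _)) (Nat.cast_nonneg _))
    (by
      rw [← sum_div, ← av_eq_sum, av_const_mul, RArith_pr s hs]
      field_simp)
    fun z _ => h z
  convert key using 1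
  funext y
  rw [Pi.mul_apply, RArith_mul, av_eq_sum, Finset.sum_apply, sum_div]
  exact sum_congr rfl fun z _ => by rw [Pi.smul_apply, smul_eq_mul]; ring

end fibre

/-- The sum of the coordinates different from o, as a homomorphism. -/
def RArith_sum {V : Type} [Fintype V] [DecidableEq V] (o : V) (G : Type) [AddCommGroup G] :
    (V → G) →+ G where
  toFun x := ∑ i ∈ univ.erase o, x i
  map_zero' := by simp
  map_add' x y := by simp only [Pi.add_apply, sum_add_distrib]

lemma RArith_sum_surj {V : Type} [Fintype V] [DecidableEq V] [Nontrivial V] (o : V) (G : Type)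
    [AddCommGroup G] : Surjective (RArith_sum o G) := by
  intro y
  obtain ⟨a, ha⟩ := exists_ne o
  refine ⟨Pi.single a y, ?_⟩
  change ∑ i ∈ univ.erase o, Pi.single (M := fun _ => G) a y i = y
  rw [sum_pi_single', if_pos (by simp [ha])]

lemma RArith_noDep {V G : Type} [DecidableEq V] [AddCommGroup G] {i : V} {u v : (V → G) → ℝ}
    (hu : NoDep i u) (hv : NoDep i v) (z : V → G) : NoDep i fun x => u x * v (x + z) := by
  intro x t
  have : update x i t + z = update (x + z) i (t + z i) := by
    funext a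
    by_cases ha : a = i
    · subst ha; simp
    · simp [update_of_ne ha]
  simp only [this]
  rw [hu x t, hv (x + z)]

/-- Dense model for the cut norm of the form sum of x_i over i different from o. -/
theorem dense_arith (V : Type) [Fintype V] [DecidableEq V] [Nontrivial V] (o : V) {τ : ℝ}
    (hτ : 0 < τ) : ∃ ε : ℝ, 0 < ε ∧ ∀ (G : Type) [AddCommGroup G] [Finite G] (ν f : G → ℝ),
      (∀ y, 0 ≤ f y) → (∀ y, f y ≤ ν y) →
      Cut o (fun x : V → G => ν (∑ i ∈ univ.erase o, x i) - 1) ε →
      ∃ f' : G → ℝ, (∀ y, 0 ≤ f' y) ∧ (∀ y, f' y ≤ 1) ∧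
        Cut o (fun x : V → G => f (∑ i ∈ univ.erase o, x i) - f' (∑ i ∈ univ.erase o, x i)) τ := by
  obtain ⟨ε, hε, H⟩ := dense_model hτ
  refine ⟨ε, hε, fun G _ _ ν f hf0 hfν hcut => ?_⟩
  have hs := RArith_sum_surj o G
  obtain ⟨f', a, b, c⟩ := H G
    {φ | ∃ u : V → (V → G) → ℝ, (∀ i, NoDep i (u i)) ∧ (∀ i x, 0 ≤ u i x) ∧ (∀ i x, u i x ≤ 1) ∧
      φ = RArith_fib (RArith_sum o G) fun x => ∏ i ∈ univ.erase o, u i x}
    ⟨fun _ _ => 1, fun _ _ _ => rfl, fun _ _ => zero_le_one, fun _ _ => le_rfl, by
      simp only [prod_const_one, RArith_one _ hs]⟩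
    (by
      rintro _ ⟨u, -, h0, h1, rfl⟩ y
      exact RArith_abs_le _ hs (fun x => prod_nonneg fun i _ => h0 i x)
        (fun x => prod_le_one (fun i _ => h0 i x) fun i _ => h1 i x) y)
    (by
      rintro _ ⟨u, ud, u0, u1, rfl⟩ _ ⟨v, vd, v0, v1, rfl⟩
      refine RArith_mul_mem _ hs _ _ (convex_convexHull ℝ _) fun z => subset_convexHull ℝ _ ?_
      refine ⟨fun i x => u i x * v i (x + z), fun i => RArith_noDep (ud i) (vd i) z,
        fun i x => mul_nonneg (u0 i x) (v0 i _),
        fun i x => mul_le_one₀ (u1 i x) (v0 i _) (v1 i _), ?_⟩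
      simp only [prod_mul_distrib])
    ν f hf0 hfν
    (by
      rintro _ ⟨u, ud, u0, u1, rfl⟩
      rw [RArith_dual _ fun y => ν y - 1]
      exact hcut u ud u0 u1)
  refine ⟨f', a, b, fun u ud u0 u1 => ?_⟩
  have := c _ ⟨u, ud, u0, u1, rfl⟩
  rw [RArith_dual _ fun y => f y - f' y] at this
  exact this

end Pool.Agent.GT
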