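import Pool.Agent.GT.RSlf

/-!
The relative counting lemma, by densification.
-/

open scoped BigOperators Classical
open Finset Function

noncomputable section

namespace Pool.Agent.GT

section aux

variable {V X : Type} [Fintype V] [DecidableEq V] [Finite X] [Nonempty X]

/-- Average over the coordinate c. -/
def RCountE (c : V) (F : (V → X) → ℝ) (x : V → X) : ℝ := av fun t : X => F (update x c t)

omit [Fintype V] [Finite X] [Nonempty X] in
lemma RCount_nodep (c : V) (F : (V → X) → ℝ) : NoDep c (RCountE c F) := fun x t => by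
  simp only [RCountE, update_idem]

omit [Nonempty X] in
lemma RCount_av_mul {c : V} {φ : (V → X) → ℝ} (h : NoDep c φ) (F : (V → X) → ℝ) :
    av (fun x => φ x * F x) = av fun x => φ x * RCountE c F x := by
  rw [av_update c]
  refine av_congr fun x => ?_
  simp only [h x, RCountE, av_const_mul]

omit [Nonempty X] in
lemma RCount_av (c : V) (F : (V → X) → ℝ) : av F = av (RCountE c F) := av_update c F

omit [Nonempty X] in
lemma RCount_pair {c : V} {φ : (V → X) → ℝ} (h : NoDep c φ) (F G : (V → X) → ℝ) :
    av (fun p : (V → X) × X => φ p.1 * (F p.1 * G (update p.1 c p.2))) =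
      av fun x => φ x * (RCountE c F x * RCountE c G x) := by
  rw [av_prod]
  have h1 : ∀ x : V → X, av (fun t : X => φ x * (F x * G (update x c t))) =
      (φ x * RCountE c G x) * F x := fun x => by
    rw [av_const_mul, av_const_mul, RCountE]; ring
  simp only [h1]
  have h2 : NoDep c fun x => φ x * RCountE c G x := fun x t => by
    simp only [h x t, RCount_nodep c G x t]
  rw [RCount_av_mul h2]
  exact av_congr fun x => by ring

omit [Fintype V] [Nonempty X] in
lemma RCount_mono (c : V) {F G : (V → X) → ℝ} (h : ∀ x, F x ≤ G x) (x : V → X) :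
    RCountE c F x ≤ RCountE c G x := av_mono fun _ => h _

omit [Fintype V] [Nonempty X] in
lemma RCount_nonneg (c : V) {F : (V → X) → ℝ} (h : ∀ x, 0 ≤ F x) (x : V → X) :
    0 ≤ RCountE c F x := av_nonneg fun _ => h _

omit [Fintype V] in
lemma RCount_le_one (c : V) {F : (V → X) → ℝ} (h : ∀ x, F x ≤ 1) (x : V → X) :
    RCountE c F x ≤ 1 := av_le_const fun _ => h _

omit [DecidableEq V] in
lemma RCount_lfc0 [DecidableEq V] {ν : V → (V → X) → ℝ} {ε : ℝ} (h : LFC ν ε) (T : Finset V) :
    |av (fun x => ∏ j ∈ T, ν j x) - 1| ≤ ε := by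
  have h1 := h (T.image fun j => (j, fun _ => false)) (by
    intro q hq
    obtain ⟨j, _, rfl⟩ := mem_image.1 hq
    rfl)
  have h2 : ∀ p : (V → X) × (V → X),
      ∏ q ∈ T.image (fun j => (j, fun _ : V => false)), ν q.1 (cube p q.2) = ∏ j ∈ T, ν j p.1 := by
    intro p
    rw [prod_image fun a _ b _ e => (Prod.mk.inj e).1]
    rfl
  simp only [h2] at h1
  rwa [av_fst (fun x : V → X => ∏ j ∈ T, ν j x)] at h1

lemma RCount_lfc2 {ν : V → (V → X) → ℝ} {ε : ℝ} (h : LFC ν ε) (c : V) :
    |av (fun x => RCountE c (fun y => ∏ j ∈ univ.erase c, ν j y) x *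
      RCountE c (fun y => ∏ j ∈ univ.erase c, ν j y) x) - 1| ≤ ε := by
  set T : Finset V := univ.erase c with hT
  have h1 := h (T.image (fun j => (j, fun _ => false)) ∪
      T.image fun j => (j, fun i => decide (i = c))) (by
    intro q hq
    rcases mem_union.1 hq with hq | hq
    · obtain ⟨j, _, rfl⟩ := mem_image.1 hq
      rfl
    · obtain ⟨j, hj, rfl⟩ := mem_image.1 hq
      exact decide_eq_false (ne_of_mem_erase hj))
  have hd : Disjoint (T.image fun j => (j, fun _ : V => false))
      (T.image fun j => (j, fun i => decide (i = c))) := by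
    refine disjoint_left.2 fun q h1 h2 => ?_
    obtain ⟨j, _, rfl⟩ := mem_image.1 h1
    obtain ⟨j', _, e⟩ := mem_image.1 h2
    have := congrFun (Prod.mk.inj e).2 c
    simp at this
  have hc : ∀ p : (V → X) × (V → X), cube p (fun i => decide (i = c)) = update p.1 c (p.2 c) := by
    intro p
    funext i
    by_cases e : i = c
    · subst e; simp [cube]
    · simp [cube, e]
  have h2 : ∀ p : (V → X) × (V → X),
      ∏ q ∈ T.image (fun j => (j, fun _ : V => false)) ∪
        T.image (fun j => (j, fun i => decide (i = c))), ν q.1 (cube p q.2) =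
      (∏ j ∈ T, ν j p.1) * ∏ j ∈ T, ν j (update p.1 c (p.2 c)) := by
    intro p
    rw [prod_union hd, prod_image fun a _ b _ e => (Prod.mk.inj e).1,
      prod_image fun a _ b _ e => (Prod.mk.inj e).1]
    simp only [hc]
    rfl
  simp only [h2] at h1
  have h3 := RCount_pair (c := c) (φ := fun _ : V → X => (1 : ℝ)) (fun _ _ => rfl)
    (fun y => ∏ j ∈ T, ν j y) (fun y => ∏ j ∈ T, ν j y)
  simp only [one_mul] at h3
  rw [← h3]
  convert h1 using 3
  rw [av_prod, av_prod]
  refine av_congr fun x => ?_
  exact (av_eval c fun t : X => (∏ j ∈ T, ν j x) * ∏ j ∈ T, ν j (update x c t)).symm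

omit [Finite X] [Nonempty X] in
lemma RCount_prod (c : V) (g : V → (V → X) → ℝ) (x : V → X) :
    ∏ j, g j x = g c x * ∏ j ∈ univ.erase c, g j x :=
  (mul_prod_erase univ (fun j => g j x) (mem_univ c)).symm

omit [Finite X] [Nonempty X] in
lemma RCount_prod_update (c : V) (g : V → (V → X) → ℝ) (φ : (V → X) → ℝ) (x : V → X) :
    ∏ j, update g c φ j x = φ x * ∏ j ∈ univ.erase c, g j x := by
  rw [RCount_prod c, update_self]
  congr 1
  exact prod_congr rfl fun j hj => by rw [update_of_ne (ne_of_mem_erase hj)]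

omit [Nonempty X] in
/-- The dense counting lemma. -/
lemma RCount_dense {g g' : V → (V → X) → ℝ} {ε : ℝ} (hg : ∀ j, NoDep j (g j))
    (hg' : ∀ j, NoDep j (g' j)) (g0 : ∀ j x, 0 ≤ g j x) (g1 : ∀ j x, g j x ≤ 1)
    (g'0 : ∀ j x, 0 ≤ g' j x) (g'1 : ∀ j x, g' j x ≤ 1)
    (hc : ∀ j, Cut j (fun x => g j x - g' j x) ε) :
    |av (fun x => ∏ j, g j x) - av fun x => ∏ j, g' j x| ≤ Fintype.card V * ε := by
  have key : ∀ T : Finset V, |av (fun x => ∏ j, g j x) -
      av fun x => ∏ j, (if j ∈ T then g' j else g j) x| ≤ T.card * ε := by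
    intro T
    induction T using Finset.induction_on with
    | empty => simp
    | insert a T ha ih =>
      have h1 := hc a (fun j => if j ∈ T then g' j else g j)
        (fun i => by by_cases e : i ∈ T <;> simp only [e, if_true, if_false, hg i, hg' i])
        (fun i x => by by_cases e : i ∈ T <;> simp only [e, if_true, if_false, g0, g'0])
        (fun i x => by by_cases e : i ∈ T <;> simp only [e, if_true, if_false, g1, g'1])
      have h2 : (av fun x => (g a x - g' a x) *
          ∏ i ∈ univ.erase a, (if i ∈ T then g' i else g i) x) =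
          (av fun x => ∏ j, (if j ∈ T then g' j else g j) x) -
          av fun x => ∏ j, (if j ∈ insert a T then g' j else g j) x := by
        rw [← av_sub]
        refine av_congr fun x => ?_
        rw [RCount_prod a (fun j => if j ∈ T then g' j else g j),
          RCount_prod a (fun j => if j ∈ insert a T then g' j else g j), if_neg ha,
          if_pos (mem_insert_self a T), sub_mul]
        congr 2
        exact prod_congr rfl fun j hj => by simp only [mem_insert, ne_of_mem_erase hj, false_or]
      rw [h2] at h1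
      rw [card_insert_of_notMem ha]
      push_cast
      have := abs_sub_le (av fun x => ∏ j, g j x)
        (av fun x => ∏ j, (if j ∈ T then g' j else g j) x)
        (av fun x => ∏ j, (if j ∈ insert a T then g' j else g j) x)
      linarith
  simpa using key univ

end aux

/-- The analytic core of the densification step. -/
lemma RCount_core {Ω : Type} [Finite Ω] [Nonempty Ω] {n a a' N P P' : Ω → ℝ} {δ τ : ℝ}
    (hτ : 0 < τ) (hδ1 : δ ≤ 1) (hδτ : δ ≤ τ / 2) (hδ2 : δ ≤ τ ^ 2 / 100)
    (a0 : ∀ x, 0 ≤ a x) (an : ∀ x, a x ≤ n x) (PN : ∀ x, P x ≤ N x)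
    (hn : |av n - 1| ≤ δ) (hN : |av N - 1| ≤ δ) (hN2 : |av (fun x => N x * N x) - 1| ≤ δ)
    (s1 : |av fun x => (n x - 1) * (P x * P x)| ≤ τ ^ 2 / 100)
    (s2 : |av fun x => (n x - 1) * (P x * P' x)| ≤ τ ^ 2 / 100)
    (s3 : |av fun x => (n x - 1) * (P' x * P' x)| ≤ τ ^ 2 / 100)
    (hcut : |av fun x => (a x - a' x) * P' x| ≤ δ)
    (i1 : |av (fun x => min (P x) 1 * P x) - av fun x => min (P x) 1 * P' x| ≤ τ ^ 2 / 100)
    (i2 : |av (fun x => P' x * P x) - av fun x => P' x * P' x| ≤ τ ^ 2 / 100) :
    |av (fun x => a x * P x) - av fun x => a' x * P' x| ≤ τ := by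
  have e1 : av (fun x => a x * P x) - av (fun x => a' x * P' x) =
      av (fun x => a x * (P x - P' x)) + av fun x => (a x - a' x) * P' x := by
    rw [← av_sub, ← av_add]
    exact av_congr fun x => by ring
  have e2 : av (fun x => (N x - 1) ^ 2) = av (fun x => N x * N x) - 2 * av N + 1 := by
    rw [← av_const_mul, ← av_sub, ← av_const (Ω := Ω) (1 : ℝ), ← av_add]
    simp only [av_const]
    exact av_congr fun x => by ring
  have e3 : av (fun x => (N x - 1) ^ 2) ≤ 3 * δ := by
    have := abs_le.1 hN
    have := abs_le.1 hN2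
    linarith
  have e4 : av (fun x => (P x - P' x) ^ 2) ≤ av (fun x => (N x - 1) ^ 2) +
      2 * ((av (fun x => min (P x) 1 * P x) - av fun x => min (P x) 1 * P' x) -
        (av (fun x => P' x * P x) - av fun x => P' x * P' x)) := by
    rw [← av_sub, ← av_sub, ← av_sub, ← av_const_mul, ← av_add]
    refine av_mono fun x => ?_
    have hp := PN x
    rcases le_total (P x) 1 with h | h
    · rw [min_eq_left h]
      nlinarith [sq_nonneg (N x - 1), sq_nonneg (P x - P' x)]
    · rw [min_eq_right h]
      nlinarith [sq_nonneg (P' x - 1), mul_nonneg (sub_nonneg.2 hp) (sub_nonneg.2 h),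
        sq_nonneg (N x - P x)]
  have e5 : av (fun x => (P x - P' x) ^ 2) ≤ 7 * (τ ^ 2 / 100) := by
    have := abs_le.1 i1
    have := abs_le.1 i2
    linarith
  have e6 : av (fun x => n x * (P x - P' x) ^ 2) = av (fun x => (P x - P' x) ^ 2) +
      (av (fun x => (n x - 1) * (P x * P x)) - 2 * av (fun x => (n x - 1) * (P x * P' x)) +
        av fun x => (n x - 1) * (P' x * P' x)) := by
    rw [← av_const_mul, ← av_sub, ← av_add, ← av_add]
    exact av_congr fun x => by ring
  have e7 : av (fun x => n x * (P x - P' x) ^ 2) ≤ 11 * (τ ^ 2 / 100) := by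
    have := abs_le.1 s1
    have := abs_le.1 s2
    have := abs_le.1 s3
    linarith
  have e8 := av_cs_w (b := a) (w := n) (fun x => by rw [abs_of_nonneg (a0 x)]; exact an x)
    fun x => P x - P' x
  have e9 : av n ≤ 2 := by
    have := abs_le.1 hn
    linarith
  have e10 : 0 ≤ av (fun x => n x * (P x - P' x) ^ 2) :=
    av_nonneg fun x => mul_nonneg ((a0 x).trans (an x)) (sq_nonneg _)
  have e11 : av (fun x => a x * (P x - P' x)) ^ 2 ≤ (τ / 2) ^ 2 := by
    have := mul_le_mul_of_nonneg_right e9 e10
    nlinarith [sq_nonneg τ]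
  have e12 := abs_le_of_sq_le_sq' e11 (by linarith)
  have e13 := abs_le.1 hcut
  rw [e1, abs_le]
  constructor <;> linarith [e12.1, e12.2]

lemma RCount_ind (V : Type) [Fintype V] [DecidableEq V] (s : Finset V) : ∀ τ : ℝ, 0 < τ →
    ∃ ε : ℝ, 0 < ε ∧
    ∀ (X : Type) [Finite X] [Nonempty X] (ν g g' : V → (V → X) → ℝ),
      (∀ j, j ∉ s → ν j = fun _ => 1) → (∀ j, NoDep j (ν j)) →
      (∀ j, NoDep j (g j)) → (∀ j, NoDep j (g' j)) → (∀ j x, 0 ≤ g j x) → (∀ j x, g j x ≤ ν j x) →
      (∀ j x, 0 ≤ g' j x) → (∀ j x, g' j x ≤ 1) → LFC ν ε →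
      (∀ j, Cut j (fun x => g j x - g' j x) ε) →
      |av (fun x => ∏ j, g j x) - av fun x => ∏ j, g' j x| ≤ τ := by
  induction s using Finset.induction_on with
  | empty =>
    intro τ hτ
    refine ⟨τ / (Fintype.card V + 1), by positivity, ?_⟩
    intro X _ _ ν g g' h1 _ hg hg' g0 gν g'0 g'1 _ hc
    have g1 : ∀ j x, g j x ≤ 1 := fun j x => by
      have := gν j x
      rwa [h1 j (notMem_empty j)] at this
    refine (RCount_dense hg hg' g0 g1 g'0 g'1 hc).trans ?_
    rw [mul_div_assoc', div_le_iff₀ (by positivity)]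
    nlinarith
  | insert c s _ ih =>
    intro τ hτ
    have hη : 0 < τ ^ 2 / 100 := by positivity
    obtain ⟨ε1, hε1, H1⟩ := ih _ hη
    obtain ⟨ε2, hε2, H2⟩ := slf V hη
    set ε := min (min ε1 ε2) (min (min 1 (τ / 2)) (τ ^ 2 / 100)) with hε
    have l1 : ε ≤ ε1 := (min_le_left _ _).trans (min_le_left _ _)
    have l2 : ε ≤ ε2 := (min_le_left _ _).trans (min_le_right _ _)
    have l3 : ε ≤ 1 := (min_le_right _ _).trans ((min_le_left _ _).trans (min_le_left _ _))
    have l4 : ε ≤ τ / 2 := (min_le_right _ _).trans ((min_le_left _ _).trans (min_le_right _ _))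
    have l5 : ε ≤ τ ^ 2 / 100 := (min_le_right _ _).trans (min_le_right _ _)
    refine ⟨ε, by positivity, ?_⟩
    intro X _ _ ν g g' h1 hν hg hg' g0 gν g'0 g'1 hl hc
    have ν0 : ∀ j x, 0 ≤ ν j x := fun j x => (g0 j x).trans (gν j x)
    set N := RCountE c fun y => ∏ j ∈ univ.erase c, ν j y with hN
    set P := RCountE c fun y => ∏ j ∈ univ.erase c, g j y with hP
    set P' := RCountE c fun y => ∏ j ∈ univ.erase c, g' j y with hP'
    have P0 : ∀ x, 0 ≤ P x := RCount_nonneg c fun x => prod_nonneg fun j _ => g0 j x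
    have P'0 : ∀ x, 0 ≤ P' x := RCount_nonneg c fun x => prod_nonneg fun j _ => g'0 j x
    have P'1 : ∀ x, P' x ≤ 1 :=
      RCount_le_one c fun x => prod_le_one (fun j _ => g'0 j x) fun j _ => g'1 j x
    have PN : ∀ x, P x ≤ N x :=
      RCount_mono c fun x => prod_le_prod (fun j _ => g0 j x) fun j _ => gν j x
    have hsl : ∀ (A B : V → (V → X) → ℝ) (a b : Bool), (∀ j, NoDep j (A j)) →
        (∀ j, NoDep j (B j)) → (∀ j x, 0 ≤ A j x) → (∀ j x, 0 ≤ B j x) →
        (∀ j x, A j x ≤ if a then ν j x else 1) → (∀ j x, B j x ≤ if b then ν j x else 1) →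
        |av fun x => (ν c x - 1) * (RCountE c (fun y => ∏ j ∈ univ.erase c, A j y) x *
          RCountE c (fun y => ∏ j ∈ univ.erase c, B j y) x)| ≤ τ ^ 2 / 100 := by
      intro A B a b hA hB A0 B0 A1 B1
      have k := H2 X ν hν ν0 (hl.mono l2) c (fun s => cond s B A) (fun s _ => cond s b a)
        (fun s => by cases s; exacts [hA, hB]) (fun s => by cases s; exacts [A0, B0])
        (fun s => by cases s; exacts [A1, B1])
      simp only [cond_true, cond_false, prod_mul_distrib] at k
      rwa [RCount_pair (φ := fun x => ν c x - 1) (fun x t => by simp only [hν c x t])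
        (fun y => ∏ j ∈ univ.erase c, A j y) (fun y => ∏ j ∈ univ.erase c, B j y)] at k
    have hih : ∀ φ : (V → X) → ℝ, NoDep c φ → (∀ x, 0 ≤ φ x) → (∀ x, φ x ≤ 1) →
        |av (fun x => φ x * P x) - av fun x => φ x * P' x| ≤ τ ^ 2 / 100 := by
      intro φ hφ φ0 φ1
      have k := H1 X (update ν c fun _ => 1) (update g c φ) (update g' c φ)
        (fun j hj => by
          by_cases e : j = c
          · subst e; exact update_self ..
          · rw [update_of_ne e]; exact h1 j (by simp [e, hj]))
        (fun j => by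
          by_cases e : j = c
          · subst e; rw [update_self]; exact fun _ _ => rfl
          · rw [update_of_ne e]; exact hν j)
        (fun j => by
          by_cases e : j = c
          · subst e; rw [update_self]; exact hφ
          · rw [update_of_ne e]; exact hg j)
        (fun j => by
          by_cases e : j = c
          · subst e; rw [update_self]; exact hφ
          · rw [update_of_ne e]; exact hg' j)
        (fun j x => by
          by_cases e : j = c
          · subst e; rw [update_self]; exact φ0 x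
          · rw [update_of_ne e]; exact g0 j x)
        (fun j x => by
          by_cases e : j = c
          · subst e; rw [update_self, update_self]; exact φ1 x
          · rw [update_of_ne e, update_of_ne e]; exact gν j x)
        (fun j x => by
          by_cases e : j = c
          · subst e; rw [update_self]; exact φ0 x
          · rw [update_of_ne e]; exact g'0 j x)
        (fun j x => by
          by_cases e : j = c
          · subst e; rw [update_self]; exact φ1 x
          · rw [update_of_ne e]; exact g'1 j x)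
        ((hl.mono l1).update_one c)
        (fun j => by
          by_cases e : j = c
          · subst e
            rw [update_self, update_self]
            intro u _ _ _
            simp only [sub_self, zero_mul, av_zero, abs_zero]
            exact hε1.le
          · rw [update_of_ne e, update_of_ne e]; exact (hc j).mono l1)
      simp only [RCount_prod_update] at k
      rwa [RCount_av_mul hφ, RCount_av_mul hφ fun y => ∏ j ∈ univ.erase c, g' j y] at k
    have hn : |av (ν c) - 1| ≤ ε := by simpa using RCount_lfc0 hl {c}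
    have hN1 : |av N - 1| ≤ ε := by
      rw [hN, ← RCount_av]; exact RCount_lfc0 hl _
    have hcut : |av fun x => (g c x - g' c x) * P' x| ≤ ε := by
      rw [hP', ← RCount_av_mul (φ := fun x => g c x - g' c x)
        fun x t => by simp only [hg c x t, hg' c x t]]
      exact hc c g' hg' g'0 g'1
    have hm : NoDep c fun x => min (P x) 1 := fun x t => by
      simp only [hP, RCount_nodep c _ x t]
    simp only [RCount_prod c g, RCount_prod c g']
    rw [RCount_av_mul (hg c), RCount_av_mul (hg' c)]
    exact RCount_core hτ l3 l4 l5 (g0 c) (gν c) PN hn hN1 (RCount_lfc2 hl c)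
      (hsl g g true true hg hg g0 g0 gν gν) (hsl g g' true false hg hg' g0 g'0 gν g'1)
      (hsl g' g' false false hg' hg' g'0 g'0 g'1 g'1) hcut
      (hih _ hm (fun x => le_min (P0 x) zero_le_one) fun x => min_le_right _ _)
      (hih P' (RCount_nodep c _) P'0 P'1)

theorem counting (V : Type) [Fintype V] [DecidableEq V] {τ : ℝ} (hτ : 0 < τ) : ∃ ε : ℝ, 0 < ε ∧
    ∀ (X : Type) [Finite X] [Nonempty X] (ν g g' : V → (V → X) → ℝ), (∀ j, NoDep j (ν j)) →
      (∀ j, NoDep j (g j)) → (∀ j, NoDep j (g' j)) → (∀ j x, 0 ≤ g j x) → (∀ j x, g j x ≤ ν j x) →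
      (∀ j x, 0 ≤ g' j x) → (∀ j x, g' j x ≤ 1) → LFC ν ε →
      (∀ j, Cut j (fun x => g j x - g' j x) ε) →
      |av (fun x => ∏ j, g j x) - av fun x => ∏ j, g' j x| ≤ τ := by
  obtain ⟨ε, hε, H⟩ := RCount_ind V univ τ hτ
  exact ⟨ε, hε, fun X _ _ ν g g' => H X ν g g' fun j hj => absurd (mem_univ j) hj⟩

end Pool.Agent.GT
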