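import Pool.Agent.GT.Hyp

/-!
Change of variables in the cut norm.
-/

open scoped BigOperators Classical
open Finset Function

noncomputable section

namespace Pool.Agent.GT

/-- Transport of the cut norm along a permutation of the coordinates combined with a bijection
in each coordinate. -/
lemma RPsi_transport {V X : Type} [Fintype V] [DecidableEq V] (σ : V ≃ V) (e : V → X ≃ X)
    {j : V} {H : (V → X) → ℝ} {ε : ℝ} (hH : Cut j H ε) :
    Cut (σ j) (fun x => H fun i => e i (x (σ i))) ε := by
  intro u hd h0 h1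
  let Ψ : (V → X) ≃ (V → X) :=
    ⟨fun y i => (e (σ.symm i)).symm (y (σ.symm i)), fun x i => e i (x (σ i)),
      fun y => by funext i; simp, fun x => by funext i; simp⟩
  have hup : ∀ (y : V → X) (i : V) (t : X),
      Ψ (update y i t) = update (Ψ y) (σ i) ((e i).symm t) := by
    intro y i t
    funext a
    by_cases ha : a = σ i
    · subst ha
      simp [Ψ]
    · have hb : σ.symm a ≠ i := fun hb => ha (by rw [← hb]; simp)
      rw [update_of_ne ha]
      simp [Ψ, update_of_ne hb]
  have key := hH (fun i y => u (σ i) (Ψ y)) (fun i y t => by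
    simp only [hup]; exact hd (σ i) _ _) (fun i y => h0 _ _) fun i y => h1 _ _
  rw [← av_equiv Ψ]
  convert key using 3
  funext y
  congr 1
  · exact congrArg H (Ψ.symm_apply_apply y)
  · symm
    refine prod_equiv σ (fun i => ?_) fun i _ => rfl
    simp

lemma RPsi_unit {R : Type} [CommRing R] {k : ℕ}
    (hu : ∀ i : ℕ, 0 < i → i < k → IsUnit (i : R)) (j i : Fin k) :
    ∃ w : Rˣ, i ≠ j → (w : R) = ((j : ℕ) : R) - ((i : ℕ) : R) := by
  rcases lt_trichotomy (i : ℕ) j with h | h | h
  · obtain ⟨w, hw⟩ := hu (j - i) (by omega) (by omega)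
    exact ⟨w, fun _ => by rw [hw, Nat.cast_sub h.le]⟩
  · exact ⟨1, fun hne => absurd (Fin.ext h) hne⟩
  · obtain ⟨w, hw⟩ := hu (i - j) (by omega) (by omega)
    exact ⟨-w, fun _ => by rw [Units.val_neg, hw, Nat.cast_sub h.le, neg_sub]⟩

lemma RPsi_psi_eq {R : Type} [CommRing R] {k : ℕ} (j : Fin k) (w : Fin k → Rˣ)
    (hw : ∀ i, i ≠ j → (w i : R) = ((j : ℕ) : R) - ((i : ℕ) : R)) (x : Fin k → R) :
    psi j x = ∑ i ∈ univ.erase j, (w i : R) * x i := by
  rw [psi, ← add_sum_erase univ _ (mem_univ j), sub_self, zero_mul, zero_add]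
  exact sum_congr rfl fun i hi => by rw [hw i (ne_of_mem_erase hi)]

lemma RPsi_sum_swap {R : Type} [CommRing R] {k : ℕ} (a b : Fin k) (g : Fin k → R) :
    ∑ i ∈ univ.erase a, g (Equiv.swap a b i) = ∑ i ∈ univ.erase b, g i := by
  refine sum_equiv (Equiv.swap a b) (fun i => ?_) fun i _ => rfl
  simp only [mem_erase, mem_univ, and_true, ne_eq, not_iff_not]
  constructor
  · rintro rfl; simp
  · intro h
    exact (Equiv.swap a b).injective (by rw [h]; simp)

/-- The cut norms for the forms psi j all agree. -/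
theorem cut_psi_iff {R : Type} [CommRing R] [Finite R] {k : ℕ}
    (hu : ∀ i : ℕ, 0 < i → i < k → IsUnit (i : R)) (o j : Fin k) (h : R → ℝ) (ε : ℝ) :
    Cut j (fun x : Fin k → R => h (psi j x)) ε ↔
      Cut o (fun x : Fin k → R => h (∑ i ∈ univ.erase o, x i)) ε := by
  choose w hw using RPsi_unit hu j
  constructor
  · intro H
    have := RPsi_transport (Equiv.swap j o) (fun i => Units.mulLeft (w i)⁻¹) H
    rw [Equiv.swap_apply_left] at this
    convert this using 3 with x
    rw [RPsi_psi_eq j w hw, ← RPsi_sum_swap j o x]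
    exact sum_congr rfl fun i _ => by simp
  · intro H
    have := RPsi_transport (Equiv.swap o j) (fun i => Units.mulLeft (w (Equiv.swap o j i))) H
    rw [Equiv.swap_apply_left] at this
    convert this using 3 with x
    rw [RPsi_psi_eq j w hw, ← RPsi_sum_swap o j fun i => (w i : R) * x i]
    exact sum_congr rfl fun i _ => by simp

end Pool.Agent.GT
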