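import Pool.Agent.GT.RCount
import Pool.Agent.GT.RArith
import Pool.Agent.GT.RPsi
import Pool.Agent.GT.DVarn

/-!
The relative Szemeredi theorem.
-/

open scoped BigOperators Classical
open Finset Function

noncomputable section

namespace Pool.Agent.GT

lemma rmain_noDep {R : Type} [CommRing R] {k : ℕ} (g : R → ℝ) (j : Fin k) :
    NoDep j fun x : Fin k → R => g (psi j x) := by
  intro x t
  refine congrArg g (sum_congr rfl fun i _ => ?_)
  by_cases e : i = j
  · subst e; simp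
  · rw [update_of_ne e]

lemma rmain_sum {R : Type} [CommRing R] [Finite R] {k : ℕ} {o i1 : Fin k} (h : i1 ≠ o)
    (g : R → ℝ) : (av fun x : Fin k → R => g (∑ i ∈ univ.erase o, x i)) = av g := by
  let φ : (Fin k → R) →+ R :=
    { toFun := fun x => ∑ i ∈ univ.erase o, x i
      map_zero' := by simp
      map_add' := fun x y => by simp only [Pi.add_apply, sum_add_distrib] }
  refine av_hom φ (fun y => ⟨Pi.single i1 y, ?_⟩) g
  change ∑ i ∈ univ.erase o, (Pi.single i1 y : Fin k → R) i = y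
  rw [sum_eq_single i1]
  · simp
  · intro b _ hb; exact Pi.single_eq_of_ne hb _
  · intro hh; exact absurd (mem_erase.2 ⟨h, mem_univ _⟩) hh

lemma rmain_ap {R : Type} [CommRing R] [Finite R] {k : ℕ} (hk : 2 ≤ k) (g : R → ℝ) :
    (av fun x : Fin k → R => ∏ j, g (psi j x)) =
      av fun p : R × R => ∏ j : Fin k, g (p.1 + (j : ℕ) • p.2) := by
  let φ : (Fin k → R) →+ R × R :=
    { toFun := fun x => (-∑ i : Fin k, ((i : ℕ) : R) * x i, ∑ i, x i)
      map_zero' := by simp
      map_add' := fun x y => by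
        simp only [Pi.add_apply, mul_add, sum_add_distrib, Prod.mk_add_mk, neg_add] }
  have hφ : Surjective φ := by
    rintro ⟨a, d⟩
    refine ⟨Pi.single ⟨1, by omega⟩ (-a) + Pi.single ⟨0, by omega⟩ (d + a), ?_⟩
    rw [map_add]
    have h1 : ∀ (i : Fin k) (y : R), φ (Pi.single i y) = (-(((i : ℕ) : R) * y), y) := by
      intro i y
      change (-∑ j : Fin k, ((j : ℕ) : R) * (Pi.single i y : Fin k → R) j,
        ∑ j, (Pi.single i y : Fin k → R) j) = _
      rw [sum_eq_single i, sum_eq_single i]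
      · simp
      · intro b _ hb; exact Pi.single_eq_of_ne hb _
      · simp
      · intro b _ hb; rw [Pi.single_eq_of_ne hb, mul_zero]
      · simp
    rw [h1, h1]
    simp
  rw [← av_hom φ hφ]
  refine av_congr fun x => prod_congr rfl fun j _ => congrArg g ?_
  change psi j x = -∑ i : Fin k, ((i : ℕ) : R) * x i + (j : ℕ) • ∑ i, x i
  simp only [psi, sub_mul, sum_sub_distrib, nsmul_eq_mul, mul_sum]
  ring

theorem rel_sz (k : ℕ) (hk : 2 ≤ k) {δ : ℝ} (hδ : 0 < δ) : ∃ c ε : ℝ, 0 < c ∧ 0 < ε ∧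
    ∀ (R : Type) [CommRing R] [Finite R], (∀ i : ℕ, 0 < i → i < k → IsUnit (i : R)) →
      ∀ ν f : R → ℝ, (∀ y, 0 ≤ f y) → (∀ y, f y ≤ ν y) →
      LFC (fun (j : Fin k) (x : Fin k → R) => ν (psi j x)) ε → δ ≤ av f →
      c ≤ av fun p : R × R => ∏ j : Fin k, f (p.1 + (j : ℕ) • p.2) := by
  let o : Fin k := ⟨0, by omega⟩
  let i1 : Fin k := ⟨1, by omega⟩
  have hi1 : i1 ≠ o := fun h => by simpa [i1, o] using congrArg Fin.val h
  have : Nontrivial (Fin k) := ⟨⟨i1, o, hi1⟩⟩
  obtain ⟨c0, hc0, HV⟩ := varnavides k (δ := δ / 2) (by positivity)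
  obtain ⟨ε1, hε1, HC⟩ := counting (Fin k) (τ := c0 / 2) (by positivity)
  obtain ⟨ε2, hε2, HD⟩ := dense_arith (Fin k) o (τ := min ε1 (δ / 2)) (by positivity)
  obtain ⟨ε3, hε3, HL⟩ := cut_of_lfc (Fin k) hε2
  refine ⟨c0 / 2, min ε1 ε3, by positivity, by positivity, ?_⟩
  intro R _ _ hu ν f h0 hle hL hf
  have hν : ∀ y, 0 ≤ ν y := fun y => (h0 y).trans (hle y)
  have h1 := HL R (fun j x => ν (psi j x)) (fun j => rmain_noDep ν j) (fun _ _ => hν _)
    (hL.mono (min_le_right _ _)) o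
  obtain ⟨f', h0', h1', hc⟩ := HD R ν f h0 hle
    ((cut_psi_iff hu o o (fun y => ν y - 1) ε2).1 h1)
  have h2 := hc (fun _ _ => 1) (fun _ _ _ => rfl) (fun _ _ => zero_le_one) fun _ _ => le_rfl
  simp only [prod_const_one, mul_one] at h2
  rw [rmain_sum hi1 fun y => f y - f' y, av_sub] at h2
  have h3 : δ / 2 ≤ av f' := by
    have := (abs_le.1 h2).2
    have := min_le_right ε1 (δ / 2)
    linarith
  have h4 := HV R f' h0' h1' h3
  have h5 := HC R (fun j x => ν (psi j x)) (fun j x => f (psi j x)) (fun j x => f' (psi j x))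
    (fun j => rmain_noDep ν j) (fun j => rmain_noDep f j) (fun j => rmain_noDep f' j)
    (fun _ _ => h0 _) (fun _ _ => hle _) (fun _ _ => h0' _) (fun _ _ => h1' _)
    (hL.mono (min_le_left _ _)) fun j =>
      ((cut_psi_iff hu o j (fun y => f y - f' y) _).2 hc).mono (min_le_left _ _)
  rw [rmain_ap hk f, rmain_ap hk f'] at h5
  have := (abs_le.1 h5).1
  linarith

end Pool.Agent.GT
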