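import Pool.Agent.GT.Hyp

/-!
The strong linear forms lemma (iterated Cauchy-Schwarz).
-/

open scoped BigOperators Classical
open Finset Function

noncomputable section

namespace Pool.Agent.GT

section aux

variable {V X : Type} [Fintype V] [DecidableEq V]

/-- The vertices of the cube supported on e. -/
def RSlf_cb (e : Finset V) : Finset (V → Bool) :=
  univ.filter fun w => ∀ i, i ∉ e → w i = false

lemma RSlf_mem_cb {e : Finset V} {w : V → Bool} :
    w ∈ RSlf_cb e ↔ ∀ i, i ∉ e → w i = false := by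
  simp [RSlf_cb]

lemma RSlf_cb_empty : RSlf_cb (∅ : Finset V) = {fun _ => false} := by
  ext w
  simp [RSlf_mem_cb, funext_iff]

lemma RSlf_prod_insert {e : Finset V} {j : V} (hj : j ∉ e) (F : (V → Bool) → ℝ) :
    ∏ w ∈ RSlf_cb (insert j e), F w = ∏ w ∈ RSlf_cb e, F w * F (update w j true) := by
  rw [prod_mul_distrib, ← prod_filter_mul_prod_filter_not (RSlf_cb (insert j e))
    (fun w => w j = false)]
  congr 1
  · refine prod_congr ?_ fun _ _ => rfl
    ext w
    simp only [mem_filter, RSlf_mem_cb, mem_insert, not_or]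
    constructor
    · rintro ⟨h1, h2⟩ i hi
      by_cases e : i = j
      · rw [e]; exact h2
      · exact h1 i ⟨e, hi⟩
    · intro h
      exact ⟨fun i hi => h i hi.2, h j hj⟩
  · symm
    refine prod_nbij' (fun w => update w j true) (fun w => update w j false) ?_ ?_ ?_ ?_ ?_
    · intro w hw
      simp only [mem_filter, RSlf_mem_cb, mem_insert, not_or] at hw ⊢
      refine ⟨fun i hi => ?_, by simp⟩
      rw [update_of_ne hi.1]
      exact hw i hi.2
    · intro w hw
      simp only [mem_filter, RSlf_mem_cb, mem_insert, not_or] at hw ⊢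
      intro i hi
      by_cases e : i = j
      · rw [e, update_self]
      · rw [update_of_ne e]
        exact hw.1 i ⟨e, hi⟩
    · intro w hw
      rw [update_idem, ← (RSlf_mem_cb.1 hw) j hj, update_eq_self]
    · intro w hw
      have h2 : w j = true := by simpa using (mem_filter.1 hw).2
      rw [update_idem, ← h2, update_eq_self]
    · intro w _
      rfl

omit [Fintype V] in
lemma RSlf_nodep {j : V} {f : (V → X) → ℝ} (h : NoDep j f) {z z' : V → X}
    (e : ∀ i, i ≠ j → z i = z' i) : f z = f z' := by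
  have : z = update z' j (z j) := by
    funext i
    by_cases k : i = j
    · rw [k, update_self]
    · rw [update_of_ne k, e i k]
  rw [this, h]

omit [Fintype V] in
lemma RSlf_cube_fst {j : V} {f : (V → X) → ℝ} (h : NoDep j f) (x y : V → X) (t : X)
    (w : V → Bool) : f (cube (update x j t, y) w) = f (cube (x, y) w) :=
  RSlf_nodep h fun i hi => by simp [cube, update_of_ne hi]

omit [Fintype V] in
lemma RSlf_cube_snd {j : V} {f : (V → X) → ℝ} (h : NoDep j f) (x y : V → X) (t : X)
    (w : V → Bool) : f (cube (x, update y j t) w) = f (cube (x, y) w) :=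
  RSlf_nodep h fun i hi => by simp [cube, update_of_ne hi]

omit [Fintype V] in
lemma RSlf_cube_false {j : V} (x y : V → X) (t : X) {w : V → Bool} (hw : w j = false) :
    cube (x, update y j t) w = cube (x, y) w := by
  funext i
  by_cases k : i = j
  · simp [cube, k, hw]
  · simp [cube, update_of_ne k]

omit [Fintype V] in
lemma RSlf_cube_true (j : V) (p : (V → X) × (V → X)) (w : V → Bool) :
    cube p (update w j true) = cube (update p.1 j (p.2 j), p.2) w := by
  funext i
  by_cases k : i = j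
  · simp [cube, k]
  · simp [cube, update_of_ne k]

lemma RSlf_cs [Finite X] (j : V) (A B C : (V → X) × (V → X) → ℝ) (hB : ∀ p, |B p| ≤ C p)
    (hA : ∀ x y t, A (x, update y j t) = A (x, y))
    (hB1 : ∀ x y t, B (update x j t, y) = B (x, y))
    (hC1 : ∀ x y t, C (update x j t, y) = C (x, y))
    (hC2 : ∀ x y t, C (x, update y j t) = C (x, y)) :
    av (fun p => A p * B p) ^ 2 ≤
      av C * av fun p => C p * (A p * A (update p.1 j (p.2 j), p.2)) := by
  have e1 : av (fun p => A p * B p) =
      av fun p => B p * av fun t : X => A (update p.1 j t, p.2) := by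
    rw [av_prod', av_prod']
    refine av_congr fun y => ?_
    rw [av_update j]
    refine av_congr fun x => ?_
    rw [← av_const_mul]
    exact av_congr fun t => by rw [hB1, mul_comm]
  have e2 : (av fun p => C p * (A p * A (update p.1 j (p.2 j), p.2))) =
      av fun p => C p * (av fun t : X => A (update p.1 j t, p.2)) ^ 2 := by
    have l1 : (av fun p => C p * (A p * A (update p.1 j (p.2 j), p.2))) =
        av fun p => C p * (A p * av fun t : X => A (update p.1 j t, p.2)) := by
      rw [av_prod, av_prod]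
      refine av_congr fun x => ?_
      rw [av_update j]
      refine av_congr fun y => ?_
      rw [← av_const_mul, ← av_const_mul]
      refine av_congr fun t => ?_
      simp only [update_self, hA, hC2]
    rw [l1, av_prod', av_prod']
    refine av_congr fun y => ?_
    rw [av_update j]
    refine av_congr fun x => ?_
    simp only [update_idem, hC1]
    rw [av_const_mul, av_mul_const, sq]
  rw [e1, e2]
  exact av_cs_w hB _

lemma RSlf_lfc {ν : V → (V → X) → ℝ} {ε : ℝ} (h : LFC ν ε) (D : Finset V)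
    (T : V → Finset (V → Bool)) (hT : ∀ j ∈ D, ∀ w ∈ T j, w j = false) :
    |av (fun p : (V → X) × (V → X) => ∏ j ∈ D, ∏ w ∈ T j, ν j (cube p w)) - 1| ≤ ε := by
  have := h (univ.filter fun q => q.1 ∈ D ∧ q.2 ∈ T q.1) fun q hq =>
    hT _ (mem_filter.1 hq).2.1 _ (mem_filter.1 hq).2.2
  convert this using 4
  funext p
  exact (prod_finset_product _ D T (by simp) (f := fun q => ν q.1 (cube p q.2))).symm

/-- The majorant of the factor with index j. -/
def RSlf_nt (ν : V → (V → X) → ℝ) (b : Bool → V → Bool) (s : Bool) (j : V) (x : V → X) : ℝ :=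
  if b s j then ν j x else 1

/-- The factor with index j at stage d. -/
def RSlf_G (ν : V → (V → X) → ℝ) (h : Bool → V → (V → X) → ℝ) (b : Bool → V → Bool) (c : V)
    (d : Finset V) (j : V) (p : (V → X) × (V → X)) : ℝ :=
  ∏ w ∈ RSlf_cb (insert c (d.erase j)),
    if j ∈ d then RSlf_nt ν b (w c) j (cube p w) else h (w c) j (cube p w)

/-- The quantity at stage d. -/
def RSlf_Q (ν : V → (V → X) → ℝ) (h : Bool → V → (V → X) → ℝ) (b : Bool → V → Bool) (c : V)
    (d : Finset V) : ℝ :=
  av fun p : (V → X) × (V → X) =>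
    (∏ w ∈ RSlf_cb d, (ν c (cube p w) - 1)) * ∏ j ∈ univ.erase c, RSlf_G ν h b c d j p

omit [Fintype V] [DecidableEq V] in
lemma RSlf_prod_nt (ν : V → (V → X) → ℝ) (b : Bool → V → Bool) (c j : V) (T : Finset (V → Bool))
    (p : (V → X) × (V → X)) :
    ∏ w ∈ T, RSlf_nt ν b (w c) j (cube p w) =
      ∏ w ∈ T.filter (fun w => b (w c) j = true), ν j (cube p w) := by
  rw [prod_filter]
  rfl

lemma RSlf_step [Finite X] {ν : V → (V → X) → ℝ} (hν : ∀ j, NoDep j (ν j)) {ε : ℝ}
    (hL : LFC ν ε) (hε : ε ≤ 1) {c : V} {h : Bool → V → (V → X) → ℝ} {b : Bool → V → Bool}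
    (hd : ∀ s j, NoDep j (h s j)) (h0 : ∀ s j x, 0 ≤ h s j x)
    (h1 : ∀ s j x, h s j x ≤ if b s j then ν j x else 1) {d : Finset V} {j : V} (hj : j ∉ d)
    (hjc : j ≠ c) : RSlf_Q ν h b c d ^ 2 ≤ 2 * |RSlf_Q ν h b c (insert j d)| := by
  have hnt : ∀ s, NoDep j (RSlf_nt ν b s j) := fun s x t => by
    simp only [RSlf_nt, hν j x t]
  have hjm : j ∈ univ.erase c := by simp [hjc]
  have hjn : ∀ i, j ∉ insert c (d.erase i) := fun i => by simp [hjc, hj]
  set A : (V → X) × (V → X) → ℝ := fun p => (∏ w ∈ RSlf_cb d, (ν c (cube p w) - 1)) *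
    ∏ i ∈ (univ.erase c).erase j, RSlf_G ν h b c d i p with hA
  set B : (V → X) × (V → X) → ℝ := fun p =>
    ∏ w ∈ RSlf_cb (insert c (d.erase j)), h (w c) j (cube p w) with hB
  set C : (V → X) × (V → X) → ℝ := fun p =>
    ∏ w ∈ RSlf_cb (insert c (d.erase j)), RSlf_nt ν b (w c) j (cube p w) with hC
  have hBC : ∀ p, |B p| ≤ C p := fun p => by
    rw [abs_of_nonneg (prod_nonneg fun w _ => h0 _ _ _)]
    exact prod_le_prod (fun w _ => h0 _ _ _) fun w _ => h1 _ _ _
  have e1 : RSlf_Q ν h b c d = av fun p => A p * B p := by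
    refine av_congr fun p => ?_
    rw [← prod_erase_mul _ _ hjm, ← mul_assoc]
    simp only [hA, hB, RSlf_G, hj, if_false]
  have e2 : RSlf_Q ν h b c (insert j d) =
      av fun p => C p * (A p * A (update p.1 j (p.2 j), p.2)) := by
    refine av_congr fun p => ?_
    rw [← prod_erase_mul _ _ hjm, RSlf_prod_insert hj]
    have k1 : RSlf_G ν h b c (insert j d) j p = C p := by
      simp only [hC, RSlf_G, mem_insert_self, if_true, erase_insert hj, erase_eq_of_notMem hj]
    have k2 : ∀ i ∈ (univ.erase c).erase j, RSlf_G ν h b c (insert j d) i p =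
        RSlf_G ν h b c d i p * RSlf_G ν h b c d i (update p.1 j (p.2 j), p.2) := by
      intro i hi
      have hij : i ≠ j := ne_of_mem_erase hi
      have s1 : insert c ((insert j d).erase i) = insert j (insert c (d.erase i)) := by
        rw [erase_insert_of_ne hij.symm, insert_comm]
      simp only [RSlf_G]
      rw [s1, RSlf_prod_insert (hjn i), ← prod_mul_distrib]
      refine prod_congr rfl fun w _ => ?_
      simp only [mem_insert, hij, false_or, update_of_ne hjc.symm, RSlf_cube_true]
    rw [k1, prod_congr rfl k2, prod_mul_distrib, prod_mul_distrib]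
    simp only [hA, RSlf_cube_true]
    ring
  have cs := RSlf_cs j A B C hBC
    (fun x y t => by
      simp only [hA, RSlf_G]
      congr 1
      · exact prod_congr rfl fun w hw => by rw [RSlf_cube_false x y t (RSlf_mem_cb.1 hw j hj)]
      · exact prod_congr rfl fun i _ => prod_congr rfl fun w hw => by
          rw [RSlf_cube_false x y t (RSlf_mem_cb.1 hw j (hjn i))])
    (fun x y t => prod_congr rfl fun w _ => RSlf_cube_fst (hd _ j) x y t w)
    (fun x y t => prod_congr rfl fun w _ => RSlf_cube_fst (hnt _) x y t w)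
    (fun x y t => prod_congr rfl fun w _ => RSlf_cube_snd (hnt _) x y t w)
  have c0 : 0 ≤ av C := av_nonneg fun p => (abs_nonneg _).trans (hBC p)
  have c2 : av C ≤ 2 := by
    have := RSlf_lfc hL {j}
      (fun _ => (RSlf_cb (insert c (d.erase j))).filter fun w => b (w c) j = true)
      fun i hi w hw => by
        rw [mem_singleton.1 hi]
        exact RSlf_mem_cb.1 (mem_filter.1 hw).1 j (hjn j)
    simp only [prod_singleton, ← RSlf_prod_nt] at this
    have := (abs_le.1 this).2
    linarith
  rw [← e1, ← e2] at cs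
  calc _ ≤ _ := cs
    _ ≤ av C * |RSlf_Q ν h b c (insert j d)| := mul_le_mul_of_nonneg_left (le_abs_self _) c0
    _ ≤ _ := mul_le_mul_of_nonneg_right c2 (abs_nonneg _)

lemma RSlf_full [Finite X] {ν : V → (V → X) → ℝ} {ε : ℝ} (hL : LFC ν ε) (hε : 0 ≤ ε) (c : V)
    (h : Bool → V → (V → X) → ℝ) (b : Bool → V → Bool) :
    |RSlf_Q ν h b c (univ.erase c)| ≤ 2 ^ Fintype.card (V → Bool) * ε := by
  set D : Finset V := univ.erase c with hD
  have hc : c ∉ D := notMem_erase c univ
  set T : Finset (V → Bool) → V → Finset (V → Bool) := fun U j =>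
    if j = c then U else (RSlf_cb (insert c (D.erase j))).filter fun w => b (w c) j = true with hT
  set a : Finset (V → Bool) → ℝ := fun U => av fun p : (V → X) × (V → X) =>
    ∏ j ∈ insert c D, ∏ w ∈ T U j, ν j (cube p w) with ha
  set s : Finset (V → Bool) → ℝ := fun U => ∏ _w ∈ RSlf_cb D \ U, (-1 : ℝ) with hs
  have e1 : RSlf_Q ν h b c D = ∑ U ∈ (RSlf_cb D).powerset, s U * a U := by
    simp only [ha, ← av_const_mul]
    rw [← av_sum]
    refine av_congr fun p => ?_
    simp only [sub_eq_add_neg]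
    rw [prod_add, sum_mul]
    refine sum_congr rfl fun U _ => ?_
    rw [prod_insert hc]
    have k : ∀ j ∈ D, RSlf_G ν h b c D j p = ∏ w ∈ T U j, ν j (cube p w) := fun j hj => by
      have hjc : j ≠ c := ne_of_mem_erase hj
      simp only [RSlf_G, hj, if_true, hT, hjc, if_false, RSlf_prod_nt]
    rw [prod_congr rfl k]
    simp only [hT, if_true, hs]
    ring
  have e2 : ∑ U ∈ (RSlf_cb D).powerset, s U = 0 := by
    have := prod_add (fun _ : V → Bool => (1 : ℝ)) (fun _ => -1) (RSlf_cb D)
    simp only [prod_const_one, one_mul] at this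
    rw [← this]
    exact prod_eq_zero (i := fun _ => false) (RSlf_mem_cb.2 fun _ _ => rfl) (by norm_num)
  have e3 : RSlf_Q ν h b c D = ∑ U ∈ (RSlf_cb D).powerset, s U * (a U - 1) := by
    simp only [mul_sub, mul_one, sum_sub_distrib, e1, e2, sub_zero]
  have e4 : ∀ U ∈ (RSlf_cb D).powerset, |s U * (a U - 1)| ≤ ε := fun U hU => by
    have k : |s U| = 1 := by simp [hs]
    rw [abs_mul, k, one_mul]
    refine RSlf_lfc hL _ _ fun j _ w hw => ?_
    by_cases hjc : j = c
    · simp only [hT, hjc, if_true] at hw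
      rw [hjc]
      exact RSlf_mem_cb.1 (mem_powerset.1 hU hw) c hc
    · simp only [hT, hjc, if_false] at hw
      exact RSlf_mem_cb.1 (mem_filter.1 hw).1 j (by simp [hjc])
  rw [e3]
  refine (abs_sum_le_sum_abs _ _).trans ((sum_le_card_nsmul _ _ _ e4).trans ?_)
  rw [card_powerset, nsmul_eq_mul]
  refine mul_le_mul_of_nonneg_right ?_ hε
  push_cast
  exact pow_le_pow_right₀ (by norm_num) (card_le_univ _)

lemma RSlf_empty [Finite X] [Nonempty X] (ν : V → (V → X) → ℝ) (h : Bool → V → (V → X) → ℝ)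
    (b : Bool → V → Bool) (c : V) :
    RSlf_Q ν h b c ∅ = av fun p : (V → X) × X => (ν c p.1 - 1) *
      ∏ j ∈ univ.erase c, h false j p.1 * h true j (update p.1 c p.2) := by
  rw [RSlf_Q, av_prod, av_prod]
  refine av_congr fun x => ?_
  refine Eq.trans (av_congr fun y => ?_) (av_eval c _)
  have k : ∀ z : V → X, cube (z, y) (fun _ => false) = z := fun z => by
    funext i
    simp [cube]
  simp only [RSlf_G, notMem_empty, if_false, erase_empty]
  simp only [RSlf_prod_insert (notMem_empty c), RSlf_cb_empty, prod_singleton, update_self,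
    RSlf_cube_true, k]

end aux

lemma RSlf_ind (V : Type) [Fintype V] [DecidableEq V] (n : ℕ) : ∀ τ : ℝ, 0 < τ →
    ∃ ε : ℝ, 0 < ε ∧ ε ≤ 1 ∧
    ∀ (X : Type) [Finite X] (ν : V → (V → X) → ℝ), (∀ j, NoDep j (ν j)) →
      LFC ν ε → ∀ (c : V) (h : Bool → V → (V → X) → ℝ) (b : Bool → V → Bool),
      (∀ s j, NoDep j (h s j)) → (∀ s j x, 0 ≤ h s j x) →
      (∀ s j x, h s j x ≤ if b s j then ν j x else 1) →
      ∀ d ⊆ univ.erase c, (univ.erase c \ d).card = n → |RSlf_Q ν h b c d| ≤ τ := by
  induction n with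
  | zero =>
    intro τ hτ
    have K : (0 : ℝ) < 2 ^ Fintype.card (V → Bool) := by positivity
    refine ⟨min 1 (τ / 2 ^ Fintype.card (V → Bool)), lt_min one_pos (div_pos hτ K),
      min_le_left _ _, ?_⟩
    intro X _ ν _ hL c h b _ _ _ d hd hn
    have : d = univ.erase c :=
      Subset.antisymm hd (sdiff_eq_empty_iff_subset.1 (card_eq_zero.1 hn))
    rw [this]
    refine (RSlf_full (hL.mono (min_le_right _ _)) (div_pos hτ K).le c h b).trans (le_of_eq ?_)
    field_simp
  | succ n ih =>
    intro τ hτ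
    obtain ⟨ε, h0, h1, H⟩ := ih (τ ^ 2 / 2) (by positivity)
    refine ⟨ε, h0, h1, ?_⟩
    intro X _ ν hν hL c h b a1 a2 a3 d hd hn
    obtain ⟨j, hj⟩ : (univ.erase c \ d).Nonempty := card_pos.1 (by omega)
    have hj1 := (mem_sdiff.1 hj).1
    have hj2 := (mem_sdiff.1 hj).2
    have k1 := H X ν hν hL c h b a1 a2 a3 (insert j d) (insert_subset hj1 hd) (by
      rw [sdiff_insert, card_erase_of_mem hj, hn]
      rfl)
    have k2 := RSlf_step hν hL h1 a1 a2 a3 hj2 (ne_of_mem_erase hj1)
    exact abs_le_of_sq_le_sq' (by linarith) hτ.le |> abs_le.2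

theorem slf (V : Type) [Fintype V] [DecidableEq V] {τ : ℝ} (hτ : 0 < τ) : ∃ ε : ℝ, 0 < ε ∧
    ∀ (X : Type) [Finite X] [Nonempty X] (ν : V → (V → X) → ℝ), (∀ j, NoDep j (ν j)) →
      (∀ j x, 0 ≤ ν j x) → LFC ν ε → ∀ (c : V) (h : Bool → V → (V → X) → ℝ) (b : Bool → V → Bool),
      (∀ s j, NoDep j (h s j)) → (∀ s j x, 0 ≤ h s j x) →
      (∀ s j x, h s j x ≤ if b s j then ν j x else 1) →
      |av fun p : (V → X) × X => (ν c p.1 - 1) *
        ∏ j ∈ univ.erase c, h false j p.1 * h true j (update p.1 c p.2)| ≤ τ := by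
  obtain ⟨ε, h0, -, H⟩ := RSlf_ind V (Fintype.card V - 1) τ hτ
  refine ⟨ε, h0, ?_⟩
  intro X _ _ ν hν _ hL c h b a1 a2 a3
  rw [← RSlf_empty ν h b c]
  exact H X ν hν hL c h b a1 a2 a3 ∅ (empty_subset _) (by
    rw [sdiff_empty, card_erase_of_mem (mem_univ c), card_univ])

theorem cut_of_lfc (V : Type) [Fintype V] [DecidableEq V] {τ : ℝ} (hτ : 0 < τ) : ∃ ε : ℝ, 0 < ε ∧
    ∀ (X : Type) [Finite X] [Nonempty X] (ν : V → (V → X) → ℝ), (∀ j, NoDep j (ν j)) →
      (∀ j x, 0 ≤ ν j x) → LFC ν ε → ∀ c : V, Cut c (fun x => ν c x - 1) τ := by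
  obtain ⟨ε, h0, H⟩ := slf V hτ
  refine ⟨ε, h0, ?_⟩
  intro X _ _ ν hν hp hL c u u1 u2 u3
  have := H X ν hν hp hL c (fun s j x => if s then 1 else u j x) (fun _ _ => false)
    (fun s j x t => by simp only [u1 j x t])
    (fun s j x => by cases s <;> simp [u2])
    (fun s j x => by cases s <;> simp [u3])
  rw [← av_fst (Ω' := X)]
  simpa using this

end Pool.Agent.GT
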