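import Pool.Agent.GT.Basic

/-!
Combinatorial subspaces and the statements used in the proof of the density Hales-Jewett theorem.
-/

open scoped BigOperators Classical
open Finset Function Combinatorics

noncomputable section

namespace Pool.Agent.GT

variable {α η ζ ι ι' : Type}

/-- Composition of subspaces. -/
def scomp (V : Subspace η α ι) (U : Subspace ζ α η) : Subspace ζ α ι where
  idxFun i := (V.idxFun i).elim Sum.inl U.idxFun
  proper e := by
    obtain ⟨j, hj⟩ := U.proper e
    obtain ⟨i, hi⟩ := V.proper j
    exact ⟨i, by simp [hi, hj]⟩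

@[simp] lemma scomp_apply (V : Subspace η α ι) (U : Subspace ζ α η) (x : ζ → α) :
    scomp V U x = V (U x) := by
  funext i
  simp only [Subspace.coe_apply, scomp]
  cases V.idxFun i <;> rfl

/-- The whole space as a subspace. -/
def sid (α ι : Type) : Subspace ι α ι := ⟨Sum.inr, fun i => ⟨i, rfl⟩⟩

@[simp] lemma sid_apply (x : ι → α) : sid α ι x = x := rfl

/-- A subspace of the left coordinates, the right ones being frozen. -/
def sleft (V : Subspace η α ι) (y : ι' → α) : Subspace η α (ι ⊕ ι') where
  idxFun := Sum.elim V.idxFun fun i => Sum.inl (y i)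
  proper e := (V.proper e).imp' Sum.inl fun _ h => h

@[simp] lemma sleft_apply (V : Subspace η α ι) (y : ι' → α) (x : η → α) :
    sleft V y x = Sum.elim (V x) y := by
  funext i; cases i <;> rfl

/-- A subspace of the right coordinates, the left ones being frozen. -/
def sright (y : ι' → α) (V : Subspace η α ι) : Subspace η α (ι' ⊕ ι) where
  idxFun := Sum.elim (fun i => Sum.inl (y i)) V.idxFun
  proper e := (V.proper e).imp' Sum.inr fun _ h => h

@[simp] lemma sright_apply (y : ι' → α) (V : Subspace η α ι) (x : η → α) :
    sright y V x = Sum.elim y (V x) := by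
  funext i; cases i <;> rfl

lemma sub_injective (V : Subspace η α ι) : Injective (V : (η → α) → ι → α) := by
  intro x y h
  funext e
  obtain ⟨i, hi⟩ := V.proper e
  simpa [Subspace.coe_apply, hi] using congrFun h i

/-- The image of a line under a subspace. -/
def sline (V : Subspace η α ι) (l : Line α η) : Line α ι where
  idxFun i := (V.idxFun i).elim some l.idxFun
  proper := by
    obtain ⟨j, hj⟩ := l.proper
    obtain ⟨i, hi⟩ := V.proper j
    exact ⟨i, by simp [hi, hj]⟩

@[simp] lemma sline_apply (V : Subspace η α ι) (l : Line α η) (a : α) :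
    (sline V l : α → ι → α) a = V (l a) := by
  funext i
  simp only [Line.coe_apply, Subspace.coe_apply, sline]
  cases V.idxFun i <;> rfl

/-- A subspace over the alphabet α seen over the alphabet with one more letter. -/
def slift (U : Subspace η α ι) : Subspace η (Option α) ι where
  idxFun i := (U.idxFun i).map some id
  proper e := (U.proper e).imp fun i h => by simp [h]

lemma slift_some (U : Subspace η α ι) (x : η → α) :
    slift U (fun e => some (x e)) = fun i => some (U x i) := by
  funext i
  simp only [Subspace.coe_apply, slift]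
  cases U.idxFun i <;> rfl

/-- Replace the new letter by the letter a. -/
def rp (a : α) (z : ι → Option α) : ι → Option α := fun i => some ((z i).getD a)

@[simp] lemma rp_rp (a : α) (z : ι → Option α) : rp a (rp a z) = rp a z := rfl

lemma slift_rp (U : Subspace η α ι) (a : α) (z : η → Option α) :
    slift U (rp a z) = rp a (slift U z) := by
  funext i
  simp only [Subspace.coe_apply, slift, rp]
  cases U.idxFun i <;> rfl

lemma rp_sub_rp (V : Subspace η (Option α) ι) (a : α) (z : η → Option α) :
    rp a (V (rp a z)) = rp a (V z) := by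
  funext i
  simp only [Subspace.coe_apply, rp]
  cases V.idxFun i <;> rfl

lemma rp_elim (a : α) (x : ι → Option α) (y : ι' → Option α) :
    rp a (Sum.elim x y) = Sum.elim (rp a x) (rp a y) := by
  funext i; cases i <;> rfl

instance finite_line [Finite α] [Finite ι] : Finite (Line α ι) :=
  Finite.of_injective Line.idxFun fun _ _ h => by
    rename_i l m; cases l; cases m; cases h; rfl

/-- The density Hales-Jewett theorem for the alphabet α. -/
def DHJ (α : Type) : Prop :=
  ∀ δ : ℝ, 0 < δ → ∃ (ι : Type) (_ : Finite ι), ∀ A : (ι → α) → Prop, δ ≤ pr A →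
    ∃ l : Line α ι, ∀ a, A (l a)

/-- A set of words that does not distinguish the new letter from the letter a. -/
def Ins (a : α) (D : (ι → Option α) → Prop) : Prop := ∀ z z', rp a z = rp a z' → D z → D z'

lemma Ins.not {a : α} {D : (ι → Option α) → Prop} (h : Ins a D) : Ins a fun z => ¬ D z :=
  fun z z' e hz hz' => hz (h z' z e.symm hz')

lemma Ins.sub {a : α} {D : (ι → Option α) → Prop} (h : Ins a D) (V : Subspace η (Option α) ι) :
    Ins a fun z => D (V z) :=
  fun z z' e => h _ _ (by rw [← rp_sub_rp, e, rp_sub_rp])

lemma ins_rp (a : α) (A : (ι → Option α) → Prop) : Ins a fun z => A (rp a z) :=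
  fun _ _ e h => by simpa only [← e] using h

/-- The set D is tiled by η-dimensional subspaces up to density β, in dual form. -/
def Tiled (η : Type) (β : ℝ) (D : (ι → Option α) → Prop) : Prop :=
  ∀ (F : (ι → Option α) → ℝ) (ρ : ℝ), (∀ z, F z ≤ 1) → 0 ≤ ρ →
    (∀ T : Subspace η (Option α) ι, (∀ x, D (T x)) → av (fun x => F (T x)) ≤ ρ) →
    av (fun z => F z * ind (D z)) ≤ ρ + β

end Pool.Agent.GT
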